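import Pool.Agent.R211.PK.Stm

/-!
Project PK: the terms of the derivative of the difference are absolutely summable.
-/

set_option autoImplicit false

open Set Filter Topology MeasureTheory
open scoped ComplexConjugate ENNReal

namespace Pool.Agent.R211.PK

open Pool.Agent.R211.BQ

lemma abs_ln_zero : ln 0 = 0 := by
  unfold ln n2
  simp

lemma abs_n2_zero : n2 0 = 0 := by
  unfold n2
  simp

lemma abs_sqb (u : ℂ) (k : K2) : ((1 : ℝ) ^ 2 + n2 k) * (‖u‖ / ln k) ^ 2 ≤ 2 * ‖u‖ ^ 2 := by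
  by_cases hk : k = 0
  · subst hk
    rw [abs_ln_zero]
    simp
  · have h1 : (1 : ℝ) ≤ n2 k := by exact_mod_cast one_le_n2 hk
    have h0 : (0 : ℝ) < n2 k := by linarith
    rw [div_pow, ln_sq, mul_div_assoc', div_le_iff₀ h0]
    have := mul_nonneg (sub_nonneg.2 h1) (sq_nonneg ‖u‖)
    nlinarith

lemma abs_LBb {C : ℝ} {a : K2 → ℂ} (h : LB C a) (S : Finset K2) :
    ∑ k ∈ S, ((1 : ℝ) ^ 2 + n2 k) * (‖a k‖ / ln k) ^ 2 ≤ 2 * C := by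
  calc ∑ k ∈ S, ((1 : ℝ) ^ 2 + n2 k) * (‖a k‖ / ln k) ^ 2 ≤ ∑ k ∈ S, 2 * ‖a k‖ ^ 2 :=
        Finset.sum_le_sum fun k _ => abs_sqb (a k) k
    _ = 2 * ∑ k ∈ S, ‖a k‖ ^ 2 := by rw [Finset.mul_sum]
    _ ≤ 2 * C := by linarith [h S]

lemma abs_point (z u v : ℝ) (hz : 0 ≤ z) (hu : 0 ≤ u) (hv : 0 ≤ v) (k l : K2) :
    z * (|cf k l| * (u * v)) / n2 k ≤ v * (u / ln (k - l)) * (z / ln k) := by
  have hR : 0 ≤ v * (u / ln (k - l)) * (z / ln k) :=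
    mul_nonneg (mul_nonneg hv (div_nonneg hu (ln_nonneg _))) (div_nonneg hz (ln_nonneg _))
  by_cases hk : k = 0
  · subst hk
    rw [abs_n2_zero]
    simpa using hR
  by_cases hl : k = l
  · subst hl
    rw [cf_self]
    simpa using hR
  have h1 : 0 < ln k := ln_pos hk
  have h2 : 0 < ln (k - l) := ln_pos (sub_ne_zero.2 hl)
  have h3 : |cf k l| ≤ ln k / ln (k - l) := by
    rw [le_div_iff₀ h2]
    exact abs_cf_mul k l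
  rw [← ln_sq]
  calc z * (|cf k l| * (u * v)) / ln k ^ 2
      ≤ z * (ln k / ln (k - l) * (u * v)) / ln k ^ 2 := by
        apply div_le_div_of_nonneg_right _ (sq_nonneg _)
        exact mul_le_mul_of_nonneg_left (mul_le_mul_of_nonneg_right h3 (mul_nonneg hu hv)) hz
    _ = v * (u / ln (k - l)) * (z / ln k) := by
        field_simp

lemma abs_key {K : ℝ}
    (hK : ∀ ρ : ℝ, 1 ≤ ρ → ∀ (a b c : K2 → ℝ) (A B C : ℝ),
      (∀ k, 0 ≤ a k) → (∀ k, 0 ≤ b k) → (∀ k, 0 ≤ c k) →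
      (∀ S : Finset K2, ∑ k ∈ S, a k ^ 2 ≤ A) →
      (∀ S : Finset K2, ∑ k ∈ S, (ρ ^ 2 + n2 k) * b k ^ 2 ≤ B) →
      (∀ S : Finset K2, ∑ k ∈ S, (ρ ^ 2 + n2 k) * c k ^ 2 ≤ C) →
      ∀ P : Finset (K2 × K2), ∑ p ∈ P, a p.1 * b (p.2 - p.1) * c p.2 ≤
        K / ρ * Real.sqrt A * Real.sqrt B * Real.sqrt C)
    {M N : ℝ} {w f Z : K2 → ℂ} (hw : LB M w) (hf : LB M f) (hZ : LB N Z) (S : Finset K2) :
    ∑ k ∈ S, ‖Z k‖ * ‖nlI w f k‖ / n2 k ≤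
      K / 1 * Real.sqrt M * Real.sqrt (2 * M) * Real.sqrt (2 * N) := by
  have ht : Tendsto (fun T : Finset K2 => ∑ k ∈ S, ‖Z k‖ * ‖nlB T w f k‖ / n2 k) atTop
      (𝓝 (∑ k ∈ S, ‖Z k‖ * ‖nlI w f k‖ / n2 k)) := by
    refine tendsto_finsetSum _ fun k _ => ?_
    have h1 : Tendsto (fun T : Finset K2 => ‖nlB T w f k‖) atTop (𝓝 ‖nlI w f k‖) :=
      ((summable_nlI hw hf k).hasSum).norm
    exact (h1.const_mul _).div_const _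
  refine le_of_tendsto ht (Filter.Eventually.of_forall fun T => ?_)
  have h2 := hK 1 le_rfl (fun k => ‖f k‖) (fun k => ‖w k‖ / ln k) (fun k => ‖Z k‖ / ln k)
    M (2 * M) (2 * N) (fun k => norm_nonneg _) (fun k => div_nonneg (norm_nonneg _) (ln_nonneg _))
    (fun k => div_nonneg (norm_nonneg _) (ln_nonneg _)) hf (abs_LBb hw) (abs_LBb hZ) (T ×ˢ S)
  refine le_trans ?_ h2
  rw [Finset.sum_product_right]
  refine Finset.sum_le_sum fun k _ => ?_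
  have hn : (0 : ℝ) ≤ n2 k := by exact_mod_cast n2_nonneg k
  have h3 : ‖nlB T w f k‖ ≤ ∑ l ∈ T, |cf k l| * (‖w (k - l)‖ * ‖f l‖) := by
    unfold nlB
    refine (norm_sum_le _ _).trans (le_of_eq ?_)
    refine Finset.sum_congr rfl fun l _ => ?_
    rw [norm_mul, norm_mul, Complex.norm_real, Real.norm_eq_abs, mul_assoc]
  calc ‖Z k‖ * ‖nlB T w f k‖ / n2 k
      ≤ ‖Z k‖ * (∑ l ∈ T, |cf k l| * (‖w (k - l)‖ * ‖f l‖)) / n2 k :=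
        div_le_div_of_nonneg_right (mul_le_mul_of_nonneg_left h3 (norm_nonneg _)) hn
    _ = ∑ l ∈ T, ‖Z k‖ * (|cf k l| * (‖w (k - l)‖ * ‖f l‖)) / n2 k := by
        rw [Finset.mul_sum, Finset.sum_div]
    _ ≤ ∑ l ∈ T, ‖f l‖ * (‖w (k - l)‖ / ln (k - l)) * (‖Z k‖ / ln k) :=
        Finset.sum_le_sum fun l _ => abs_point _ _ _ (norm_nonneg _) (norm_nonneg _)
          (norm_nonneg _) k l

lemma abs_LBsub {M : ℝ} {w w' : K2 → ℂ} (hw : LB M w) (hw' : LB M w') :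
    LB (4 * M) (fun k => w k - w' k) := by
  intro S
  calc ∑ k ∈ S, ‖w k - w' k‖ ^ 2 ≤ ∑ k ∈ S, (2 * ‖w k‖ ^ 2 + 2 * ‖w' k‖ ^ 2) := by
        refine Finset.sum_le_sum fun k _ => ?_
        have h1 := norm_sub_le (w k) (w' k)
        have h2 := norm_nonneg (w k - w' k)
        have h3 : ‖w k - w' k‖ ^ 2 ≤ (‖w k‖ + ‖w' k‖) ^ 2 := pow_le_pow_left₀ h2 h1 2
        nlinarith [sq_nonneg (‖w k‖ - ‖w' k‖)]
    _ = 2 * ∑ k ∈ S, ‖w k‖ ^ 2 + 2 * ∑ k ∈ S, ‖w' k‖ ^ 2 := by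
        rw [Finset.sum_add_distrib, Finset.mul_sum, Finset.mul_sum]
    _ ≤ 4 * M := by linarith [hw S, hw' S]

lemma abs_fst_le (k : K2) : |(k.1 : ℝ)| ≤ n2 k := by
  have h1 : (|k.1| : ℤ) ≤ n2 k := by
    unfold n2
    have h2 : |k.1| ≤ k.1 ^ 2 := by
      rcases eq_or_ne k.1 0 with h | h
      · rw [h]; simp
      · have h3 : 1 ≤ |k.1| := Int.one_le_abs h
        calc |k.1| = |k.1| * 1 := (mul_one _).symm
          _ ≤ |k.1| * |k.1| := mul_le_mul_of_nonneg_left h3 (abs_nonneg _)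
          _ = k.1 ^ 2 := by rw [← pow_two, sq_abs]
    nlinarith [sq_nonneg k.2]
  exact_mod_cast h1

lemma abs_dt_le (ν g : ℝ) (w f w' f' : K2 → ℂ) (k : K2) :
    |dt ν g w f w' f' k| ≤ 2 * (‖w k - w' k‖ * ‖nlI w w k‖ / n2 k
      + ‖w k - w' k‖ * ‖nlI w' w' k‖ / n2 k + |ν| * ‖w k - w' k‖ ^ 2
      + |g| * (‖w k - w' k‖ ^ 2 + ‖f k - f' k‖ ^ 2)
      + ‖f k - f' k‖ * ‖nlI w' f' k‖ / n2 k + ‖f k - f' k‖ * ‖nlI w f k‖ / n2 k) := by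
  have hn : (0 : ℝ) ≤ n2 k := by exact_mod_cast n2_nonneg k
  set Z := w k - w' k with hZ
  set r := f k - f' k with hr
  have hrI : rI ν g w f k - rI ν g w' f' k = -(nlI w w k) + nlI w' w' k
      - ((ν * n2 k : ℝ) : ℂ) * Z + Complex.I * ((g * k.1 : ℝ) : ℂ) * r := by
    unfold rI
    rw [hZ, hr]
    ring
  have h1 : ‖rI ν g w f k - rI ν g w' f' k‖ ≤ ‖nlI w w k‖ + ‖nlI w' w' k‖
      + |ν| * n2 k * ‖Z‖ + |g| * n2 k * ‖r‖ := by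
    rw [hrI]
    have e1 : ‖((ν * n2 k : ℝ) : ℂ) * Z‖ = |ν| * n2 k * ‖Z‖ := by
      rw [norm_mul, Complex.norm_real, Real.norm_eq_abs, abs_mul, abs_of_nonneg hn]
    have e2 : ‖Complex.I * ((g * k.1 : ℝ) : ℂ) * r‖ ≤ |g| * n2 k * ‖r‖ := by
      rw [norm_mul, norm_mul, Complex.norm_I, one_mul, Complex.norm_real, Real.norm_eq_abs,
        abs_mul]
      exact mul_le_mul_of_nonneg_right (mul_le_mul_of_nonneg_left (abs_fst_le k) (abs_nonneg _))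
        (norm_nonneg _)
    calc _ ≤ ‖-(nlI w w k) + nlI w' w' k - ((ν * n2 k : ℝ) : ℂ) * Z‖
          + ‖Complex.I * ((g * k.1 : ℝ) : ℂ) * r‖ := norm_add_le _ _
      _ ≤ (‖-(nlI w w k) + nlI w' w' k‖ + ‖((ν * n2 k : ℝ) : ℂ) * Z‖)
          + ‖Complex.I * ((g * k.1 : ℝ) : ℂ) * r‖ := by gcongr; exact norm_sub_le _ _
      _ ≤ ((‖-(nlI w w k)‖ + ‖nlI w' w' k‖) + ‖((ν * n2 k : ℝ) : ℂ) * Z‖)
          + ‖Complex.I * ((g * k.1 : ℝ) : ℂ) * r‖ := by gcongr; exact norm_add_le _ _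
      _ ≤ _ := by
        rw [norm_neg, e1]
        linarith
  have h2 : ‖nlI w' f' k - nlI w f k‖ ≤ ‖nlI w' f' k‖ + ‖nlI w f k‖ := norm_sub_le _ _
  have h3 : |(conj Z * (rI ν g w f k - rI ν g w' f' k)
      + conj r * (nlI w' f' k - nlI w f k)).re| ≤
      ‖Z‖ * (‖nlI w w k‖ + ‖nlI w' w' k‖ + |ν| * n2 k * ‖Z‖ + |g| * n2 k * ‖r‖)
      + ‖r‖ * (‖nlI w' f' k‖ + ‖nlI w f k‖) := by
    refine (Complex.abs_re_le_norm _).trans ((norm_add_le _ _).trans ?_)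
    rw [norm_mul, norm_mul, RCLike.norm_conj, RCLike.norm_conj]
    exact add_le_add (mul_le_mul_of_nonneg_left h1 (norm_nonneg _))
      (mul_le_mul_of_nonneg_left h2 (norm_nonneg _))
  have h4 : |dt ν g w f w' f' k| = 2 * |(conj Z * (rI ν g w f k - rI ν g w' f' k)
      + conj r * (nlI w' f' k - nlI w f k)).re| / n2 k := by
    unfold dt
    rw [abs_div, abs_mul, abs_of_nonneg hn, abs_of_nonneg (by norm_num : (0 : ℝ) ≤ 2)]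
  rw [h4]
  have h5 : (2 * |(conj Z * (rI ν g w f k - rI ν g w' f' k)
      + conj r * (nlI w' f' k - nlI w f k)).re| / n2 k : ℝ) ≤
      2 * (‖Z‖ * (‖nlI w w k‖ + ‖nlI w' w' k‖ + |ν| * n2 k * ‖Z‖ + |g| * n2 k * ‖r‖)
      + ‖r‖ * (‖nlI w' f' k‖ + ‖nlI w f k‖)) / n2 k :=
    div_le_div_of_nonneg_right (by linarith) hn
  refine h5.trans ?_
  have h6 : ‖Z‖ * ‖r‖ ≤ ‖Z‖ ^ 2 + ‖r‖ ^ 2 := by
    nlinarith [sq_nonneg (‖Z‖ - ‖r‖), sq_nonneg ‖Z‖, sq_nonneg ‖r‖]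
  have h7 : |g| * (‖Z‖ * ‖r‖) ≤ |g| * (‖Z‖ ^ 2 + ‖r‖ ^ 2) :=
    mul_le_mul_of_nonneg_left h6 (abs_nonneg _)
  rcases hn.eq_or_lt with h0 | h0
  · rw [← h0]
    simp only [div_zero]
    have := mul_nonneg (abs_nonneg ν) (sq_nonneg ‖Z‖)
    have := mul_nonneg (abs_nonneg g) (add_nonneg (sq_nonneg ‖Z‖) (sq_nonneg ‖r‖))
    linarith
  · have e : 2 * (‖Z‖ * (‖nlI w w k‖ + ‖nlI w' w' k‖ + |ν| * n2 k * ‖Z‖ + |g| * n2 k * ‖r‖)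
        + ‖r‖ * (‖nlI w' f' k‖ + ‖nlI w f k‖)) / n2 k
        = 2 * (‖Z‖ * ‖nlI w w k‖ / n2 k + ‖Z‖ * ‖nlI w' w' k‖ / n2 k + |ν| * ‖Z‖ ^ 2
          + |g| * (‖Z‖ * ‖r‖) + ‖r‖ * ‖nlI w' f' k‖ / n2 k + ‖r‖ * ‖nlI w f k‖ / n2 k) := by
      have h0' : (n2 k : ℝ) ≠ 0 := h0.ne'
      field_simp
      ring
    rw [e]
    linarith

theorem t_Abs : StT2 → StAbs := by
  intro hT ν g M
  obtain ⟨K, -, hK⟩ := hT
  refine ⟨2 * (4 * (K / 1 * Real.sqrt M * Real.sqrt (2 * M) * Real.sqrt (2 * (4 * M)))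
    + |ν| * (4 * M) + |g| * (8 * M)), fun w f w' f' hA hA' S => ?_⟩
  have hZ := abs_LBsub hA.bw hA'.bw
  have hr := abs_LBsub hA.bf hA'.bf
  have k1 := abs_key hK hA.bw hA.bw hZ S
  have k2 := abs_key hK hA'.bw hA'.bw hZ S
  have k3 := abs_key hK hA'.bw hA'.bf hr S
  have k4 := abs_key hK hA.bw hA.bf hr S
  have k5 : |ν| * ∑ k ∈ S, ‖w k - w' k‖ ^ 2 ≤ |ν| * (4 * M) :=
    mul_le_mul_of_nonneg_left (hZ S) (abs_nonneg _)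
  have k6 : |g| * (∑ k ∈ S, ‖w k - w' k‖ ^ 2 + ∑ k ∈ S, ‖f k - f' k‖ ^ 2) ≤ |g| * (8 * M) := by
    refine mul_le_mul_of_nonneg_left ?_ (abs_nonneg _)
    have e1 := hZ S
    have e2 := hr S
    simp only at e1 e2
    linarith
  have e : ∑ k ∈ S, 2 * (‖w k - w' k‖ * ‖nlI w w k‖ / n2 k
      + ‖w k - w' k‖ * ‖nlI w' w' k‖ / n2 k + |ν| * ‖w k - w' k‖ ^ 2
      + |g| * (‖w k - w' k‖ ^ 2 + ‖f k - f' k‖ ^ 2)
      + ‖f k - f' k‖ * ‖nlI w' f' k‖ / n2 k + ‖f k - f' k‖ * ‖nlI w f k‖ / n2 k)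
      = 2 * (∑ k ∈ S, ‖w k - w' k‖ * ‖nlI w w k‖ / n2 k
        + ∑ k ∈ S, ‖w k - w' k‖ * ‖nlI w' w' k‖ / n2 k + |ν| * ∑ k ∈ S, ‖w k - w' k‖ ^ 2
        + |g| * (∑ k ∈ S, ‖w k - w' k‖ ^ 2 + ∑ k ∈ S, ‖f k - f' k‖ ^ 2)
        + ∑ k ∈ S, ‖f k - f' k‖ * ‖nlI w' f' k‖ / n2 k
        + ∑ k ∈ S, ‖f k - f' k‖ * ‖nlI w f k‖ / n2 k) := by
    rw [← Finset.mul_sum, Finset.sum_add_distrib, Finset.sum_add_distrib, Finset.sum_add_distrib,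
      Finset.sum_add_distrib, Finset.sum_add_distrib, ← Finset.mul_sum, ← Finset.mul_sum,
      Finset.sum_add_distrib]
  calc ∑ k ∈ S, |dt ν g w f w' f' k| ≤ _ := Finset.sum_le_sum fun k _ => abs_dt_le ν g w f w' f' k
    _ = _ := e
    _ ≤ _ := by
      refine mul_le_mul_of_nonneg_left ?_ (by norm_num)
      linarith

end Pool.Agent.R211.PK
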