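import Pool.Agent.R211.PK.Stm

set_option autoImplicit false

open Set Filter Topology MeasureTheory
open scoped ComplexConjugate ENNReal

namespace Pool.Agent.R211.PK

open Pool.Agent.R211.BQ

theorem bnd_inner {u v : T2 → ℝ} (hu : MemLp u 2 mu) (φ : Lp ℝ 2 mu) (hv : v =ᵐ[mu] φ) :
    inner ℝ (hu.toLp u) φ = ∫ y, u y * v y ∂mu := by
  rw [L2.inner_def]
  apply integral_congr_ae
  filter_upwards [hu.coeFn_toLp, hv] with y h1 h2
  rw [h1, ← h2]
  simp only [RCLike.inner_apply, conj_trivial]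
  ring

theorem t_Bnd : StBnd := by
  intro a b f hf hw
  have hbs : ∀ φ : Lp ℝ 2 mu, ∃ C : ℝ, ∀ t : Icc a b,
      ‖(innerSL ℝ ((hf t t.2).toLp (f t)) : Lp ℝ 2 mu →L[ℝ] ℝ) φ‖ ≤ C := by
    intro φ
    obtain ⟨C, hC⟩ := isCompact_Icc.exists_bound_of_continuousOn (hw φ (Lp.memLp φ))
    refine ⟨C, fun t => ?_⟩
    rw [innerSL_apply_apply, bnd_inner (hf t t.2) φ (v := φ) (Filter.EventuallyEq.refl _ _)]
    exact hC t t.2
  obtain ⟨C, hC⟩ := banach_steinhaus hbs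
  refine ⟨C ^ 2, fun t ht => ?_⟩
  have h1 := hC ⟨t, ht⟩
  rw [innerSL_apply_norm] at h1
  have h2 : ∫ y, f t y ^ 2 ∂mu = ‖(hf t ht).toLp (f t)‖ ^ 2 := by
    rw [← real_inner_self_eq_norm_sq, bnd_inner (hf t ht) _ (v := f t) (hf t ht).coeFn_toLp.symm]
    apply integral_congr_ae
    filter_upwards with y
    ring
  rw [h2]
  exact pow_le_pow_left₀ (norm_nonneg _) h1 2

end Pool.Agent.R211.PK
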