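import Pool.Agent.R211.PK.Stm

/-!
BR1: from solutions in physical space to solutions on the lattice (helper964).
-/

set_option autoImplicit false

open Set Filter Topology MeasureTheory
open scoped ComplexConjugate ENNReal

namespace Pool.Agent.R211.PK

open Pool.Agent.R211.BQ

namespace Br1

lemma integrable_fc {f : T2 → ℝ} (hf : MemLp f 2 mu) (k : K2) :
    Integrable (fun y => (f y : ℂ) * conj (ex k y)) mu :=
  integrable_mul_ex (hf.integrable (by norm_num)).ofReal k

lemma fc_re {f : T2 → ℝ} (hf : MemLp f 2 mu) (k : K2) :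
    (fc f k).re = ∫ y, f y * (ex k y).re ∂mu := by
  unfold fc
  have h := integral_re (integrable_fc hf k)
  simp only [RCLike.re_to_complex] at h
  rw [← h]
  refine integral_congr_ae (Filter.Eventually.of_forall fun y => ?_)
  simp

lemma fc_im {f : T2 → ℝ} (hf : MemLp f 2 mu) (k : K2) :
    (fc f k).im = ∫ y, f y * (-(ex k y).im) ∂mu := by
  unfold fc
  have h := integral_im (integrable_fc hf k)
  simp only [RCLike.im_to_complex] at h
  rw [← h]
  refine integral_congr_ae (Filter.Eventually.of_forall fun y => ?_)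
  simp

lemma memLp_re (k : K2) : MemLp (fun y => (ex k y).re) 2 mu := by
  refine MemLp.of_bound (C := 1)
    (Complex.continuous_re.comp (continuous_ex k)).aestronglyMeasurable ?_
  · refine Filter.Eventually.of_forall fun y => ?_
    rw [Real.norm_eq_abs, ← norm_ex k y]
    exact Complex.abs_re_le_norm _

lemma memLp_im (k : K2) : MemLp (fun y => -(ex k y).im) 2 mu := by
  refine MemLp.of_bound (C := 1)
    (Complex.continuous_im.comp (continuous_ex k)).neg.aestronglyMeasurable ?_
  · refine Filter.Eventually.of_forall fun y => ?_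
    rw [Real.norm_eq_abs, abs_neg, ← norm_ex k y]
    exact Complex.abs_im_le_norm _

lemma cont_fc {J : Set ℝ} {f : ℝ → T2 → ℝ} (hf : ∀ t ∈ J, MemLp (f t) 2 mu) (h : WCont J f)
    (k : K2) : ContinuousOn (fun t => fc (f t) k) J := by
  have h1 := h _ (memLp_re k)
  have h2 := h _ (memLp_im k)
  have h3 : ContinuousOn (fun t => ((∫ y, f t y * (ex k y).re ∂mu : ℝ) : ℂ)
      + ((∫ y, f t y * (-(ex k y).im) ∂mu : ℝ) : ℂ) * Complex.I) J :=
    (Complex.continuous_ofReal.comp_continuousOn h1).add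
      ((Complex.continuous_ofReal.comp_continuousOn h2).mul continuousOn_const)
  refine h3.congr fun t ht => ?_
  beta_reduce
  rw [← fc_re (hf t ht), ← fc_im (hf t ht), Complex.re_add_im]

lemma fc_zero {f : T2 → ℝ} (hf : f ∈ L20) : fc f 0 = 0 := by
  have h1 : fc f 0 = ∫ y, (f y : ℂ) ∂mu := by
    unfold fc
    refine integral_congr_ae (Filter.Eventually.of_forall fun y => ?_)
    simp [ex]
  rw [h1, integral_complex_ofReal, hf.2]
  simp

end Br1

open Br1

theorem t_Br1 (hV : StVel) (hB : StBnd) : StBr1 := by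
  intro L ν g J u θ hL hJ h
  have hκ : 0 < kap L := by
    unfold kap
    positivity
  have hκ' : (kap L : ℂ) ≠ 0 := by exact_mod_cast hκ.ne'
  have hum : ∀ t ∈ J, ∀ i, MemLp (u t i) 2 mu := fun t ht i => ((h.memH t ht).1 i).1
  have hθm : ∀ t ∈ J, MemLp (θ t) 2 mu := fun t ht => (h.memL t ht).1
  have hbd : ∀ a ∈ J, ∀ b ∈ J, ∃ C : ℝ, ∀ t ∈ Icc a b, LB C (wc L (u t)) ∧ LB C (fc (θ t)) := by
    intro a ha b hb
    have hsub : Icc a b ⊆ J := hJ.out ha hb
    obtain ⟨C₁, hC₁⟩ := h.bddV a ha b hb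
    obtain ⟨C₂, hC₂⟩ := hB a b θ (fun t ht => hθm t (hsub ht))
      (fun φ hφ => (h.contΘ φ hφ).mono hsub)
    refine ⟨max (max C₁ 0) C₂, fun t ht => ⟨?_, ?_⟩⟩
    · have h0 : (0 : ℝ) ≤ max (max C₁ 0) C₂ := (le_max_right _ _).trans (le_max_left _ _)
      refine ((hV L (u t) hL (h.memH t (hsub ht))).2.2.2.2.2.1 _ h0).2 ?_
      refine (hC₁ t ht).trans (ENNReal.ofReal_le_ofReal ?_)
      exact (le_max_left _ _).trans (le_max_left _ _)
    · intro S
      exact (LB_fc' (hθm t (hsub ht)) S).trans ((hC₂ t ht).trans (le_max_right _ _))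
  have hLB : ∀ t ∈ J, ∃ C : ℝ, LB C (wc L (u t)) ∧ LB C (fc (θ t)) := by
    intro t ht
    obtain ⟨C, hC⟩ := hbd t ht t ht
    exact ⟨C, hC t ⟨le_rfl, le_rfl⟩⟩
  have hcΘ : ∀ k, ContinuousOn (fun t => fc (θ t) k) J := cont_fc hθm h.contΘ
  have hcU : ∀ i k, ContinuousOn (fun t => fc (u t i) k) J := fun i k =>
    cont_fc (fun t ht => hum t ht i) (h.contU i) k
  refine ⟨?_, ?_, ?_, ?_, hbd, ?_, hcΘ, ?_, ?_⟩
  · intro t ht
    exact (hV L (u t) hL (h.memH t ht)).1
  · intro t ht
    exact fc_zero (h.memL t ht)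
  · intro t ht
    exact (hV L (u t) hL (h.memH t ht)).2.1
  · intro t _ k
    exact (fc_neg _ k).symm
  · intro k
    unfold wc
    exact continuousOn_const.mul
      ((continuousOn_const.mul (hcU 1 k)).sub (continuousOn_const.mul (hcU 0 k)))
  · intro k a ha b hb hab
    have hsub : Icc a b ⊆ J := hJ.out ha hb
    set c : Fin 2 → ℂ := ![-(Complex.I * (kap L : ℂ) * k.2), Complex.I * (kap L : ℂ) * k.1] with hc
    have hc0 : c 0 = -(Complex.I * (kap L : ℂ) * k.2) := rfl
    have hc1 : c 1 = Complex.I * (kap L : ℂ) * k.1 := rfl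
    have hdiv : ∑ i, (cm k i : ℂ) * c i = 0 := by
      rw [Fin.sum_univ_two, hc0, hc1]
      unfold cm
      simp only [if_true, Fin.one_eq_zero_iff, OfNat.ofNat_ne_one, if_false]
      push_cast
      ring
    have hpa : ∀ t, pa (u t) k c = wc L (u t) k := by
      intro t
      unfold pa wc
      rw [Fin.sum_univ_two, hc0, hc1]
      ring
    have hm := (h.momentum k c hdiv a ha b hb hab).2
    simp only [hpa] at hm
    rw [hm]
    refine intervalIntegral.integral_congr fun s hs => ?_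
    rw [uIcc_of_le hab] at hs
    have hsJ := hsub hs
    obtain ⟨C, hC1, hC2⟩ := hLB s hsJ
    have hvel := hV L (u s) hL (h.memH s hsJ)
    have hme := mom_eq (ν := ν) (g := g) hL hC1 hC2 hvel.1 (fc_zero (h.memL s hsJ)) (hum s hsJ)
      hvel.2.2.1 (fun _ => rfl) k hdiv
    show mom L ν g (u s) (θ s) k c = rI (ν * kap L ^ 2) (g * kap L) (wc L (u s)) (fc (θ s)) k
    rw [hme]
    change Complex.I * ((c 0 * k.2 - c 1 * k.1) / ((kap L * n2 k : ℝ) : ℂ))
      * rI (ν * kap L ^ 2) (g * kap L) (wc L (u s)) (fc (θ s)) k = _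
    by_cases hk : k = 0
    · subst hk
      rw [rI_zero]
      simp
    · have hnk : (n2 k : ℂ) ≠ 0 := by
        have := one_le_n2 hk
        exact_mod_cast (by omega : n2 k ≠ 0)
      have e1 : Complex.I * ((c 0 * k.2 - c 1 * k.1) / ((kap L * n2 k : ℝ) : ℂ)) = 1 := by
        rw [hc0, hc1]
        push_cast
        have e2 : -(Complex.I * (kap L : ℂ) * (k.2 : ℂ)) * (k.2 : ℂ)
            - Complex.I * (kap L : ℂ) * (k.1 : ℂ) * (k.1 : ℂ)
            = -(Complex.I * ((kap L : ℂ) * (n2 k : ℂ))) := by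
          rw [n2_eq]
          ring
        rw [e2]
        field_simp
        rw [Complex.I_sq]
        ring
      rw [e1, one_mul]
  · intro k a ha b hb hab
    have hsub : Icc a b ⊆ J := hJ.out ha hb
    have hm := (h.transport k a ha b hb hab).2
    refine hm.trans (intervalIntegral.integral_congr fun s hs => ?_)
    rw [uIcc_of_le hab] at hs
    have hsJ := hsub hs
    obtain ⟨C, hC1, hC2⟩ := hLB s hsJ
    have hvel := hV L (u s) hL (h.memH s hsJ)
    exact tra_eq hL hC1 hC2 (hum s hsJ) (hθm s hsJ) hvel.2.2.1 (fun _ => rfl) k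

end Pool.Agent.R211.PK
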