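import Pool.Agent.R211.PK.Stm

/-!
Piece BR2 (helper31): from the coefficients to solutions in physical space.
-/

set_option autoImplicit false

open Set Filter Topology MeasureTheory
open scoped ComplexConjugate ENNReal

namespace Pool.Agent.R211.PK

open Pool.Agent.R211.BQ

namespace Br2

lemma contOn_of_Icc {α : Type*} [TopologicalSpace α] {J : Set ℝ} {f : ℝ → α}
    (h : ∀ a ∈ J, ∀ b ∈ J, ContinuousOn f (Icc a b)) : ContinuousOn f J := by
  intro t ht
  obtain ⟨a, ha, hat, ha'⟩ : ∃ a ∈ J, a ≤ t ∧ (a < t ∨ ∀ x ∈ J, t ≤ x) := by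
    by_cases hex : ∃ a ∈ J, a < t
    · obtain ⟨a, ha, h1⟩ := hex
      exact ⟨a, ha, h1.le, Or.inl h1⟩
    · refine ⟨t, ht, le_rfl, Or.inr fun x hx => ?_⟩
      by_contra hlt
      exact hex ⟨x, hx, not_le.1 hlt⟩
  obtain ⟨b, hb, htb, hb'⟩ : ∃ b ∈ J, t ≤ b ∧ (t < b ∨ ∀ x ∈ J, x ≤ t) := by
    by_cases hex : ∃ b ∈ J, t < b
    · obtain ⟨b, hb, h1⟩ := hex
      exact ⟨b, hb, h1.le, Or.inl h1⟩
    · refine ⟨t, ht, le_rfl, Or.inr fun x hx => ?_⟩
      by_contra hlt
      exact hex ⟨x, hx, not_le.1 hlt⟩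
  have h1 : ContinuousWithinAt f (Icc a b) t := h a ha b hb t ⟨hat, htb⟩
  refine h1.mono_of_mem_nhdsWithin ?_
  have hA : Ici a ∈ 𝓝[J] t := by
    rcases ha' with h | h
    · exact mem_nhdsWithin_of_mem_nhds (Ici_mem_nhds h)
    · exact mem_of_superset self_mem_nhdsWithin (fun x hx => hat.trans (h x hx))
  have hB : Iic b ∈ 𝓝[J] t := by
    rcases hb' with h | h
    · exact mem_nhdsWithin_of_mem_nhds (Iic_mem_nhds h)
    · exact mem_of_superset self_mem_nhdsWithin (fun x hx => (h x hx).trans htb)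
  exact inter_mem hA hB

lemma weak_Icc {a b C : ℝ} {f : ℝ → T2 → ℝ} (hab : a ≤ b) (hm : ∀ t ∈ Icc a b, MemLp (f t) 2 mu)
    (hf : ∀ k, ContinuousOn (fun t => fc (f t) k) (Icc a b)) (hC : ∀ t ∈ Icc a b, LB C (fc (f t)))
    {φ : T2 → ℝ} (hφ : MemLp φ 2 mu) :
    ContinuousOn (fun t => ∫ y, f t y * φ y ∂mu) (Icc a b) := by
  have hp : Continuous fun t : ℝ => max a (min b t) := by fun_prop
  have hpm : ∀ t : ℝ, max a (min b t) ∈ Icc a b := fun t =>
    ⟨le_max_left _ _, max_le hab (min_le_left _ _)⟩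
  have hpe : ∀ t ∈ Icc a b, max a (min b t) = t := by
    intro t ht
    rw [min_eq_right ht.2, max_eq_right ht.1]
  have h1 := weak_cont' (f := fun t => f (max a (min b t))) (C := C) (fun t => hm _ (hpm t))
    (fun k => (hf k).comp_continuous hp hpm) (fun t => hC _ (hpm t)) hφ
  refine h1.continuousOn.congr fun t ht => ?_
  simp only [hpe t ht]

lemma nlI_cont {a b C : ℝ} {W Θ : ℝ → K2 → ℂ} (hW : ∀ k, ContinuousOn (fun t => W t k) (Icc a b))
    (hΘ : ∀ k, ContinuousOn (fun t => Θ t k) (Icc a b)) (hbW : ∀ t ∈ Icc a b, LB C (W t))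
    (hbΘ : ∀ t ∈ Icc a b, LB C (Θ t)) (k : K2) :
    ContinuousOn (fun t => nlI (W t) (Θ t) k) (Icc a b) := by
  have h : TendstoUniformlyOn (fun (M : ℕ) t => nlB (SM k M) (W t) (Θ t) k)
      (fun t => nlI (W t) (Θ t) k) atTop (Icc a b) := by
    rw [Metric.tendstoUniformlyOn_iff]
    intro ε hε
    have h1 : Tendsto (fun M : ℕ => ln k / M * (Real.sqrt C * Real.sqrt C)) atTop (𝓝 0) := by
      have := (tendsto_const_div_atTop_nhds_zero_nat (ln k)).mul_const
        (Real.sqrt C * Real.sqrt C)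
      simpa using this
    filter_upwards [(tendsto_order.1 h1).2 ε hε, eventually_gt_atTop 0] with M hM hM0 t ht
    rw [dist_eq_norm]
    exact (nlI_sub (hbW t ht) (hbΘ t ht) hM0).trans_lt hM
  refine h.continuousOn (Filter.Frequently.of_forall fun M => ?_)
  unfold nlB
  exact continuousOn_finsetSum _ fun l _ => (continuousOn_const.mul (hW _)).mul (hΘ l)

lemma wc_eq {L : ℝ} (hL : 0 < L) {w : K2 → ℂ} (hw0 : w 0 = 0) {u : Fin 2 → T2 → ℝ}
    (hu : ∀ i k, fc (u i) k = uc (kap L) w i k) : wc L u = w := by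
  have hκ : 0 < kap L := by
    unfold kap
    positivity
  have hκ' : (kap L : ℂ) ≠ 0 := by exact_mod_cast hκ.ne'
  funext k
  unfold wc
  rw [hu, hu]
  unfold uc
  by_cases hk : k = 0
  · subst hk
    rw [hw0]
    simp
  · have hnk : (n2 k : ℂ) ≠ 0 := by
      have := one_le_n2 hk
      exact_mod_cast (by omega : n2 k ≠ 0)
    simp only [if_true, Fin.one_eq_zero_iff, OfNat.ofNat_ne_one, if_false]
    push_cast
    field_simp
    rw [n2_eq, Complex.I_sq]
    ring

end Br2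

open Br2 in
theorem t_Br2 (hV : StVel) : StBr2 := by
  intro L ν g J W Θ u₀ θ₀ hL hJ h0J hS hu₀ hθ₀ hw₀ hf₀
  have hκ : 0 < kap L := by
    unfold kap
    positivity
  have hLB : ∀ t ∈ J, ∃ C, LB C (W t) ∧ LB C (Θ t) := fun t ht => by
    obtain ⟨C, hC⟩ := hS.bd t ht t ht
    exact ⟨C, hC t ⟨le_rfl, le_rfl⟩⟩
  have hv0 := (hV L u₀ hL hu₀).2.2.1
  have hex : ∀ t, ∃ v : Fin 2 → T2 → ℝ, (t ∈ J → (∀ i, MemLp (v i) 2 mu) ∧
      ∀ i k, fc (v i) k = uc (kap L) (W t) i k) ∧ (t = 0 → v = u₀) := by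
    intro t
    by_cases ht0 : t = 0
    · subst ht0
      refine ⟨u₀, fun _ => ⟨fun i => (hu₀.1 i).1, fun i k => ?_⟩, fun _ => rfl⟩
      rw [hv0, hw₀]
    · by_cases ht : t ∈ J
      · obtain ⟨C, hC1, hC2⟩ := hLB t ht
        have h1 : ∀ i, ∃ f : T2 → ℝ, MemLp f 2 mu ∧ ∀ k, fc f k = uc (kap L) (W t) i k := fun i =>
          exists_real' (fun k => uc_conj (hS.cjW t ht) i k) (uc_LB hκ (hS.zW t ht) hC1 i)
        choose v hv1 hv2 using h1
        exact ⟨v, fun _ => ⟨hv1, hv2⟩, fun h => absurd h ht0⟩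
      · exact ⟨u₀, fun h => absurd h ht, fun h => absurd h ht0⟩
  have hexθ : ∀ t, ∃ f : T2 → ℝ, (t ∈ J → MemLp f 2 mu ∧ ∀ k, fc f k = Θ t k) ∧
      (t = 0 → f = θ₀) := by
    intro t
    by_cases ht0 : t = 0
    · subst ht0
      refine ⟨θ₀, fun _ => ⟨hθ₀.1, fun k => ?_⟩, fun _ => rfl⟩
      rw [hf₀]
    · by_cases ht : t ∈ J
      · obtain ⟨C, hC1, hC2⟩ := hLB t ht
        obtain ⟨f, hf1, hf2⟩ := exists_real' (hS.cjΘ t ht) hC2
        exact ⟨f, fun _ => ⟨hf1, hf2⟩, fun h => absurd h ht0⟩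
      · exact ⟨θ₀, fun h => absurd h ht, fun h => absurd h ht0⟩
  choose u hu hu0 using hex
  choose θ hθ hθ0 using hexθ
  have hwc : ∀ t ∈ J, wc L (u t) = W t := fun t ht => wc_eq hL (hS.zW t ht) (hu t ht).2
  have hfc : ∀ t ∈ J, fc (θ t) = Θ t := fun t ht => funext (hθ t ht).2
  have hH : ∀ t ∈ J, u t ∈ Hs := by
    intro t ht
    refine ⟨fun i => mem_L20 ((hu t ht).1 i) ?_, fun k => ?_⟩
    · rw [(hu t ht).2]
      unfold uc
      rw [hS.zW t ht, mul_zero]
    · simp only [(hu t ht).2]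
      exact uc_div (kap L) (W t) k
  have hLm : ∀ t ∈ J, θ t ∈ L20 := by
    intro t ht
    refine mem_L20 (hθ t ht).1 ?_
    rw [(hθ t ht).2, hS.zΘ t ht]
  have hg : ∀ a ∈ J, ∀ b ∈ J, ∃ C : ℝ, ∀ t ∈ Icc a b, grad2 L (u t) ≤ ENNReal.ofReal C := by
    intro a ha b hb
    obtain ⟨C, hC⟩ := hS.bd a ha b hb
    refine ⟨C, fun t ht => ?_⟩
    have htJ : t ∈ J := hJ.out ha hb ht
    obtain ⟨hC1, -⟩ := hC t ht
    have h2 := (hV L (u t) hL (hH t htJ)).2.2.2.2.2.1 C hC1.nonneg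
    rw [hwc t htJ] at h2
    exact h2.1 hC1
  have hcU : ∀ i, WCont J fun t => u t i := by
    intro i φ hφ
    refine contOn_of_Icc fun a ha b hb => ?_
    rcases le_or_gt a b with hab | hab
    · have hsub := hJ.out ha hb
      obtain ⟨C, hC⟩ := hS.bd a ha b hb
      refine weak_Icc (C := C / kap L ^ 2) hab (fun t ht => (hu t (hsub ht)).1 i) (fun k => ?_)
        (fun t ht => ?_) hφ
      · have h3 : ContinuousOn (fun t => uc (kap L) (W t) i k) (Icc a b) := by
          unfold uc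
          exact continuousOn_const.mul ((hS.coW k).mono hsub)
        exact h3.congr fun t ht => (hu t (hsub ht)).2 i k
      · have h3 : fc (u t i) = uc (kap L) (W t) i := funext ((hu t (hsub ht)).2 i)
        rw [h3]
        exact uc_LB hκ (hS.zW t (hsub ht)) (hC t ht).1 i
    · rw [Icc_eq_empty (not_le.2 hab)]
      exact continuousOn_empty _
  have hcT : WCont J θ := by
    intro φ hφ
    refine contOn_of_Icc fun a ha b hb => ?_
    rcases le_or_gt a b with hab | hab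
    · have hsub := hJ.out ha hb
      obtain ⟨C, hC⟩ := hS.bd a ha b hb
      refine weak_Icc (C := C) hab (fun t ht => (hθ t (hsub ht)).1) (fun k => ?_)
        (fun t ht => ?_) hφ
      · exact ((hS.coΘ k).mono hsub).congr fun t ht => (hθ t (hsub ht)).2 k
      · rw [hfc t (hsub ht)]
        exact (hC t ht).2
    · rw [Icc_eq_empty (not_le.2 hab)]
      exact continuousOn_empty _
  have hV' : VLoc L J u := by
    intro a ha b hb
    obtain ⟨C, hC⟩ := hg a ha b hb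
    calc ∫⁻ t in Icc a b, grad2 L (u t) ≤ ∫⁻ _ in Icc a b, ENNReal.ofReal C :=
          setLIntegral_mono' measurableSet_Icc hC
      _ = ENNReal.ofReal C * volume (Icc a b) := setLIntegral_const _ _
      _ < ⊤ := by
        rw [Real.volume_Icc]
        exact ENNReal.mul_lt_top ENNReal.ofReal_lt_top ENNReal.ofReal_lt_top
  have hM : MomEq L ν g J u θ := by
    intro k c hc a ha b hb hab
    have hsub := hJ.out ha hb
    obtain ⟨C, hC⟩ := hS.bd a ha b hb
    set A : ℂ := Complex.I * ((c 0 * k.2 - c 1 * k.1) / ((kap L * n2 k : ℝ) : ℂ)) with hA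
    have h1 : ∀ t ∈ Icc a b, mom L ν g (u t) (θ t) k c
        = A * rI (ν * kap L ^ 2) (g * kap L) (W t) (Θ t) k := fun t ht =>
      mom_eq hL (hC t ht).1 (hC t ht).2 (hS.zW t (hsub ht)) (hS.zΘ t (hsub ht))
        (hu t (hsub ht)).1 (hu t (hsub ht)).2 (hθ t (hsub ht)).2 k hc
    have h2 : ∀ t ∈ Icc a b, pa (u t) k c = A * W t k := by
      intro t ht
      unfold pa
      simp only [(hu t (hsub ht)).2]
      rw [sum_c_uc]
    have hW' : ∀ k, ContinuousOn (fun t => W t k) (Icc a b) := fun k => (hS.coW k).mono hsub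
    have hΘ' : ∀ k, ContinuousOn (fun t => Θ t k) (Icc a b) := fun k => (hS.coΘ k).mono hsub
    have hcont : ContinuousOn (fun t => A * rI (ν * kap L ^ 2) (g * kap L) (W t) (Θ t) k)
        (Icc a b) := by
      refine continuousOn_const.mul ?_
      unfold rI
      exact (((nlI_cont hW' hW' (fun t ht => (hC t ht).1) (fun t ht => (hC t ht).1) k).neg).sub
        (continuousOn_const.mul (hW' k))).add (continuousOn_const.mul (hΘ' k))
    refine ⟨(hcont.congr h1).intervalIntegrable_of_Icc hab, ?_⟩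
    show pa (u b) k c - pa (u a) k c = _
    rw [h2 b ⟨hab, le_rfl⟩, h2 a ⟨le_rfl, hab⟩, ← mul_sub, hS.eqW k a ha b hb hab,
      ← intervalIntegral.integral_const_mul]
    refine intervalIntegral.integral_congr fun t ht => ?_
    rw [uIcc_of_le hab] at ht
    exact (h1 t ht).symm
  have hT : TraEq L J u θ := by
    intro k a ha b hb hab
    have hsub := hJ.out ha hb
    obtain ⟨C, hC⟩ := hS.bd a ha b hb
    have h1 : ∀ t ∈ Icc a b, tra L (u t) (θ t) k = -(nlI (W t) (Θ t) k) := fun t ht =>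
      tra_eq hL (hC t ht).1 (hC t ht).2 (hu t (hsub ht)).1 (hθ t (hsub ht)).1
        (hu t (hsub ht)).2 (hθ t (hsub ht)).2 k
    have hW' : ∀ k, ContinuousOn (fun t => W t k) (Icc a b) := fun k => (hS.coW k).mono hsub
    have hΘ' : ∀ k, ContinuousOn (fun t => Θ t k) (Icc a b) := fun k => (hS.coΘ k).mono hsub
    have hcont : ContinuousOn (fun t => -(nlI (W t) (Θ t) k)) (Icc a b) :=
      (nlI_cont hW' hΘ' (fun t ht => (hC t ht).1) (fun t ht => (hC t ht).2) k).neg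
    refine ⟨(hcont.congr h1).intervalIntegrable_of_Icc hab, ?_⟩
    show fc (θ b) k - fc (θ a) k = _
    rw [hfc b hb, hfc a ha, hS.eqΘ k a ha b hb hab]
    refine intervalIntegral.integral_congr fun t ht => ?_
    rw [uIcc_of_le hab] at ht
    exact (h1 t ht).symm
  have hsol : IsSol L ν g J u θ := ⟨hH, hLm, hcU, hcT, hV', hM, hT⟩
  exact ⟨u, θ, ⟨hsol, hg⟩, hu0 0 rfl, hθ0 0 rfl, fun t ht => ⟨hwc t ht, hfc t ht⟩⟩

end Pool.Agent.R211.PK
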