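import Pool.Agent.R211.PK.Stm

/-!
Project PK, piece CPT (helper250): compactness of sequences of solutions.
-/

set_option autoImplicit false

open Set Filter Topology MeasureTheory
open scoped ComplexConjugate ENNReal

namespace Pool.Agent.R211.PK

open Pool.Agent.R211.BQ

namespace Cpt

/-- Continuity of the transport term under coefficientwise convergence. -/
theorem tendsto_nlI {ι : Type} {F : Filter ι} {C D : ℝ} {wn fn : ι → K2 → ℂ} {w f : K2 → ℂ}
    (hwn : ∀ᶠ n in F, LB C (wn n)) (hfn : ∀ᶠ n in F, LB D (fn n)) (hw : LB C w) (hf : LB D f)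
    (h1 : ∀ l, Tendsto (fun n => wn n l) F (𝓝 (w l)))
    (h2 : ∀ l, Tendsto (fun n => fn n l) F (𝓝 (f l))) (k : K2) :
    Tendsto (fun n => nlI (wn n) (fn n) k) F (𝓝 (nlI w f k)) := by
  rw [Metric.tendsto_nhds]
  intro ε hε
  have hE : 0 ≤ ln k * (Real.sqrt C * Real.sqrt D) := by
    have := ln_nonneg k
    positivity
  obtain ⟨M, hM⟩ := exists_nat_gt (3 * (ln k * (Real.sqrt C * Real.sqrt D)) / ε)
  have hM0 : (0 : ℝ) < M := lt_of_le_of_lt (by positivity) hM
  have hM1 : 0 < M := by exact_mod_cast hM0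
  have hb : ln k / M * (Real.sqrt C * Real.sqrt D) < ε / 3 := by
    rw [div_lt_iff₀ hε] at hM
    rw [div_mul_eq_mul_div, div_lt_iff₀ hM0]
    linarith
  have h3 : Tendsto (fun n => nlB (SM k M) (wn n) (fn n) k) F (𝓝 (nlB (SM k M) w f k)) := by
    unfold nlB
    exact tendsto_finsetSum _ fun l _ => ((h1 (k - l)).const_mul _).mul (h2 l)
  rw [Metric.tendsto_nhds] at h3
  filter_upwards [h3 (ε / 3) (by positivity), hwn, hfn] with n hn hn1 hn2
  have h4 := nlI_sub hn1 hn2 (k := k) hM1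
  have h5 := nlI_sub hw hf (k := k) hM1
  rw [dist_eq_norm] at hn ⊢
  have h6 : nlI (wn n) (fn n) k - nlI w f k
      = (nlI (wn n) (fn n) k - nlB (SM k M) (wn n) (fn n) k)
        + (nlB (SM k M) (wn n) (fn n) k - nlB (SM k M) w f k)
        - (nlI w f k - nlB (SM k M) w f k) := by ring
  rw [h6]
  refine lt_of_le_of_lt ((norm_sub_le _ _).trans (add_le_add_left (norm_add_le _ _) _)) ?_
  linarith

theorem tendsto_rI {ι : Type} {F : Filter ι} {C ν g : ℝ} {wn fn : ι → K2 → ℂ} {w f : K2 → ℂ}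
    (hwn : ∀ᶠ n in F, LB C (wn n)) (hw : LB C w)
    (h1 : ∀ l, Tendsto (fun n => wn n l) F (𝓝 (w l)))
    (h2 : ∀ l, Tendsto (fun n => fn n l) F (𝓝 (f l))) (k : K2) :
    Tendsto (fun n => rI ν g (wn n) (fn n) k) F (𝓝 (rI ν g w f k)) := by
  unfold rI
  exact (((tendsto_nlI hwn hwn hw hw h1 h1 k).neg).sub ((h1 k).const_mul _)).add
    ((h2 k).const_mul _)

section sol

variable {ν g a b C : ℝ} {J : Set ℝ} {W Θ : ℝ → K2 → ℂ}

theorem cont_nlI (h : LSol ν g J W Θ) (hsub : Icc a b ⊆ J)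
    (hC : ∀ t ∈ Icc a b, LB C (W t) ∧ LB C (Θ t)) (k : K2) :
    ContinuousOn (fun s => nlI (W s) (Θ s) k) (Icc a b) := by
  intro t ht
  refine tendsto_nlI (C := C) (D := C) ?_ ?_ (hC t ht).1 (hC t ht).2 (fun l => ?_)
    (fun l => ?_) k
  · filter_upwards [self_mem_nhdsWithin] with s hs
    exact (hC s hs).1
  · filter_upwards [self_mem_nhdsWithin] with s hs
    exact (hC s hs).2
  · exact ((h.coW l).mono hsub) t ht
  · exact ((h.coΘ l).mono hsub) t ht

theorem cont_rI (h : LSol ν g J W Θ) (hsub : Icc a b ⊆ J)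
    (hC : ∀ t ∈ Icc a b, LB C (W t) ∧ LB C (Θ t)) (k : K2) :
    ContinuousOn (fun s => rI ν g (W s) (Θ s) k) (Icc a b) := by
  intro t ht
  refine tendsto_rI (C := C) ?_ (hC t ht).1 (fun l => ?_) (fun l => ?_) k
  · filter_upwards [self_mem_nhdsWithin] with s hs
    exact (hC s hs).1
  · exact ((h.coW l).mono hsub) t ht
  · exact ((h.coΘ l).mono hsub) t ht

end sol

theorem lip_of_eq {a b K : ℝ} {f f' : ℝ → ℂ}
    (hE : ∀ s ∈ Icc a b, ∀ t ∈ Icc a b, s ≤ t → f t - f s = ∫ x in s..t, f' x)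
    (hb : ∀ x ∈ Icc a b, ‖f' x‖ ≤ K) :
    ∀ s ∈ Icc a b, ∀ t ∈ Icc a b, ‖f t - f s‖ ≤ K * |t - s| := by
  have key : ∀ s ∈ Icc a b, ∀ t ∈ Icc a b, s ≤ t → ‖f t - f s‖ ≤ K * |t - s| := by
    intro s hs t ht hst
    rw [hE s hs t ht hst]
    refine intervalIntegral.norm_integral_le_of_norm_le_const fun x hx => hb x ?_
    rw [uIoc_of_le hst] at hx
    exact ⟨hs.1.trans hx.1.le, hx.2.trans ht.2⟩
  intro s hs t ht
  rcases le_total s t with hst | hst
  · exact key s hs t ht hst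
  · rw [norm_sub_rev, abs_sub_comm]
    exact key t ht s hs hst

/-- A compact interval in `J` which is a neighbourhood of `t` in `J`. -/
theorem exists_nbhd {J : Set ℝ} {t : ℝ} (ht : t ∈ J) :
    ∃ a ∈ J, ∃ b ∈ J, t ∈ Icc a b ∧ ∃ δ > 0, ∀ s ∈ J, |s - t| < δ → s ∈ Icc a b := by
  obtain ⟨a, haJ, hat, δ₁, hδ₁, h₁⟩ : ∃ a ∈ J, a ≤ t ∧ ∃ δ > 0, ∀ s ∈ J, |s - t| < δ → a ≤ s := by
    by_cases h : ∃ a ∈ J, a < t
    · obtain ⟨a, haJ, hat⟩ := h
      refine ⟨a, haJ, hat.le, t - a, by linarith, fun s _ hs => ?_⟩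
      rw [abs_lt] at hs
      linarith [hs.1]
    · refine ⟨t, ht, le_rfl, 1, one_pos, fun s hs _ => ?_⟩
      by_contra hcon
      exact h ⟨s, hs, not_le.1 hcon⟩
  obtain ⟨b, hbJ, htb, δ₂, hδ₂, h₂⟩ : ∃ b ∈ J, t ≤ b ∧ ∃ δ > 0, ∀ s ∈ J, |s - t| < δ → s ≤ b := by
    by_cases h : ∃ b ∈ J, t < b
    · obtain ⟨b, hbJ, htb⟩ := h
      refine ⟨b, hbJ, htb.le, b - t, by linarith, fun s _ hs => ?_⟩
      rw [abs_lt] at hs
      linarith [hs.2]
    · refine ⟨t, ht, le_rfl, 1, one_pos, fun s hs _ => ?_⟩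
      by_contra hcon
      exact h ⟨s, hs, not_le.1 hcon⟩
  refine ⟨a, haJ, b, hbJ, ⟨hat, htb⟩, min δ₁ δ₂, lt_min hδ₁ hδ₂, fun s hs hst => ?_⟩
  exact ⟨h₁ s hs (hst.trans_le (min_le_left _ _)), h₂ s hs (hst.trans_le (min_le_right _ _))⟩

/-- Diagonal subsequence. -/
theorem diag {ι : Type} [Countable ι] {J : Set ℝ} (Y : ℕ → ℝ → ι → ℂ)
    (R : ℝ → ℝ) (K : ℝ → ℝ → ι → ℝ)
    (hR : ∀ t ∈ J, ∀ᶠ n in atTop, ∀ i, ‖Y n t i‖ ≤ R t)
    (hK : ∀ a ∈ J, ∀ b ∈ J, ∀ᶠ n in atTop, ∀ i, ∀ s ∈ Icc a b, ∀ t ∈ Icc a b,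
      ‖Y n t i - Y n s i‖ ≤ K a b i * |t - s|) :
    ∃ (φ : ℕ → ℕ) (X : ℝ → ι → ℂ), StrictMono φ ∧
      (∀ t ∈ J, ∀ i, Tendsto (fun n => Y (φ n) t i) atTop (𝓝 (X t i))) ∧
      ∀ i, ContinuousOn (fun t => X t i) J := by
  classical
  obtain ⟨Q, hQJ, hQc, hQd⟩ :=
    (TopologicalSpace.IsSeparable.of_separableSpace J).exists_countable_dense_subset
  have : Countable ↥Q := hQc.to_subtype
  set x : ℕ → (↥Q × ι) → ℂ := fun n p => if ‖Y n p.1 p.2‖ ≤ R p.1 then Y n p.1 p.2 else 0 with hx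
  have hcpt : IsCompact (Set.pi univ fun p : ↥Q × ι => Metric.closedBall (0 : ℂ) |R p.1|) :=
    isCompact_univ_pi fun p => isCompact_closedBall _ _
  obtain ⟨z, -, φ, hφ, hz⟩ := hcpt.tendsto_subseq (x := x) (fun n p _ => by
    rw [mem_closedBall_zero_iff]
    simp only [hx]
    split_ifs with h
    · exact h.trans (le_abs_self _)
    · rw [norm_zero]
      exact abs_nonneg _)
  rw [tendsto_pi_nhds] at hz
  have hq : ∀ q ∈ Q, ∀ i, ∃ y : ℂ, Tendsto (fun n => Y (φ n) q i) atTop (𝓝 y) := by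
    intro q hq i
    refine ⟨z (⟨q, hq⟩, i), (hz (⟨q, hq⟩, i)).congr' ?_⟩
    filter_upwards [hφ.tendsto_atTop.eventually (hR q (hQJ hq))] with n hn
    simp only [Function.comp, hx]
    rw [if_pos (hn i)]
  have hlim : ∀ t i, ∃ y : ℂ, t ∈ J → Tendsto (fun n => Y (φ n) t i) atTop (𝓝 y) := by
    intro t i
    by_cases ht : t ∈ J
    swap
    · exact ⟨0, fun h => absurd h ht⟩
    have hcau : CauchySeq fun n => Y (φ n) t i := by
      rw [Metric.cauchySeq_iff]
      intro ε hε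
      obtain ⟨a, haJ, b, hbJ, htab, δ, hδ, hnb⟩ := exists_nbhd ht
      have hpos : 0 < ε / (3 * (|K a b i| + 1)) := by positivity
      obtain ⟨q, hqQ, hqt⟩ := Metric.mem_closure_iff.1 (hQd ht)
        (min δ (ε / (3 * (|K a b i| + 1)))) (lt_min hδ hpos)
      rw [Real.dist_eq, abs_sub_comm] at hqt
      have hqab : q ∈ Icc a b := hnb q (hQJ hqQ) (hqt.trans_le (min_le_left _ _))
      have hqt2 : |q - t| < ε / (3 * (|K a b i| + 1)) := hqt.trans_le (min_le_right _ _)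
      obtain ⟨N₁, hN₁⟩ := eventually_atTop.1 (hφ.tendsto_atTop.eventually (hK a haJ b hbJ))
      obtain ⟨y, hy⟩ := hq q hqQ i
      obtain ⟨N₂, hN₂⟩ := Metric.cauchySeq_iff.1 hy.cauchySeq (ε / 3) (by positivity)
      have hclose : ∀ n, N₁ ≤ n → ‖Y (φ n) t i - Y (φ n) q i‖ < ε / 3 := by
        intro n hn
        refine lt_of_le_of_lt (hN₁ n hn i q hqab t htab) ?_
        rw [abs_sub_comm t q]
        calc K a b i * |q - t| ≤ (|K a b i| + 1) * |q - t| := by
              refine mul_le_mul_of_nonneg_right ?_ (abs_nonneg _)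
              linarith [le_abs_self (K a b i)]
          _ < (|K a b i| + 1) * (ε / (3 * (|K a b i| + 1))) := by
              refine mul_lt_mul_of_pos_left hqt2 ?_
              positivity
          _ = ε / 3 := by
              have : |K a b i| + 1 ≠ 0 := by positivity
              field_simp
      refine ⟨max N₁ N₂, fun m hm n hn => ?_⟩
      have c1 := hclose m ((le_max_left _ _).trans hm)
      have c2 := hclose n ((le_max_left _ _).trans hn)
      have c3 := hN₂ m ((le_max_right _ _).trans hm) n ((le_max_right _ _).trans hn)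
      rw [dist_eq_norm] at c3 ⊢
      have e : Y (φ m) t i - Y (φ n) t i = (Y (φ m) t i - Y (φ m) q i)
          + (Y (φ m) q i - Y (φ n) q i) - (Y (φ n) t i - Y (φ n) q i) := by ring
      rw [e]
      refine lt_of_le_of_lt ((norm_sub_le _ _).trans (add_le_add_left (norm_add_le _ _) _)) ?_
      linarith
    obtain ⟨y, hy⟩ := cauchySeq_tendsto_of_complete hcau
    exact ⟨y, fun _ => hy⟩
  choose X hX using hlim
  refine ⟨φ, X, hφ, fun t ht i => hX t i ht, fun i t ht => ?_⟩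
  obtain ⟨a, haJ, b, hbJ, htab, δ, hδ, hnb⟩ := exists_nbhd ht
  have hl : ∀ s ∈ J, |s - t| < δ → ‖X s i - X t i‖ ≤ K a b i * |s - t| := by
    intro s hs hst
    refine le_of_tendsto ((hX s i hs).sub (hX t i ht)).norm ?_
    filter_upwards [hφ.tendsto_atTop.eventually (hK a haJ b hbJ)] with n hn
    exact hn i t htab s (hnb s hs hst)
  rw [Metric.continuousWithinAt_iff]
  intro ε hε
  refine ⟨min δ (ε / (|K a b i| + 1)), lt_min hδ (by positivity), fun s hs hst => ?_⟩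
  rw [Real.dist_eq] at hst
  rw [dist_eq_norm]
  refine lt_of_le_of_lt (hl s hs (hst.trans_le (min_le_left _ _))) ?_
  calc K a b i * |s - t| ≤ (|K a b i| + 1) * |s - t| := by
        refine mul_le_mul_of_nonneg_right ?_ (abs_nonneg _)
        linarith [le_abs_self (K a b i)]
    _ < (|K a b i| + 1) * (ε / (|K a b i| + 1)) := by
        refine mul_lt_mul_of_pos_left (hst.trans_le (min_le_right _ _)) ?_
        positivity
    _ = ε := by
        have : |K a b i| + 1 ≠ 0 := by positivity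
        field_simp

/-- The limit of the integral equations. -/
theorem lim_eq {a b K : ℝ} (hab : a ≤ b) {F : ℕ → ℝ → ℂ} {f : ℝ → ℂ} {U V : ℕ → ℂ} {u v : ℂ}
    (hc : ∀ᶠ n in atTop, ContinuousOn (F n) (Icc a b))
    (hb : ∀ᶠ n in atTop, ∀ x ∈ Icc a b, ‖F n x‖ ≤ K)
    (hl : ∀ x ∈ Icc a b, Tendsto (fun n => F n x) atTop (𝓝 (f x)))
    (hU : Tendsto U atTop (𝓝 u)) (hV : Tendsto V atTop (𝓝 v))
    (he : ∀ᶠ n in atTop, U n - V n = ∫ s in a..b, F n s) : u - v = ∫ s in a..b, f s := by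
  have h1 : Tendsto (fun n => ∫ s in a..b, F n s) atTop (𝓝 (∫ s in a..b, f s)) := by
    refine intervalIntegral.tendsto_integral_filter_of_dominated_convergence (fun _ => K) ?_ ?_
      intervalIntegrable_const ?_
    · filter_upwards [hc] with n hn
      rw [uIoc_of_le hab]
      exact (hn.mono Ioc_subset_Icc_self).aestronglyMeasurable measurableSet_Ioc
    · filter_upwards [hb] with n hn
      refine Filter.Eventually.of_forall fun x hx => ?_
      rw [uIoc_of_le hab] at hx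
      exact hn x (Ioc_subset_Icc_self hx)
    · refine Filter.Eventually.of_forall fun x hx => ?_
      rw [uIoc_of_le hab] at hx
      exact hl x (Ioc_subset_Icc_self hx)
  refine tendsto_nhds_unique (hU.sub hV) (h1.congr' ?_)
  filter_upwards [he] with n hn
  exact hn.symm

end Cpt

open Cpt in
theorem t_Cpt : StCpt := by
  intro ν g J Jn Wn Θn C hJ hJn hsol hev
  classical
  obtain ⟨φ, X, hφ, hX, hXc⟩ := diag (J := J) (fun n t => Sum.elim (Wn n t) (Θn n t))
    (fun t => Real.sqrt (C t t))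
    (fun a b => Sum.elim (fun k => cW ν g (C a b) (C a b) k)
      (fun k => ln k * (Real.sqrt (C a b) * Real.sqrt (C a b)))) (by
    intro t ht
    filter_upwards [hev t ht t ht] with n hn i
    have h1 := hn.2 t ⟨le_rfl, le_rfl⟩
    rcases i with k | k
    · exact h1.1.norm_le k
    · exact h1.2.norm_le k) (by
    intro a ha b hb
    filter_upwards [hev a ha b hb] with n hn i
    obtain ⟨hsub, hC⟩ := hn
    rcases i with k | k
    · refine lip_of_eq (f := fun t => Wn n t k) (f' := fun s => rI ν g (Wn n s) (Θn n s) k)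
        (fun s hs t ht hst => (hsol n).eqW k s (hsub hs) t (hsub ht) hst) fun x hx => ?_
      exact rI_le (hC x hx).1 (hC x hx).2 k
    · refine lip_of_eq (f := fun t => Θn n t k) (f' := fun s => -(nlI (Wn n s) (Θn n s) k))
        (fun s hs t ht hst => (hsol n).eqΘ k s (hsub hs) t (hsub ht) hst) fun x hx => ?_
      rw [norm_neg]
      exact nlI_le (hC x hx).1 (hC x hx).2 k)
  set W : ℝ → K2 → ℂ := fun t k => X t (Sum.inl k) with hWdef
  set Θ : ℝ → K2 → ℂ := fun t k => X t (Sum.inr k) with hΘdef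
  have hW : ∀ t ∈ J, ∀ k, Tendsto (fun n => Wn (φ n) t k) atTop (𝓝 (W t k)) :=
    fun t ht k => hX t ht (Sum.inl k)
  have hΘ : ∀ t ∈ J, ∀ k, Tendsto (fun n => Θn (φ n) t k) atTop (𝓝 (Θ t k)) :=
    fun t ht k => hX t ht (Sum.inr k)
  have evφ : ∀ a ∈ J, ∀ b ∈ J, ∀ᶠ n in atTop, Icc a b ⊆ Jn (φ n) ∧
      ∀ t ∈ Icc a b, LB (C a b) (Wn (φ n) t) ∧ LB (C a b) (Θn (φ n) t) :=
    fun a ha b hb => hφ.tendsto_atTop.eventually (hev a ha b hb)
  have evt : ∀ t ∈ J, ∀ᶠ n in atTop, t ∈ Jn (φ n) := by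
    intro t ht
    filter_upwards [evφ t ht t ht] with n hn
    exact hn.1 ⟨le_rfl, le_rfl⟩
  have hbd : ∀ a ∈ J, ∀ b ∈ J, ∀ t ∈ Icc a b, LB (C a b) (W t) ∧ LB (C a b) (Θ t) := by
    intro a ha b hb t ht
    have htJ : t ∈ J := hJ.out ha hb ht
    refine ⟨fun S => ?_, fun S => ?_⟩
    · have h1 : Tendsto (fun n : ℕ => ∑ k ∈ S, ‖Wn (φ n) t k‖ ^ 2) atTop
          (𝓝 (∑ k ∈ S, ‖W t k‖ ^ 2)) := tendsto_finsetSum _ fun k _ => ((hW t htJ k).norm).pow 2
      refine le_of_tendsto h1 ?_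
      filter_upwards [evφ a ha b hb] with n hn
      exact (hn.2 t ht).1 S
    · have h1 : Tendsto (fun n : ℕ => ∑ k ∈ S, ‖Θn (φ n) t k‖ ^ 2) atTop
          (𝓝 (∑ k ∈ S, ‖Θ t k‖ ^ 2)) := tendsto_finsetSum _ fun k _ => ((hΘ t htJ k).norm).pow 2
      refine le_of_tendsto h1 ?_
      filter_upwards [evφ a ha b hb] with n hn
      exact (hn.2 t ht).2 S
  refine ⟨φ, W, Θ, hφ, ?_, fun t ht k => ⟨hW t ht k, hΘ t ht k⟩⟩
  refine ⟨fun t ht => ?_, fun t ht => ?_, fun t ht k => ?_, fun t ht k => ?_,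
    fun a ha b hb => ⟨C a b, hbd a ha b hb⟩, fun k => hXc (Sum.inl k), fun k => hXc (Sum.inr k),
    fun k a ha b hb hab => ?_, fun k a ha b hb hab => ?_⟩
  · refine tendsto_nhds_unique (hW t ht 0) (tendsto_const_nhds.congr' ?_)
    filter_upwards [evt t ht] with n hn
    exact ((hsol (φ n)).zW t hn).symm
  · refine tendsto_nhds_unique (hΘ t ht 0) (tendsto_const_nhds.congr' ?_)
    filter_upwards [evt t ht] with n hn
    exact ((hsol (φ n)).zΘ t hn).symm
  · have h1 : Tendsto (fun n : ℕ => conj (Wn (φ n) t k)) atTop (𝓝 (conj (W t k))) :=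
      (Complex.continuous_conj.tendsto _).comp (hW t ht k)
    refine tendsto_nhds_unique h1 ((hW t ht (-k)).congr' ?_)
    filter_upwards [evt t ht] with n hn
    exact ((hsol (φ n)).cjW t hn k).symm
  · have h1 : Tendsto (fun n : ℕ => conj (Θn (φ n) t k)) atTop (𝓝 (conj (Θ t k))) :=
      (Complex.continuous_conj.tendsto _).comp (hΘ t ht k)
    refine tendsto_nhds_unique h1 ((hΘ t ht (-k)).congr' ?_)
    filter_upwards [evt t ht] with n hn
    exact ((hsol (φ n)).cjΘ t hn k).symm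
  · refine lim_eq hab (F := fun n s => rI ν g (Wn (φ n) s) (Θn (φ n) s) k)
      (K := cW ν g (C a b) (C a b) k) ?_ ?_ (fun x hx => ?_) (hW b hb k) (hW a ha k) ?_
    · filter_upwards [evφ a ha b hb] with n hn
      exact cont_rI (hsol (φ n)) hn.1 hn.2 k
    · filter_upwards [evφ a ha b hb] with n hn x hx
      exact rI_le (hn.2 x hx).1 (hn.2 x hx).2 k
    · have hxJ : x ∈ J := hJ.out ha hb hx
      refine tendsto_rI (C := C a b) ?_ (hbd a ha b hb x hx).1 (hW x hxJ) (hΘ x hxJ) k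
      filter_upwards [evφ a ha b hb] with n hn
      exact (hn.2 x hx).1
    · filter_upwards [evt a ha, evt b hb] with n hna hnb
      exact (hsol (φ n)).eqW k a hna b hnb hab
  · refine lim_eq hab (F := fun n s => -(nlI (Wn (φ n) s) (Θn (φ n) s) k))
      (K := ln k * (Real.sqrt (C a b) * Real.sqrt (C a b))) ?_ ?_ (fun x hx => ?_)
      (hΘ b hb k) (hΘ a ha k) ?_
    · filter_upwards [evφ a ha b hb] with n hn
      exact (cont_nlI (hsol (φ n)) hn.1 hn.2 k).neg
    · filter_upwards [evφ a ha b hb] with n hn x hx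
      rw [norm_neg]
      exact nlI_le (hn.2 x hx).1 (hn.2 x hx).2 k
    · have hxJ : x ∈ J := hJ.out ha hb hx
      refine (tendsto_nlI (C := C a b) (D := C a b) ?_ ?_ (hbd a ha b hb x hx).1
        (hbd a ha b hb x hx).2 (hW x hxJ) (hΘ x hxJ) k).neg
      · filter_upwards [evφ a ha b hb] with n hn
        exact (hn.2 x hx).1
      · filter_upwards [evφ a ha b hb] with n hn
        exact (hn.2 x hx).2
    · filter_upwards [evt a ha, evt b hb] with n hna hnb
      exact (hsol (φ n)).eqΘ k a hna b hnb hab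

end Pool.Agent.R211.PK
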