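import Pool.Agent.R211.PK.Stm

/-! PK-DER: the squared `H⁻¹` norm of the difference is the integral of its derivative (helper127). -/

set_option autoImplicit false

open Set Filter Topology MeasureTheory
open scoped ComplexConjugate ENNReal

namespace Pool.Agent.R211.PK

open Pool.Agent.R211.BQ

namespace DerAux

lemma cont_nlI {J : Set ℝ} {C : ℝ} {W Θ : ℝ → K2 → ℂ} (hW : ∀ t ∈ J, LB C (W t))
    (hΘ : ∀ t ∈ J, LB C (Θ t)) (cW : ∀ k, ContinuousOn (fun t => W t k) J)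
    (cΘ : ∀ k, ContinuousOn (fun t => Θ t k) J) (k : K2) :
    ContinuousOn (fun t => nlI (W t) (Θ t) k) J := by
  have h : TendstoUniformlyOn (fun (M : ℕ) t => nlB (SM k M) (W t) (Θ t) k)
      (fun t => nlI (W t) (Θ t) k) atTop J := by
    rw [Metric.tendstoUniformlyOn_iff]
    intro ε hε
    have h1 : Tendsto (fun M : ℕ => ln k / (M : ℝ) * (Real.sqrt C * Real.sqrt C)) atTop
        (𝓝 (0 * (Real.sqrt C * Real.sqrt C))) :=
      (tendsto_const_div_atTop_nhds_zero_nat (ln k)).mul_const _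
    rw [zero_mul] at h1
    filter_upwards [eventually_gt_atTop 0, h1.eventually_lt_const hε] with M hM0 hM t ht
    rw [dist_eq_norm]
    exact (nlI_sub (hW t ht) (hΘ t ht) hM0).trans_lt hM
  refine h.continuousOn (Eventually.frequently (Eventually.of_forall fun M => ?_))
  unfold nlB
  exact continuousOn_finsetSum _ fun l _ => (continuousOn_const.mul (cW (k - l))).mul (cΘ l)

lemma cont_rI {J : Set ℝ} {C : ℝ} {W Θ : ℝ → K2 → ℂ} (ν g : ℝ) (hW : ∀ t ∈ J, LB C (W t))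
    (cW : ∀ k, ContinuousOn (fun t => W t k) J)
    (cΘ : ∀ k, ContinuousOn (fun t => Θ t k) J) (k : K2) :
    ContinuousOn (fun t => rI ν g (W t) (Θ t) k) J := by
  unfold rI
  exact (((cont_nlI hW hW cW cW k).neg).sub (continuousOn_const.mul (cW k))).add
    (continuousOn_const.mul (cΘ k))

/-- The derivative from the integral equation. -/
lemma der_of_int {T : ℝ} (_hT : 0 < T) {A a : ℝ → ℂ} (ca : ContinuousOn a (Icc 0 T))
    (h : ∀ t ∈ Icc (0 : ℝ) T, A t - A 0 = ∫ s in (0 : ℝ)..t, a s) (t : ℝ) (ht : t ∈ Ioo 0 T) :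
    HasDerivAt A (a t) t := by
  have hsub : Icc (0 : ℝ) t ⊆ Icc 0 T := Icc_subset_Icc_right ht.2.le
  have h1 : IntervalIntegrable a volume 0 t := by
    refine ContinuousOn.intervalIntegrable ?_
    rw [uIcc_of_le ht.1.le]
    exact ca.mono hsub
  have h2 : StronglyMeasurableAtFilter a (𝓝 t) volume :=
    ContinuousOn.stronglyMeasurableAtFilter isOpen_Ioo (ca.mono Ioo_subset_Icc_self) t ht
  have h3 : ContinuousAt a t :=
    (ca.mono Ioo_subset_Icc_self).continuousAt (isOpen_Ioo.mem_nhds ht)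
  have h4 := intervalIntegral.integral_hasDerivAt_right h1 h2 h3
  have h5 : HasDerivAt (fun u => A 0 + ∫ x in (0 : ℝ)..u, a x) (a t) t := h4.const_add _
  refine h5.congr_of_eventuallyEq ?_
  filter_upwards [isOpen_Ioo.mem_nhds ht] with u hu
  have := h u (Ioo_subset_Icc_self hu)
  rw [← this]
  ring

end DerAux

open DerAux

/-- PK-DER -/
theorem t_Der : StAbs → StDer := by
  intro hAbs ν g T W Θ W' Θ' hT h1 h2 hW0 hΘ0
  have m0 : (0 : ℝ) ∈ Icc (0 : ℝ) T := ⟨le_rfl, hT.le⟩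
  have mT : T ∈ Icc (0 : ℝ) T := ⟨hT.le, le_rfl⟩
  obtain ⟨C1, hC1⟩ := h1.bd 0 m0 T mT
  obtain ⟨C2, hC2⟩ := h2.bd 0 m0 T mT
  set M : ℝ := max C1 C2 with hM
  have bW : ∀ t ∈ Icc (0 : ℝ) T, LB M (W t) := fun t ht S =>
    ((hC1 t ht).1 S).trans (le_max_left _ _)
  have bΘ : ∀ t ∈ Icc (0 : ℝ) T, LB M (Θ t) := fun t ht S =>
    ((hC1 t ht).2 S).trans (le_max_left _ _)
  have bW' : ∀ t ∈ Icc (0 : ℝ) T, LB M (W' t) := fun t ht S =>
    ((hC2 t ht).1 S).trans (le_max_right _ _)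
  have bΘ' : ∀ t ∈ Icc (0 : ℝ) T, LB M (Θ' t) := fun t ht S =>
    ((hC2 t ht).2 S).trans (le_max_right _ _)
  obtain ⟨C, hC⟩ := hAbs ν g M
  set d : K2 → ℝ → ℝ := fun k t => dt ν g (W t) (Θ t) (W' t) (Θ' t) k with hd
  have hb : ∀ t ∈ Icc (0 : ℝ) T, ∀ S : Finset K2, ∑ k ∈ S, |d k t| ≤ C := by
    intro t ht S
    exact hC (W t) (Θ t) (W' t) (Θ' t)
      ⟨h1.zW t ht, h1.zΘ t ht, h1.cjW t ht, h1.cjΘ t ht, bW t ht, bΘ t ht⟩
      ⟨h2.zW t ht, h2.zΘ t ht, h2.cjW t ht, h2.cjΘ t ht, bW' t ht, bΘ' t ht⟩ S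
  have hsumm : ∀ t ∈ Icc (0 : ℝ) T, Summable fun k => |d k t| := fun t ht =>
    summable_of_sum_le (fun _ => abs_nonneg _) (hb t ht)
  have hsumm' : ∀ t ∈ Icc (0 : ℝ) T, Summable fun k => d k t := fun t ht =>
    (hsumm t ht).of_abs
  have htsum : ∀ t ∈ Icc (0 : ℝ) T, ∑' k, |d k t| ≤ C := fun t ht =>
    (hsumm t ht).tsum_le_of_sum_le (hb t ht)
  -- continuity
  have c1 : ∀ k, ContinuousOn (fun t => rI ν g (W t) (Θ t) k - rI ν g (W' t) (Θ' t) k)
      (Icc 0 T) := fun k =>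
    (cont_rI ν g bW h1.coW h1.coΘ k).sub (cont_rI ν g bW' h2.coW h2.coΘ k)
  have c2 : ∀ k, ContinuousOn (fun t => nlI (W' t) (Θ' t) k - nlI (W t) (Θ t) k)
      (Icc 0 T) := fun k =>
    (cont_nlI bW' bΘ' h2.coW h2.coΘ k).sub (cont_nlI bW bΘ h1.coW h1.coΘ k)
  have c3 : ∀ k, ContinuousOn (fun t => W t k - W' t k) (Icc 0 T) := fun k =>
    (h1.coW k).sub (h2.coW k)
  have c4 : ∀ k, ContinuousOn (fun t => Θ t k - Θ' t k) (Icc 0 T) := fun k =>
    (h1.coΘ k).sub (h2.coΘ k)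
  have cd : ∀ k, ContinuousOn (d k) (Icc 0 T) := by
    intro k
    simp only [hd, dt]
    refine ContinuousOn.div_const ?_ _
    refine continuousOn_const.mul ?_
    refine Complex.continuous_re.comp_continuousOn ?_
    exact ((Complex.continuous_conj.comp_continuousOn (c3 k)).mul (c1 k)).add
      ((Complex.continuous_conj.comp_continuousOn (c4 k)).mul (c2 k))
  -- one term
  have hterm : ∀ k, ∀ t ∈ Icc (0 : ℝ) T,
      (‖W t k - W' t k‖ ^ 2 + ‖Θ t k - Θ' t k‖ ^ 2) / n2 k = ∫ s in (0 : ℝ)..t, d k s := by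
    intro k t ht
    have hsub : Icc (0 : ℝ) t ⊆ Icc 0 T := Icc_subset_Icc_right ht.2
    have ii : ∀ {f : ℝ → ℂ}, ContinuousOn f (Icc 0 T) → ∀ t ∈ Icc (0 : ℝ) T,
        IntervalIntegrable f volume 0 t := by
      intro f hf t ht
      refine ContinuousOn.intervalIntegrable ?_
      rw [uIcc_of_le ht.1]
      exact hf.mono (Icc_subset_Icc_right ht.2)
    have e1 : ∀ t ∈ Icc (0 : ℝ) T, (W t k - W' t k) - (W 0 k - W' 0 k)
        = ∫ s in (0 : ℝ)..t, (rI ν g (W s) (Θ s) k - rI ν g (W' s) (Θ' s) k) := by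
      intro t ht
      rw [intervalIntegral.integral_sub (ii (cont_rI ν g bW h1.coW h1.coΘ k) t ht)
        (ii (cont_rI ν g bW' h2.coW h2.coΘ k) t ht), ← h1.eqW k 0 m0 t ht ht.1,
        ← h2.eqW k 0 m0 t ht ht.1]
      ring
    have e2 : ∀ t ∈ Icc (0 : ℝ) T, (Θ t k - Θ' t k) - (Θ 0 k - Θ' 0 k)
        = ∫ s in (0 : ℝ)..t, (nlI (W' s) (Θ' s) k - nlI (W s) (Θ s) k) := by
      intro t ht
      have q1 := h1.eqΘ k 0 m0 t ht ht.1
      have q2 := h2.eqΘ k 0 m0 t ht ht.1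
      rw [intervalIntegral.integral_neg] at q1 q2
      rw [intervalIntegral.integral_sub (ii (cont_nlI bW' bΘ' h2.coW h2.coΘ k) t ht)
        (ii (cont_nlI bW bΘ h1.coW h1.coΘ k) t ht)]
      linear_combination q1 - q2
    have d1 : ∀ s ∈ Ioo (0 : ℝ) t, HasDerivAt
        (fun s => (‖W s k - W' s k‖ ^ 2 + ‖Θ s k - Θ' s k‖ ^ 2) / n2 k) (d k s) s := by
      intro s hs
      have hs' : s ∈ Ioo (0 : ℝ) T := ⟨hs.1, hs.2.trans_le ht.2⟩
      have r1 := (der_of_int hT (A := fun s => W s k - W' s k) (c1 k) e1 s hs').norm_sq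
      have r2 := (der_of_int hT (A := fun s => Θ s k - Θ' s k) (c2 k) e2 s hs').norm_sq
      have r3 := (r1.add r2).div_const (n2 k : ℝ)
      refine r3.congr_deriv ?_
      simp only [hd, dt, Complex.inner, Complex.add_re]
      ring_nf
    have d2 : ContinuousOn
        (fun s => (‖W s k - W' s k‖ ^ 2 + ‖Θ s k - Θ' s k‖ ^ 2) / (n2 k : ℝ)) (Icc 0 t) := by
      refine ContinuousOn.div_const ?_ _
      exact ((((c3 k).mono hsub).norm).pow 2).add ((((c4 k).mono hsub).norm).pow 2)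
    have d3 : IntervalIntegrable (d k) volume 0 t := by
      refine ContinuousOn.intervalIntegrable ?_
      rw [uIcc_of_le ht.1]
      exact (cd k).mono hsub
    rw [intervalIntegral.integral_eq_sub_of_hasDerivAt_of_le ht.1 d2 d1 d3]
    rw [hW0, hΘ0]
    simp
  -- measurability and integrability
  have hmeas : ∀ k, ∀ t ∈ Icc (0 : ℝ) T,
      AEStronglyMeasurable (d k) (volume.restrict (uIoc 0 t)) := by
    intro k t ht
    rw [uIoc_of_le ht.1]
    exact ((cd k).mono (Ioc_subset_Icc_self.trans (Icc_subset_Icc_right ht.2))).aestronglyMeasurable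
      measurableSet_Ioc
  have hmemI : ∀ t ∈ Icc (0 : ℝ) T, ∀ s ∈ uIoc 0 t, s ∈ Icc (0 : ℝ) T := by
    intro t ht s hs
    rw [uIoc_of_le ht.1] at hs
    exact ⟨hs.1.le, hs.2.trans ht.2⟩
  have hii : ∀ t ∈ Icc (0 : ℝ) T, ∀ (F : K2 → ℝ → ℝ),
      (∀ k, AEStronglyMeasurable (F k) (volume.restrict (uIoc 0 t))) →
      (∀ s ∈ Icc (0 : ℝ) T, Summable fun k => F k s) →
      (∀ s ∈ Icc (0 : ℝ) T, ‖∑' k, F k s‖ ≤ C) →
      IntervalIntegrable (fun s => ∑' k, F k s) volume 0 t := by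
    intro t ht F hF1 hF2 hF3
    rw [intervalIntegrable_iff]
    have hms : AEStronglyMeasurable (fun s => ∑' k, F k s) (volume.restrict (uIoc 0 t)) := by
      refine aestronglyMeasurable_of_tendsto_ae (atTop : Filter (Finset K2))
        (f := fun S s => ∑ k ∈ S, F k s) (fun S => ?_) ?_
      · exact Finset.aestronglyMeasurable_fun_sum S fun k _ => hF1 k
      · rw [ae_restrict_iff' measurableSet_uIoc]
        refine Eventually.of_forall fun s hs => ?_
        exact (hF2 s (hmemI t ht s hs)).hasSum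
    have hfin : IsFiniteMeasure (volume.restrict (uIoc (0 : ℝ) t)) := by
      refine ⟨?_⟩
      rw [Measure.restrict_apply_univ, uIoc_of_le ht.1, Real.volume_Ioc]
      exact ENNReal.ofReal_lt_top
    refine Integrable.of_bound hms C ?_
    rw [ae_restrict_iff' measurableSet_uIoc]
    exact Eventually.of_forall fun s hs => hF3 s (hmemI t ht s hs)
  have hn1 : ∀ s ∈ Icc (0 : ℝ) T, ‖∑' k, |d k s|‖ ≤ C := by
    intro s hs
    rw [Real.norm_of_nonneg (tsum_nonneg fun _ => abs_nonneg _)]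
    exact htsum s hs
  have hn2 : ∀ s ∈ Icc (0 : ℝ) T, ‖∑' k, d k s‖ ≤ C := by
    intro s hs
    refine (norm_tsum_le_tsum_norm ?_).trans ?_
    · exact hsumm s hs
    · exact htsum s hs
  refine ⟨hii T mT d (fun k => hmeas k T mT) hsumm' hn2, ?_⟩
  intro t ht
  have key := intervalIntegral.hasSum_integral_of_dominated_convergence
    (μ := volume) (a := 0) (b := t) (F := d) (f := fun s => ∑' k, d k s)
    (fun k s => |d k s|) (fun k => hmeas k t ht)
    (fun k => Eventually.of_forall fun s _ => le_rfl)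
    (Eventually.of_forall fun s hs => hsumm s (hmemI t ht s hs))
    (hii t ht (fun k s => |d k s|) (fun k => (hmeas k t ht).norm) hsumm hn1)
    (Eventually.of_forall fun s hs => (hsumm' s (hmemI t ht s hs)).hasSum)
  have e : en2 (W t) (Θ t) (W' t) (Θ' t) = ∑' k, ∫ s in (0 : ℝ)..t, d k s := by
    unfold en2
    exact tsum_congr fun k => hterm k t ht
  rw [e]
  exact key.tsum_eq

end Pool.Agent.R211.PK
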