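import Pool.Agent.R211.PK.Stm

/-!
Project PK (MP_771030_an), piece EX, by helper609: existence of solutions with initial data.
-/

set_option autoImplicit false

open Set Filter Topology MeasureTheory
open scoped ComplexConjugate ENNReal

namespace Pool.Agent.R211.PK

open Pool.Agent.R211.BQ

namespace ExAux

/-- clamping to the interval where the Galerkin solution is defined -/
noncomputable def cl (n : ℕ) (t : ℝ) : ℝ := max 0 (min t n)

lemma cl_mem (n : ℕ) (t : ℝ) : cl n t ∈ Icc (0 : ℝ) n :=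
  ⟨le_max_left _ _, max_le (Nat.cast_nonneg n) (min_le_right _ _)⟩

lemma cl_eq {n : ℕ} {t : ℝ} (h0 : 0 ≤ t) (h1 : t ≤ n) : cl n t = t := by
  unfold cl
  rw [min_eq_left h1, max_eq_right h0]

lemma cl_lip (n : ℕ) (s t : ℝ) : |cl n t - cl n s| ≤ |t - s| := by
  unfold cl
  refine (abs_max_sub_max_le_max _ _ _ _).trans ?_
  rw [sub_self, abs_zero]
  refine max_le (abs_nonneg _) ((abs_min_sub_min_le_max _ _ _ _).trans ?_)
  rw [sub_self, abs_zero]
  exact max_le le_rfl (abs_nonneg _)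

lemma conv_all {f : ℕ → ℝ → ℂ} {L : ℝ} (hL : ∀ n s t, ‖f n t - f n s‖ ≤ L * |t - s|)
    (hq : ∀ q : ℚ, ∃ z, Tendsto (fun n => f n (q : ℝ)) atTop (𝓝 z)) (t : ℝ) :
    ∃ z, Tendsto (fun n => f n t) atTop (𝓝 z) := by
  have hL0 : 0 ≤ L := by
    have := (norm_nonneg _).trans (hL 0 0 1)
    simpa using this
  refine cauchySeq_tendsto_of_complete (Metric.cauchySeq_iff.2 fun ε hε => ?_)
  have hpos : 0 < ε / (3 * (L + 1)) := by positivity
  obtain ⟨q, hq1, hq2⟩ := exists_rat_btwn (show t < t + ε / (3 * (L + 1)) by linarith)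
  obtain ⟨z, hz⟩ := hq q
  obtain ⟨N, hN⟩ := Metric.cauchySeq_iff.1 hz.cauchySeq (ε / 3) (by positivity)
  refine ⟨N, fun m hm n hn => ?_⟩
  have h1 := hL m q t
  have h2 := hL n t q
  have h3 := hN m hm n hn
  rw [dist_eq_norm] at h3 ⊢
  have h4 : |t - q| ≤ ε / (3 * (L + 1)) := by
    rw [abs_of_neg (by linarith)]
    linarith
  have h5 : L * |t - q| ≤ ε / 3 := by
    calc L * |t - q| ≤ (L + 1) * (ε / (3 * (L + 1))) :=
          mul_le_mul (by linarith) h4 (abs_nonneg _) (by linarith)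
      _ = ε / 3 := by field_simp
  have e : f m t - f n t = (f m t - f m q) + (f m q - f n q) + (f n q - f n t) := by ring
  rw [e]
  rw [abs_sub_comm] at h2
  have h6 := norm_add_le (f m t - f m q + (f m q - f n q)) (f n q - f n t)
  have h7 := norm_add_le (f m t - f m q) (f m q - f n q)
  linarith

lemma mem_ev {φ : ℕ → ℕ} (hφ : StrictMono φ) {k : K2} (hk : k ≠ 0) :
    ∀ᶠ n in atTop, k ∈ Bx (φ n) := by
  filter_upwards [eventually_ge_atTop (k.1.natAbs + k.2.natAbs)] with n hn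
  exact mem_Bx hk (hn.trans (hφ.id_le n))

lemma fatou {φ : ℕ → ℕ} (hφ : StrictMono φ) {wn : ℕ → ℝ → K2 → ℂ} {W : ℝ → K2 → ℂ}
    (hcn : ∀ n k, Continuous fun t => wn n t k) (hcW : ∀ k, Continuous fun t => W t k) {C' : ℝ}
    (hb : ∀ n t, LB C' (wn n t))
    (hlim : ∀ t k, Tendsto (fun n => wn (φ n) t k) atTop (𝓝 (W t k))) (hW0 : ∀ t, W t 0 = 0)
    (c : K2 → ℝ) (hc : ∀ k, 0 ≤ c k) {T A : ℝ} (hT : 0 ≤ T)
    (hA : ∀ᶠ n in atTop, ∫ s in (0 : ℝ)..T, ∑ k ∈ Bx (φ n), c k * ‖wn (φ n) s k‖ ^ 2 ≤ A) :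
    ∫⁻ t in Icc 0 T, ∑' k, ENNReal.ofReal (c k * ‖W t k‖ ^ 2) ≤ ENNReal.ofReal A := by
  classical
  have hcS : ∀ S : Finset K2, Continuous fun s => ∑ k ∈ S, c k * ‖W s k‖ ^ 2 := fun S =>
    continuous_finsetSum _ fun k _ => continuous_const.mul ((hcW k).norm.pow 2)
  have hcSn : ∀ (n : ℕ) (S : Finset K2), Continuous fun s => ∑ k ∈ S, c k * ‖wn n s k‖ ^ 2 :=
    fun n S => continuous_finsetSum _ fun k _ => continuous_const.mul ((hcn n k).norm.pow 2)
  have hfin : ∀ S : Finset K2, ∫ s in (0 : ℝ)..T, ∑ k ∈ S, c k * ‖W s k‖ ^ 2 ≤ A := by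
    intro S
    have h1 : Tendsto (fun n => ∫ s in (0 : ℝ)..T, ∑ k ∈ S.erase 0, c k * ‖wn (φ n) s k‖ ^ 2)
        atTop (𝓝 (∫ s in (0 : ℝ)..T, ∑ k ∈ S.erase 0, c k * ‖W s k‖ ^ 2)) := by
      refine intervalIntegral.tendsto_integral_filter_of_dominated_convergence
        (fun _ => ∑ k ∈ S.erase 0, c k * C') ?_ ?_ ?_ ?_
      · exact Eventually.of_forall fun n => (hcSn _ _).aestronglyMeasurable
      · refine Eventually.of_forall fun n => Eventually.of_forall fun s _ => ?_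
        rw [Real.norm_of_nonneg (Finset.sum_nonneg fun k _ => mul_nonneg (hc k) (sq_nonneg _))]
        refine Finset.sum_le_sum fun k _ => mul_le_mul_of_nonneg_left ?_ (hc k)
        have := hb (φ n) s {k}
        simpa using this
      · exact intervalIntegrable_const
      · exact Eventually.of_forall fun s _ =>
          tendsto_finsetSum _ fun k _ => (((hlim s k).norm).pow 2).const_mul _
    have h2 : ∫ s in (0 : ℝ)..T, ∑ k ∈ S, c k * ‖W s k‖ ^ 2 =
        ∫ s in (0 : ℝ)..T, ∑ k ∈ S.erase 0, c k * ‖W s k‖ ^ 2 := by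
      refine intervalIntegral.integral_congr fun s _ => ?_
      show ∑ k ∈ S, c k * ‖W s k‖ ^ 2 = ∑ k ∈ S.erase 0, c k * ‖W s k‖ ^ 2
      refine (Finset.sum_erase S ?_).symm
      rw [hW0]
      simp
    rw [h2]
    refine le_of_tendsto h1 ?_
    have hsub : ∀ᶠ n in atTop, ∀ k ∈ S.erase 0, k ∈ Bx (φ n) :=
      (Filter.eventually_all_finset _).2 fun k hk => mem_ev hφ (Finset.ne_of_mem_erase hk)
    filter_upwards [hA, hsub] with n hn hn2
    refine le_trans ?_ hn
    exact intervalIntegral.integral_mono_on hT ((hcSn _ _).intervalIntegrable _ _)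
      ((hcSn _ _).intervalIntegrable _ _) fun s _ =>
      Finset.sum_le_sum_of_subset_of_nonneg hn2 fun k _ _ => mul_nonneg (hc k) (sq_nonneg _)
  have hm : ∀ k, Measurable fun t => ENNReal.ofReal (c k * ‖W t k‖ ^ 2) := fun k =>
    (continuous_const.mul ((hcW k).norm.pow 2)).measurable.ennreal_ofReal
  rw [lintegral_tsum (fun k => (hm k).aemeasurable), ENNReal.tsum_eq_iSup_sum]
  refine iSup_le fun S => ?_
  rw [← lintegral_finsetSum S (fun k _ => hm k)]
  have h3 : ∀ t, ∑ k ∈ S, ENNReal.ofReal (c k * ‖W t k‖ ^ 2) =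
      ENNReal.ofReal (∑ k ∈ S, c k * ‖W t k‖ ^ 2) := fun t =>
    (ENNReal.ofReal_sum_of_nonneg fun k _ => mul_nonneg (hc k) (sq_nonneg _)).symm
  simp only [h3]
  rw [← ofReal_integral_eq_lintegral_ofReal ((hcS S).integrableOn_Icc)
    (Eventually.of_forall fun t => Finset.sum_nonneg fun k _ => mul_nonneg (hc k) (sq_nonneg _)),
    integral_Icc_eq_integral_Ioc, ← intervalIntegral.integral_of_le hT]
  exact ENNReal.ofReal_le_ofReal (hfin S)

end ExAux

open ExAux in
theorem t_Ex : StGal → StEx := by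
  classical
  intro hGal ν g w₀ f₀ C D E hν hw0 hf0 hcw hcf hC hD hE
  have hC0 : 0 ≤ C := hC.nonneg
  have hD0 : 0 ≤ D := hD.nonneg
  choose Wn Θn hG hini hbd using fun n : ℕ => hGal ν g n w₀ f₀ C D E hν hcw hcf hC hD hE
  obtain ⟨C', hC'⟩ : ∃ C' : ℝ, C' = C + g ^ 2 * D / ν ^ 2 := ⟨_, rfl⟩
  have hGB : ∀ n : ℕ, GB (Bx n) ν g C' D n (Wn n) (Θn n) := by
    intro n
    refine ⟨hG n, fun t ht => ?_, fun t ht => (hbd n t ht).1⟩
    intro S
    refine ((hbd n t ht).2.1 S).trans ?_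
    rw [hC']
    have h1 : Real.exp (-(ν * t)) ≤ 1 := by
      rw [Real.exp_le_one_iff]
      have := mul_nonneg hν.le ht.1
      linarith
    nlinarith
  obtain ⟨wn, hwn⟩ : ∃ wn : ℕ → ℝ → K2 → ℂ, wn = fun n t => Wn n (cl n t) := ⟨_, rfl⟩
  obtain ⟨θn, hθn⟩ : ∃ θn : ℕ → ℝ → K2 → ℂ, θn = fun n t => Θn n (cl n t) := ⟨_, rfl⟩
  have hwe : ∀ (n : ℕ) (t : ℝ), 0 ≤ t → t ≤ n → wn n t = Wn n t := by
    intro n t h1 h2
    rw [hwn]
    show Wn n (cl n t) = Wn n t
    rw [cl_eq h1 h2]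
  have hθe : ∀ (n : ℕ) (t : ℝ), 0 ≤ t → t ≤ n → θn n t = Θn n t := by
    intro n t h1 h2
    rw [hθn]
    show Θn n (cl n t) = Θn n t
    rw [cl_eq h1 h2]
  have hbw : ∀ n t, LB C' (wn n t) := by
    intro n t
    rw [hwn]
    exact (hGB n).bW _ (cl_mem n t)
  have hbθ : ∀ n t, LB D (θn n t) := by
    intro n t
    rw [hθn]
    exact (hGB n).bΘ _ (cl_mem n t)
  have hsw : ∀ n t, ∀ l ∉ Bx n, wn n t l = 0 := by
    intro n t l hl
    rw [hwn]
    exact (hGB n).spW _ l hl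
  have hsθ : ∀ n t, ∀ l ∉ Bx n, θn n t l = 0 := by
    intro n t l hl
    rw [hθn]
    exact (hGB n).spΘ _ l hl
  have hlw : ∀ k n s t, ‖wn n t k - wn n s k‖ ≤ cW ν g C' D k * |t - s| := by
    intro k n s t
    rw [hwn]
    refine ((hGB n).lipW k (cl_mem n s) (cl_mem n t)).trans ?_
    exact mul_le_mul_of_nonneg_left (cl_lip n s t) (cW_nonneg _ _ _ _ _)
  have hlθ : ∀ k n s t, ‖θn n t k - θn n s k‖ ≤
      ln k * (Real.sqrt C' * Real.sqrt D) * |t - s| := by
    intro k n s t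
    rw [hθn]
    refine ((hGB n).lipΘ k (cl_mem n s) (cl_mem n t)).trans ?_
    have := ln_nonneg k
    exact mul_le_mul_of_nonneg_left (cl_lip n s t) (by positivity)
  have hcont : ∀ (f : ℝ → ℂ) (L : ℝ), (∀ s t, ‖f t - f s‖ ≤ L * |t - s|) → Continuous f := by
    intro f L h
    refine LipschitzWith.continuous (K := L.toNNReal) (LipschitzWith.of_dist_le_mul ?_)
    intro x y
    rw [dist_eq_norm, Real.dist_eq]
    refine (h y x).trans ?_
    exact mul_le_mul_of_nonneg_right (Real.le_coe_toNNReal L) (abs_nonneg _)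
  have hcw' : ∀ n k, Continuous fun t => wn n t k := fun n k => hcont _ _ (hlw k n)
  have hcθ' : ∀ n k, Continuous fun t => θn n t k := fun n k => hcont _ _ (hlθ k n)
  -- extraction
  have hK : IsCompact (Set.univ.pi fun _ : ℚ × K2 =>
      (Metric.closedBall (0 : ℂ) (Real.sqrt C')) ×ˢ (Metric.closedBall (0 : ℂ) (Real.sqrt D))) :=
    isCompact_univ_pi fun _ => (isCompact_closedBall _ _).prod (isCompact_closedBall _ _)
  obtain ⟨a, -, φ, hφ, hlim⟩ := hK.tendsto_subseq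
    (x := fun n : ℕ => fun p : ℚ × K2 => (wn n (p.1 : ℝ) p.2, θn n (p.1 : ℝ) p.2)) (by
      intro n p _
      refine ⟨?_, ?_⟩
      · rw [mem_closedBall_zero_iff]
        exact (hbw n _).norm_le _
      · rw [mem_closedBall_zero_iff]
        exact (hbθ n _).norm_le _)
  rw [tendsto_pi_nhds] at hlim
  have hexW : ∀ (t : ℝ) (k : K2), ∃ z, Tendsto (fun n => wn (φ n) t k) atTop (𝓝 z) := by
    intro t k
    refine conv_all (f := fun n t => wn (φ n) t k) (fun n s t => hlw k (φ n) s t) ?_ t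
    intro q
    exact ⟨_, (continuous_fst.tendsto _).comp (hlim (q, k))⟩
  have hexΘ : ∀ (t : ℝ) (k : K2), ∃ z, Tendsto (fun n => θn (φ n) t k) atTop (𝓝 z) := by
    intro t k
    refine conv_all (f := fun n t => θn (φ n) t k) (fun n s t => hlθ k (φ n) s t) ?_ t
    intro q
    exact ⟨_, (continuous_snd.tendsto _).comp (hlim (q, k))⟩
  choose W hW using hexW
  choose Θ hΘ using hexΘ
  have hevn : ∀ T : ℝ, ∀ᶠ n in atTop, T ≤ (φ n : ℝ) := by
    intro T
    filter_upwards [eventually_ge_atTop ⌈T⌉₊] with n hn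
    have h1 : (⌈T⌉₊ : ℝ) ≤ φ n := by exact_mod_cast hn.trans (hφ.id_le n)
    exact (Nat.le_ceil T).trans h1
  have hbW : ∀ t, LB C' (W t) := by
    intro t S
    have h1 : Tendsto (fun n : ℕ => ∑ k ∈ S, ‖wn (φ n) t k‖ ^ 2) atTop
        (𝓝 (∑ k ∈ S, ‖W t k‖ ^ 2)) := tendsto_finsetSum _ fun k _ => ((hW t k).norm).pow 2
    exact le_of_tendsto' h1 fun n => hbw (φ n) t S
  have hbΘ : ∀ t, LB D (Θ t) := by
    intro t S
    have h1 : Tendsto (fun n : ℕ => ∑ k ∈ S, ‖θn (φ n) t k‖ ^ 2) atTop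
        (𝓝 (∑ k ∈ S, ‖Θ t k‖ ^ 2)) := tendsto_finsetSum _ fun k _ => ((hΘ t k).norm).pow 2
    exact le_of_tendsto' h1 fun n => hbθ (φ n) t S
  have hbW' : ∀ t, 0 ≤ t → LB (Real.exp (-(ν * t)) * C + g ^ 2 * D / ν ^ 2) (W t) := by
    intro t ht S
    have h1 : Tendsto (fun n : ℕ => ∑ k ∈ S, ‖wn (φ n) t k‖ ^ 2) atTop
        (𝓝 (∑ k ∈ S, ‖W t k‖ ^ 2)) := tendsto_finsetSum _ fun k _ => ((hW t k).norm).pow 2
    refine le_of_tendsto h1 ?_
    filter_upwards [hevn t] with n hn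
    rw [hwe _ _ ht hn]
    exact (hbd (φ n) t ⟨ht, hn⟩).2.1 S
  have hzW : ∀ t, W t 0 = 0 := by
    intro t
    refine tendsto_nhds_unique (hW t 0) ?_
    have : (fun n : ℕ => wn (φ n) t 0) = fun _ => 0 := by
      funext n
      exact hsw _ _ _ (zero_notMem_Bx _)
    rw [this]
    exact tendsto_const_nhds
  have hzΘ : ∀ t, Θ t 0 = 0 := by
    intro t
    refine tendsto_nhds_unique (hΘ t 0) ?_
    have : (fun n : ℕ => θn (φ n) t 0) = fun _ => 0 := by
      funext n
      exact hsθ _ _ _ (zero_notMem_Bx _)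
    rw [this]
    exact tendsto_const_nhds
  have hlW : ∀ k s t, ‖W t k - W s k‖ ≤ cW ν g C' D k * |t - s| := fun k s t =>
    le_of_tendsto' (((hW t k).sub (hW s k)).norm) fun n => hlw k (φ n) s t
  have hlΘ : ∀ k s t, ‖Θ t k - Θ s k‖ ≤ ln k * (Real.sqrt C' * Real.sqrt D) * |t - s| :=
    fun k s t => le_of_tendsto' (((hΘ t k).sub (hΘ s k)).norm) fun n => hlθ k (φ n) s t
  have hcW' : ∀ k, Continuous fun t => W t k := fun k => hcont _ _ (hlW k)
  have hcΘ' : ∀ k, Continuous fun t => Θ t k := fun k => hcont _ _ (hlΘ k)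
  -- the nonlinear terms
  have hcnl : ∀ (n : ℕ) (u v : ℝ → K2 → ℂ) (k : K2), (∀ l, Continuous fun t => u t l) →
      (∀ l, Continuous fun t => v t l) → Continuous fun t => nlB (Bx n) (u t) (v t) k := by
    intro n u v k hu hv
    unfold nlB
    exact continuous_finsetSum _ fun l _ => (continuous_const.mul (hu _)).mul (hv _)
  have hnWW : ∀ t k, Tendsto (fun n : ℕ => nlB (Bx (φ n)) (wn (φ n) t) (wn (φ n) t) k)
      atTop (𝓝 (nlI (W t) (W t) k)) := fun t k =>
    tendsto_nlB (Eventually.of_forall fun n => hbw (φ n) t)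
      (Eventually.of_forall fun n => hbw (φ n) t)
      (fun n l hl => hsw _ _ l hl) (hbW t) (hbW t) (hW t) (hW t) k
  have hnWΘ : ∀ t k, Tendsto (fun n : ℕ => nlB (Bx (φ n)) (wn (φ n) t) (θn (φ n) t) k)
      atTop (𝓝 (nlI (W t) (Θ t) k)) := fun t k =>
    tendsto_nlB (Eventually.of_forall fun n => hbw (φ n) t)
      (Eventually.of_forall fun n => hbθ (φ n) t)
      (fun n l hl => hsθ _ _ l hl) (hbW t) (hbΘ t) (hW t) (hΘ t) k
  refine ⟨W, Θ, ⟨fun t _ => hzW t, fun t _ => hzΘ t, fun t ht k => ?_, fun t ht k => ?_,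
    fun a _ b _ => ?_, fun k => (hcW' k).continuousOn, fun k => (hcΘ' k).continuousOn,
    fun k a ha b hb hab => ?_, fun k a ha b hb hab => ?_⟩, ?_, ?_,
    fun t ht => ⟨hbΘ t, hbW' t ht⟩, ?_, ?_⟩
  · have h1 : Tendsto (fun n : ℕ => conj (wn (φ n) t k)) atTop (𝓝 (conj (W t k))) :=
      (Complex.continuous_conj.tendsto _).comp (hW t k)
    refine tendsto_nhds_unique h1 ((hW t (-k)).congr fun n => ?_)
    rw [hwn]
    exact ((hGB (φ n)).cjW _ (cl_mem _ t) k).symm
  · have h1 : Tendsto (fun n : ℕ => conj (θn (φ n) t k)) atTop (𝓝 (conj (Θ t k))) :=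
      (Complex.continuous_conj.tendsto _).comp (hΘ t k)
    refine tendsto_nhds_unique h1 ((hΘ t (-k)).congr fun n => ?_)
    rw [hθn]
    exact ((hGB (φ n)).cjΘ _ (cl_mem _ t) k).symm
  · refine ⟨max C' D, fun t _ => ⟨fun S => ?_, fun S => ?_⟩⟩
    · exact (hbW t S).trans (le_max_left _ _)
    · exact (hbΘ t S).trans (le_max_right _ _)
  · by_cases hk : k = 0
    · subst hk
      simp only [rI_zero]
      rw [hzW, hzW]
      simp
    have ha0 : (0 : ℝ) ≤ a := ha
    have h1 : Tendsto (fun n => ∫ s in a..b, rW (Bx (φ n)) ν g (wn (φ n) s) (θn (φ n) s) k)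
        atTop (𝓝 (∫ s in a..b, rI ν g (W s) (Θ s) k)) := by
      refine intervalIntegral.tendsto_integral_filter_of_dominated_convergence
        (fun _ => cW ν g C' D k) ?_ ?_ ?_ ?_
      · refine Eventually.of_forall fun n => Continuous.aestronglyMeasurable ?_
        unfold rW
        exact (((hcnl _ _ _ k (hcw' _) (hcw' _)).neg).sub
          (continuous_const.mul (hcw' _ k))).add (continuous_const.mul (hcθ' _ k))
      · exact Eventually.of_forall fun n => Eventually.of_forall fun s _ =>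
          rW_le (hbw _ s) (hbθ _ s) k
      · exact intervalIntegrable_const
      · refine Eventually.of_forall fun s _ => ?_
        exact (((hnWW s k).neg).sub ((hW s k).const_mul _)).add ((hΘ s k).const_mul _)
    refine tendsto_nhds_unique ((hW b k).sub (hW a k)) (h1.congr' ?_)
    filter_upwards [hevn b, mem_ev hφ hk] with n hn hkn
    have hb0 : 0 ≤ b := ha0.trans hab
    refine intervalIntegral.integral_eq_sub_of_hasDerivAt_of_le hab
      (f := fun s => wn (φ n) s k) (hcw' _ k).continuousOn ?_ ?_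
    · intro x hx
      have hx0 : 0 < x := lt_of_le_of_lt ha0 hx.1
      have hxn : x < φ n := lt_of_lt_of_le hx.2 hn
      have h2 := ((hG (φ n)).derW x ⟨hx0.le, hxn.le⟩ k hkn).hasDerivAt (Icc_mem_nhds hx0 hxn)
      rw [hwe _ _ hx0.le hxn.le, hθe _ _ hx0.le hxn.le]
      refine h2.congr_of_eventuallyEq ?_
      filter_upwards [Icc_mem_nhds hx0 hxn] with y hy
      rw [hwe _ _ hy.1 hy.2]
    · refine Continuous.intervalIntegrable ?_ _ _
      unfold rW
      exact (((hcnl _ _ _ k (hcw' _) (hcw' _)).neg).sub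
        (continuous_const.mul (hcw' _ k))).add (continuous_const.mul (hcθ' _ k))
  · by_cases hk : k = 0
    · subst hk
      simp only [nlI_zero]
      rw [hzΘ, hzΘ]
      simp
    have ha0 : (0 : ℝ) ≤ a := ha
    have h1 : Tendsto (fun n => ∫ s in a..b, -(nlB (Bx (φ n)) (wn (φ n) s) (θn (φ n) s) k))
        atTop (𝓝 (∫ s in a..b, -(nlI (W s) (Θ s) k))) := by
      refine intervalIntegral.tendsto_integral_filter_of_dominated_convergence
        (fun _ => ln k * (Real.sqrt C' * Real.sqrt D)) ?_ ?_ ?_ ?_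
      · exact Eventually.of_forall fun n =>
          ((hcnl _ _ _ k (hcw' _) (hcθ' _)).neg).aestronglyMeasurable
      · refine Eventually.of_forall fun n => Eventually.of_forall fun s _ => ?_
        rw [norm_neg]
        exact nlB_le (hbw _ s) (hbθ _ s) (ln_nonneg k) fun l _ => abs_cf_le k l
      · exact intervalIntegrable_const
      · exact Eventually.of_forall fun s _ => (hnWΘ s k).neg
    refine tendsto_nhds_unique ((hΘ b k).sub (hΘ a k)) (h1.congr' ?_)
    filter_upwards [hevn b, mem_ev hφ hk] with n hn hkn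
    refine intervalIntegral.integral_eq_sub_of_hasDerivAt_of_le hab
      (f := fun s => θn (φ n) s k) (hcθ' _ k).continuousOn ?_ ?_
    · intro x hx
      have hx0 : 0 < x := lt_of_le_of_lt ha0 hx.1
      have hxn : x < φ n := lt_of_lt_of_le hx.2 hn
      have h2 := ((hG (φ n)).derΘ x ⟨hx0.le, hxn.le⟩ k hkn).hasDerivAt (Icc_mem_nhds hx0 hxn)
      rw [hwe _ _ hx0.le hxn.le, hθe _ _ hx0.le hxn.le]
      refine h2.congr_of_eventuallyEq ?_
      filter_upwards [Icc_mem_nhds hx0 hxn] with y hy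
      rw [hθe _ _ hy.1 hy.2]
    · exact ((hcnl _ _ _ k (hcw' _) (hcθ' _)).neg).intervalIntegrable _ _
  · funext k
    by_cases hk : k = 0
    · rw [hk, hzW, hw0]
    · refine tendsto_nhds_unique (hW 0 k) (tendsto_const_nhds.congr' ?_)
      filter_upwards [mem_ev hφ hk] with n hn
      rw [hwe _ _ le_rfl (Nat.cast_nonneg _)]
      exact (hini (φ n) k hn).1.symm
  · funext k
    by_cases hk : k = 0
    · rw [hk, hzΘ, hf0]
    · refine tendsto_nhds_unique (hΘ 0 k) (tendsto_const_nhds.congr' ?_)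
      filter_upwards [mem_ev hφ hk] with n hn
      rw [hθe _ _ le_rfl (Nat.cast_nonneg _)]
      exact (hini (φ n) k hn).2.symm
  · have h := fatou hφ hcw' hcW' hbw hW hzW (fun _ => 1) (fun _ => zero_le_one) (T := 1)
      (A := (E + g ^ 2 * D / ν) / ν) zero_le_one (by
        filter_upwards [hevn 1] with n hn
        have h1 := (hbd (φ n) 1 ⟨zero_le_one, hn⟩).2.2.2.1
        rw [one_mul] at h1
        refine le_trans (le_of_eq ?_) h1
        refine intervalIntegral.integral_congr fun s hs => ?_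
        rw [uIcc_of_le zero_le_one] at hs
        simp only [one_mul]
        rw [hwe _ _ hs.1 (hs.2.trans hn)])
    simpa using h
  · intro T
    rcases le_or_gt 0 T with hT | hT
    · have h := fatou hφ hcw' hcW' hbw hW hzW (fun k => (n2 k : ℝ))
        (fun k => by exact_mod_cast (n2_nonneg k)) (T := T)
        (A := (C + T * (g ^ 2 * D / ν)) / ν) hT (by
          filter_upwards [hevn T] with n hn
          have h1 := (hbd (φ n) T ⟨hT, hn⟩).2.2.2.2
          refine le_trans (le_of_eq ?_) h1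
          refine intervalIntegral.integral_congr fun s hs => ?_
          rw [uIcc_of_le hT] at hs
          show ∑ k ∈ Bx (φ n), (n2 k : ℝ) * ‖wn (φ n) s k‖ ^ 2 =
            ∑ k ∈ Bx (φ n), (n2 k : ℝ) * ‖Wn (φ n) s k‖ ^ 2
          rw [hwe _ _ hs.1 (hs.2.trans hn)])
      exact lt_of_le_of_lt h ENNReal.ofReal_lt_top
    · rw [Icc_eq_empty (not_le.2 hT)]
      simp

end Pool.Agent.R211.PK
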