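import Pool.Agent.R211.PK.WP

/-!
The final statement, from the pieces of the project.
-/

set_option autoImplicit false

open Set Filter Topology MeasureTheory
open scoped ComplexConjugate ENNReal

namespace Pool.Agent.R211.PK

open Pool.Agent.R211.BQ

theorem assemble (hV : StVel) (hB1 : StBr1) (hB2 : StBr2) (hE : StEx) (hU : StUni) (hS : StShf)
    (hsub : StSub) (hsup : StSup) (L ν g : ℝ) (hL : 0 < L) (hν : 0 < ν) (hg : 0 < g) :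
    (At L ν g = ⋃ (r : ℝ) (_ : 0 ≤ r), Om L ν g (Bt L ν g r)) ∧
    ∀ p : (Fin 2 → T2 → ℝ) × (T2 → ℝ), p.1 ∈ Hs → p.2 ∈ L20 → grad2 L p.1 < ⊤ → ∀ t : ℝ, 0 ≤ t →
      (∃ q, Ev L ν g t p q) ∧ ∀ q q', Ev L ν g t p q → Ev L ν g t p q' →
        (∀ i, q.1 i =ᵐ[mu] q'.1 i) ∧ q.2 =ᵐ[mu] q'.2 := by
  refine ⟨Set.Subset.antisymm (fun x hx => ?_) (fun x hx => ?_), fun p h1 h2 h3 t ht => ⟨?_, ?_⟩⟩
  · obtain ⟨r, hr, hx'⟩ := hsup L ν g hL hν hg x hx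
    exact mem_iUnion₂.2 ⟨r, hr, hx'⟩
  · obtain ⟨r, hr, hx'⟩ := mem_iUnion₂.1 hx
    exact hsub L ν g r hL hν hg hr hx'
  · obtain ⟨u, θ, h, hu, hθ⟩ := wp_ex hV hB2 hE g hL hν h1 h2 h3
    exact ⟨(u t, θ t), u, θ, h, Prod.ext hu hθ, rfl⟩
  · rintro q q' ⟨u, θ, h, hp, rfl⟩ ⟨u', θ', h', hp', rfl⟩
    have e : (u 0, θ 0) = (u' 0, θ' 0) := hp.trans hp'.symm
    exact wp_un hV hB1 hE hU hS hL hν h h' (congrArg Prod.fst e) (congrArg Prod.snd e) ht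

end Pool.Agent.R211.PK
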