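import Pool.Agent.R211.PK.Stm

/-!
Project PK, piece GAL: the Galerkin systems with given initial data.
-/

set_option autoImplicit false

open Set Filter Topology MeasureTheory
open scoped ComplexConjugate ENNReal NNReal ContDiff

namespace Pool.Agent.R211.PK

open Pool.Agent.R211.BQ

/-- The differential inequality `y' ≤ -ν z + A`, integrated. -/
theorem gal_energy {T ν A : ℝ} (hT : 0 ≤ T) (hν : 0 < ν) (hA : 0 ≤ A) {y z y' : ℝ → ℝ}
    (hd : ∀ t ∈ Icc 0 T, HasDerivWithinAt y (y' t) (Icc 0 T) t)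
    (hz : ContinuousOn z (Icc 0 T)) (hle : ∀ t ∈ Icc 0 T, y' t ≤ -ν * z t + A)
    (hy0 : ∀ t ∈ Icc 0 T, 0 ≤ y t) (hyz : ∀ t ∈ Icc 0 T, y t ≤ z t) :
    ∀ t ∈ Icc 0 T, y t ≤ Real.exp (-(ν * t)) * y 0 + A / ν ∧
      ∫ s in (0 : ℝ)..t, z s ≤ (y 0 + t * A) / ν := by
  have hyc : ContinuousOn y (Icc 0 T) := fun t ht => (hd t ht).continuousWithinAt
  set p : ℝ → ℝ := fun t => max 0 (min T t) with hp
  have hpm : ∀ t, p t ∈ Icc 0 T := fun t =>
    ⟨le_max_left _ _, max_le hT (min_le_left _ _)⟩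
  have hpe : ∀ t ∈ Icc 0 T, p t = t := by
    intro t ht
    simp only [hp]
    rw [min_eq_right ht.2, max_eq_right ht.1]
  set zz : ℝ → ℝ := fun t => z (p t) with hzz
  have hzzc : Continuous zz := hz.comp_continuous (by simp only [hp]; fun_prop) hpm
  have hzze : ∀ t ∈ Icc 0 T, zz t = z t := fun t ht => by simp only [hzz]; rw [hpe t ht]
  have h0T : (0 : ℝ) ∈ Icc 0 T := ⟨le_rfl, hT⟩
  intro t ht
  constructor
  · have hanti : AntitoneOn (fun s => (y s - A / ν) * Real.exp (ν * s)) (Icc 0 T) := by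
      refine antitoneOn_of_hasDerivWithinAt_nonpos (convex_Icc 0 T)
        (f' := fun s => y' s * Real.exp (ν * s) + (y s - A / ν) * (Real.exp (ν * s) * ν)) ?_ ?_ ?_
      · exact (hyc.sub continuousOn_const).mul (by fun_prop)
      · intro s hs
        have hs' := interior_subset hs
        have h1 := ((hd s hs').mono interior_subset).sub_const (A / ν)
        have h2 : HasDerivWithinAt (fun s => Real.exp (ν * s)) (Real.exp (ν * s) * ν)
            (interior (Icc 0 T)) s := by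
          have := ((hasDerivAt_id s).const_mul ν).exp
          simp only [id, mul_one] at this
          exact this.hasDerivWithinAt
        exact h1.mul h2
      · intro s hs
        have hs' := interior_subset hs
        have h1 := hle s hs'
        have h2 := hyz s hs'
        have h3 : y' s * Real.exp (ν * s) + (y s - A / ν) * (Real.exp (ν * s) * ν)
            = (y' s + ν * y s - A) * Real.exp (ν * s) := by
          field_simp
          ring
        rw [h3]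
        refine mul_nonpos_of_nonpos_of_nonneg ?_ (Real.exp_pos _).le
        nlinarith
    have h1 := hanti h0T ht ht.1
    simp only [mul_zero, Real.exp_zero, mul_one] at h1
    have h2 : (y t - A / ν) * Real.exp (ν * t) * Real.exp (-(ν * t)) = y t - A / ν := by
      rw [mul_assoc, ← Real.exp_add, add_neg_cancel, Real.exp_zero, mul_one]
    have h3 := mul_le_mul_of_nonneg_right h1 (Real.exp_pos (-(ν * t))).le
    rw [h2] at h3
    have h4 : (y 0 - A / ν) * Real.exp (-(ν * t)) ≤ Real.exp (-(ν * t)) * y 0 := by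
      have : 0 ≤ A / ν * Real.exp (-(ν * t)) := by positivity
      nlinarith
    linarith
  · have hanti : AntitoneOn (fun s => y s + ν * (∫ r in (0 : ℝ)..s, zz r) - A * s)
        (Icc 0 T) := by
      have hI : ∀ s, HasDerivAt (fun s => ∫ r in (0 : ℝ)..s, zz r) (zz s) s := fun s =>
        (hzzc.integral_hasStrictDerivAt 0 s).hasDerivAt
      refine antitoneOn_of_hasDerivWithinAt_nonpos (convex_Icc 0 T)
        (f' := fun s => y' s + ν * zz s - A * 1) ?_ ?_ ?_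
      · refine (hyc.add (continuousOn_const.mul ?_)).sub (by fun_prop)
        exact fun s _ => (hI s).continuousAt.continuousWithinAt
      · intro s hs
        have hs' := interior_subset hs
        exact (((hd s hs').mono interior_subset).add
          (((hI s).const_mul ν).hasDerivWithinAt)).sub
          (((hasDerivAt_id s).const_mul A).hasDerivWithinAt)
      · intro s hs
        have hs' := interior_subset hs
        have h1 := hle s hs'
        rw [hzze s hs']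
        linarith
    have h1 := hanti h0T ht ht.1
    simp only [intervalIntegral.integral_same, mul_zero, add_zero, sub_zero] at h1
    have h2 : ∫ s in (0 : ℝ)..t, z s = ∫ s in (0 : ℝ)..t, zz s := by
      refine intervalIntegral.integral_congr fun s hs => ?_
      rw [uIcc_of_le ht.1] at hs
      exact (hzze s ⟨hs.1, hs.2.trans ht.2⟩).symm
    rw [h2, le_div_iff₀ hν]
    have h3 := hy0 t ht
    linarith

/-- Young's inequality for the buoyancy term. -/
theorem gal_buoy {ν : ℝ} (hν : 0 < ν) (g : ℝ) (k : K2) (w f : ℂ) :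
    2 * (conj w * (Complex.I * ((g * k.1 : ℝ) : ℂ) * f)).re
      ≤ ν * n2 k * ‖w‖ ^ 2 + g ^ 2 / ν * ‖f‖ ^ 2 := by
  have h4 : (conj w * (Complex.I * ((g * k.1 : ℝ) : ℂ) * f)).re
      ≤ ‖w‖ * (|g| * |(k.1 : ℝ)| * ‖f‖) := by
    refine (Complex.re_le_norm _).trans (le_of_eq ?_)
    rw [norm_mul, norm_mul, norm_mul, Complex.norm_I, one_mul, Complex.norm_real,
      Real.norm_eq_abs, abs_mul, RCLike.norm_conj]
  have h5 : ((k.1 : ℝ)) ^ 2 ≤ (n2 k : ℝ) := by
    unfold n2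
    push_cast
    nlinarith [sq_nonneg ((k.2 : ℝ))]
  have h6 : 2 * (‖w‖ * (|g| * |(k.1 : ℝ)| * ‖f‖))
      ≤ ν * ((k.1 : ℝ)) ^ 2 * ‖w‖ ^ 2 + g ^ 2 / ν * ‖f‖ ^ 2 := by
    have h7 : 0 ≤ (Real.sqrt ν * |(k.1 : ℝ)| * ‖w‖ - |g| / Real.sqrt ν * ‖f‖) ^ 2 :=
      sq_nonneg _
    have h8 : Real.sqrt ν ^ 2 = ν := Real.sq_sqrt hν.le
    have h9 : Real.sqrt ν ≠ 0 := (Real.sqrt_pos.2 hν).ne'
    have h10 : (Real.sqrt ν * |(k.1 : ℝ)| * ‖w‖ - |g| / Real.sqrt ν * ‖f‖) ^ 2
        = Real.sqrt ν ^ 2 * |(k.1 : ℝ)| ^ 2 * ‖w‖ ^ 2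
          - 2 * (‖w‖ * (|g| * |(k.1 : ℝ)| * ‖f‖))
          + |g| ^ 2 / Real.sqrt ν ^ 2 * ‖f‖ ^ 2 := by
      field_simp
      ring
    rw [h10, h8, sq_abs, sq_abs] at h7
    linarith
  have h11 : ν * ((k.1 : ℝ)) ^ 2 * ‖w‖ ^ 2 ≤ ν * n2 k * ‖w‖ ^ 2 := by gcongr
  linarith

/-- The second skew identity. -/
theorem gal_skew2 {B : Finset K2} (hB : ∀ k ∈ B, -k ∈ B) {w : K2 → ℂ}
    (hw : ∀ l, conj (w l) = w (-l)) (hs : ∀ k ∉ B, w k = 0) :
    ∑ k ∈ B, conj (w k) * nlB B w w k / (n2 k : ℂ) = 0 := by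
  classical
  set ψ : K2 → ℂ := fun k => w k / (n2 k : ℂ) with hψ
  have hψ0 : ∀ k ∉ B, ψ k = 0 := fun k hk => by simp only [hψ]; rw [hs k hk, zero_div]
  have h1 : ∑ k ∈ B, conj (w k) * nlB B w w k / (n2 k : ℂ)
      = ∑ l ∈ B, w l * ∑ k ∈ B, (cr k l : ℂ) * ψ (k - l) * ψ (-k) := by
    simp only [Finset.mul_sum]
    rw [Finset.sum_comm]
    refine Finset.sum_congr rfl fun k _ => ?_
    unfold nlB
    rw [Finset.mul_sum, Finset.sum_div]
    refine Finset.sum_congr rfl fun l _ => ?_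
    simp only [hψ, cf, n2_neg, hw]
    push_cast
    ring
  rw [h1]
  refine Finset.sum_eq_zero fun l _ => ?_
  have h2 : ∑ k ∈ B, (cr k l : ℂ) * ψ (k - l) * ψ (-k)
      = ∑ k ∈ B.filter (fun k => l - k ∈ B), (cr k l : ℂ) * ψ (k - l) * ψ (-k) := by
    symm
    refine Finset.sum_subset (Finset.filter_subset _ _) fun k hk hk' => ?_
    have h3 : l - k ∉ B := fun h => hk' (Finset.mem_filter.2 ⟨hk, h⟩)
    have h4 : k - l ∉ B := fun h => h3 (by simpa using hB _ h)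
    rw [hψ0 _ h4]
    ring
  rw [h2]
  have h3 : ∑ k ∈ B.filter (fun k => l - k ∈ B), (cr k l : ℂ) * ψ (k - l) * ψ (-k) = 0 := by
    refine Finset.sum_involution (fun k _ => l - k) ?_ ?_ ?_ ?_
    · intro k _
      have e1 : l - k - l = -k := by abel
      have e2 : -(l - k) = k - l := by abel
      have e3 : cr (l - k) l = -cr k l := by unfold cr; simp; ring
      rw [e1, e2, e3]
      push_cast
      ring
    · intro k _ hne hkk
      apply hne
      have e : l = k + k := by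
        have h5 : l - k = k := hkk
        rw [← sub_eq_iff_eq_add]; exact h5
      have e4 : cr k l = 0 := by
        rw [e]; unfold cr; simp; ring
      rw [e4]
      simp
    · intro k hk
      rw [Finset.mem_filter] at hk ⊢
      exact ⟨hk.2, by simpa using hk.1⟩
    · intro k _
      abel
  rw [h3, mul_zero]

/-- A priori bound for the truncated system. -/
theorem gal_enst {B : Finset K2} {ν g R T M : ℝ} {α : ℝ → XB B × XB B}
    (hν : 0 < ν) (h0 : (0 : K2) ∉ B)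
    (hre : ∀ t ∈ Icc 0 T, ∀ l, conj (ext B (α t).1 l) = ext B (α t).1 (-l))
    (hα : ∀ t ∈ Icc 0 T, HasDerivWithinAt α (FF B ν g R (α t)) (Icc 0 T) t)
    (hM : g ^ 2 * en B (α 0).2 / ν ^ 2 ≤ M) (hi : en B (α 0).1 ≤ M) :
    ∀ t ∈ Icc 0 T, en B (α t).1 ≤ M := by
  set N := en B (α 0).2 with hN
  have hN0 : 0 ≤ N := en_nonneg _
  have hT := temp_const hre hα
  have hd : ∀ t ∈ Icc 0 T, ∃ D : ℝ, HasDerivWithinAt (fun r => en B (α r).1) D (Icc 0 T) t ∧
      D ≤ chi B R (α t) * (-ν * en B (α t).1 + g ^ 2 * N / ν) := by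
    intro t ht
    refine ⟨_, en_deriv (hα t ht).fst, ?_⟩
    set w := (α t).1 with hw
    set f := (α t).2 with hf
    have h1 : ∀ k : ↥B, 2 * (conj (w k) * (FF B ν g R (α t)).1 k).re
        = chi B R (α t) * (-2 * (conj (ext B w k) * nlB B (ext B w) (ext B w) k).re
          - 2 * ν * n2 k * ‖w k‖ ^ 2
          + 2 * (conj (w k) * (Complex.I * ((g * (k : K2).1 : ℝ) : ℂ) * f k)).re) := by
      intro k
      rw [ext_coe]
      unfold FF
      simp only
      rw [← hw, ← hf]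
      have h2 : conj (w k) * ((chi B R (α t) : ℂ) * (-(nlB B (ext B w) (ext B w) k)
          - ((ν * n2 k : ℝ) : ℂ) * w k + Complex.I * ((g * (k : K2).1 : ℝ) : ℂ) * f k))
          = (chi B R (α t) : ℂ) * (-(conj (w k) * nlB B (ext B w) (ext B w) k)
            - ((ν * n2 k * ‖w k‖ ^ 2 : ℝ) : ℂ)
            + conj (w k) * (Complex.I * ((g * (k : K2).1 : ℝ) : ℂ) * f k)) := by
        push_cast
        rw [← Complex.conj_mul']
        ring
      rw [h2, Complex.re_ofReal_mul, Complex.add_re, Complex.sub_re, Complex.neg_re,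
        Complex.ofReal_re]
      ring
    have h3 : ∀ k : ↥B, 2 * (conj (w k) * (Complex.I * ((g * (k : K2).1 : ℝ) : ℂ) * f k)).re
        ≤ ν * n2 k * ‖w k‖ ^ 2 + g ^ 2 / ν * ‖f k‖ ^ 2 := fun k => gal_buoy hν g k _ _
    have h12 : ∀ k : ↥B, (1 : ℝ) ≤ n2 k := by
      intro k
      have h13 : (k : K2) ≠ 0 := fun h => h0 (h ▸ k.2)
      exact_mod_cast one_le_n2 h13
    calc ∑ k : ↥B, 2 * (conj (w k) * (FF B ν g R (α t)).1 k).re
        = chi B R (α t) * ∑ k : ↥B, (-2 * (conj (ext B w k) * nlB B (ext B w) (ext B w) k).re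
          - 2 * ν * n2 k * ‖w k‖ ^ 2
          + 2 * (conj (w k) * (Complex.I * ((g * (k : K2).1 : ℝ) : ℂ) * f k)).re) := by
          rw [Finset.mul_sum]
          exact Finset.sum_congr rfl fun k _ => h1 k
      _ ≤ chi B R (α t) * ∑ k : ↥B, (-2 * (conj (ext B w k) * nlB B (ext B w) (ext B w) k).re
          - ν * ‖w k‖ ^ 2 + g ^ 2 / ν * ‖f k‖ ^ 2) := by
          refine mul_le_mul_of_nonneg_left (Finset.sum_le_sum fun k _ => ?_) (chi_nonneg _ _)
          have h17 : ν * 1 * ‖w k‖ ^ 2 ≤ ν * n2 k * ‖w k‖ ^ 2 := by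
            have := h12 k
            gcongr
          linarith [h3 k]
      _ = chi B R (α t) * (-ν * en B w + g ^ 2 * N / ν) := by
          congr 1
          rw [Finset.sum_add_distrib, Finset.sum_sub_distrib, ← Finset.mul_sum, ← Finset.mul_sum,
            ← Finset.mul_sum, ← en_eq, ← en_eq, hT t ht]
          have h18 := skew (B := B) (hre t ht) (ext B w)
          rw [Complex.re_sum, ← Finset.sum_coe_sort B] at h18
          rw [h18]
          ring
  choose! D hD1 hD2 using hd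
  have hM2 : g ^ 2 * N / ν ≤ ν * M := by
    have := mul_le_mul_of_nonneg_left hM hν.le
    calc g ^ 2 * N / ν = ν * (g ^ 2 * N / ν ^ 2) := by field_simp
      _ ≤ ν * M := this
  have key : ∀ ε > 0, ∀ t ∈ Icc 0 T, en B (α t).1 ≤ M + ε * (1 + t) := by
    intro ε hε
    have hb := image_le_of_deriv_right_lt_deriv_boundary (f := fun r => en B (α r).1)
      (f' := D) (a := 0) (b := T) (B := fun t => M + ε * (1 + t))
      (B' := fun _ => ε) (fun t ht => (hD1 t ht).continuousWithinAt)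
      (fun t ht => right_deriv (hD1 t (Ico_subset_Icc_self ht)) ht) (by
        show en B (α 0).1 ≤ _
        linarith) (fun t => by
        have h := ((hasDerivAt_id t).const_add (1 : ℝ)).const_mul ε
        simpa using h.const_add M) ?_
    · exact fun t ht => hb ht
    · intro t ht heq
      have h1 := hD2 t (Ico_subset_Icc_self ht)
      have h2 : -ν * en B (α t).1 + g ^ 2 * N / ν ≤ 0 := by
        rw [heq]
        have := ht.1
        have : 0 ≤ ν * ε * (1 + t) := by positivity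
        nlinarith
      have h4 : chi B R (α t) * (-ν * en B (α t).1 + g ^ 2 * N / ν) ≤ 0 :=
        mul_nonpos_of_nonneg_of_nonpos (chi_nonneg _ _) h2
      linarith
  intro t ht
  refine le_of_forall_pos_le_add fun ε hε => ?_
  have ht0 : 0 < 1 + t := by linarith [ht.1]
  have h1 := key (ε / (1 + t)) (by positivity) t ht
  rwa [div_mul_cancel₀ _ ht0.ne'] at h1

theorem gal_exists {B : Finset K2} (hB : ∀ k ∈ B, -k ∈ B) (h0 : (0 : K2) ∉ B) {ν g T2 : ℝ}
    (hν : 0 < ν) (hT2 : 0 ≤ T2) {w₀ f₀ : K2 → ℂ} (hw : ∀ k, conj (w₀ k) = w₀ (-k))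
    (hf : ∀ k, conj (f₀ k) = f₀ (-k)) :
    ∃ W Θ : ℝ → K2 → ℂ, GSol B ν g T2 W Θ ∧ (∀ k ∈ B, W 0 k = w₀ k ∧ Θ 0 k = f₀ k) ∧
      (∀ t ∈ Icc 0 T2, ∑ k ∈ B, ‖Θ t k‖ ^ 2 = ∑ k ∈ B, ‖f₀ k‖ ^ 2) := by
  classical
  set x0 : XB B := fun k => w₀ k with hx0
  set y0 : XB B := fun k => f₀ k with hy0
  have hx0r : fl hB x0 = x0 := by
    funext k
    show conj (w₀ (-k.1)) = w₀ k
    rw [hw, neg_neg]
  have hy0r : fl hB y0 = y0 := by
    funext k
    show conj (f₀ (-k.1)) = f₀ k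
    rw [hf, neg_neg]
  set r : ℝ := en B y0 with hr
  have hr0 : 0 ≤ r := en_nonneg _
  have hx00 : 0 ≤ en B x0 := en_nonneg _
  set M : ℝ := g ^ 2 * r / ν ^ 2 + en B x0 with hM
  have hM0 : 0 ≤ M := by positivity
  set R : ℝ := M + r + 1 with hR
  have hR0 : 0 < R := by positivity
  obtain ⟨α, hα0, hα⟩ := exists_sol (B := B) ν g hR0 hT2 (x0, y0)
  have hreal : ∀ t ∈ Icc 0 T2, (fl hB (α t).1, fl hB (α t).2) = α t := by
    refine sol_real hB hR0 ?_ hα
    rw [hα0]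
    exact Prod.ext hx0r hy0r
  have hcj : ∀ (z : XB B), fl hB z = z → ∀ l, conj (ext B z l) = ext B z (-l) := by
    intro z hz l
    have h1 := ext_fl hB z (-l)
    rw [hz, neg_neg] at h1
    exact h1.symm
  have hreal1 : ∀ t ∈ Icc 0 T2, ∀ l, conj (ext B (α t).1 l) = ext B (α t).1 (-l) :=
    fun t ht => hcj _ (congrArg Prod.fst (hreal t ht))
  have hreal2 : ∀ t ∈ Icc 0 T2, ∀ l, conj (ext B (α t).2 l) = ext B (α t).2 (-l) :=
    fun t ht => hcj _ (congrArg Prod.snd (hreal t ht))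
  have hcons : ∀ t ∈ Icc 0 T2, en B (α t).2 = r := by
    intro t ht
    rw [temp_const hreal1 hα t ht, hα0]
  have henst : ∀ t ∈ Icc 0 T2, en B (α t).1 ≤ M := by
    refine gal_enst hν h0 hreal1 hα ?_ ?_
    · rw [hα0]
      show g ^ 2 * r / ν ^ 2 ≤ M
      linarith
    · rw [hα0]
      show en B x0 ≤ M
      have : 0 ≤ g ^ 2 * r / ν ^ 2 := by positivity
      linarith
  have hchi : ∀ t ∈ Icc 0 T2, chi B R (α t) = 1 := by
    intro t ht
    have h1 := hcons t ht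
    have h2 := henst t ht
    unfold chi
    refine Real.smoothTransition.one_of_one_le ?_
    have h3 : (en B (α t).1 + en B (α t).2) / R ≤ 1 := by
      rw [div_le_one hR0, h1]
      linarith
    linarith
  refine ⟨fun t => ext B (α t).1, fun t => ext B (α t).2, ⟨fun t k hk => dif_neg hk,
    fun t k hk => dif_neg hk, fun t ht k => hreal1 t ht k,
    fun t ht k => hreal2 t ht k, fun t ht k hk => ?_, fun t ht k hk => ?_⟩,
    fun k hk => ⟨?_, ?_⟩, fun t ht => ?_⟩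
  · have h1 := hasDerivWithinAt_pi.1 (hα t ht).fst ⟨k, hk⟩
    have h2 : ∀ s, ext B (α s).1 k = (α s).1 ⟨k, hk⟩ := fun s => dif_pos hk
    have h3 : ∀ s, ext B (α s).2 k = (α s).2 ⟨k, hk⟩ := fun s => dif_pos hk
    simp only [h2, h3]
    refine h1.congr_deriv ?_
    unfold FF
    simp only [hchi t ht, Complex.ofReal_one, one_mul]
  · have h1 := hasDerivWithinAt_pi.1 (hα t ht).snd ⟨k, hk⟩
    have h3 : ∀ s, ext B (α s).2 k = (α s).2 ⟨k, hk⟩ := fun s => dif_pos hk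
    simp only [h3]
    refine h1.congr_deriv ?_
    unfold FF
    simp only [hchi t ht, Complex.ofReal_one, one_mul]
  · show ext B (α 0).1 k = w₀ k
    rw [hα0]
    exact dif_pos hk
  · show ext B (α 0).2 k = f₀ k
    rw [hα0]
    exact dif_pos hk
  · rw [← en_eq', hcons t ht, hr, en_eq, ← Finset.sum_coe_sort B]

theorem gal_weight {B : Finset K2} (h0 : (0 : K2) ∉ B) {ν g T D : ℝ} (hν : 0 < ν)
    {W Θ : ℝ → K2 → ℂ} (S : GSol B ν g T W Θ) (c : K2 → ℝ) (hc0 : ∀ k ∈ B, 0 ≤ c k)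
    (hc1 : ∀ k ∈ B, c k ≤ 1)
    (hsk : ∀ t ∈ Icc 0 T, ∑ k ∈ B, c k * (conj (W t k) * nlB B (W t) (W t) k).re = 0)
    (hD : ∀ t ∈ Icc 0 T, ∑ k ∈ B, ‖Θ t k‖ ^ 2 ≤ D) (hT : 0 ≤ T) (hD0 : 0 ≤ D) :
    ∀ t ∈ Icc 0 T, (∑ k ∈ B, c k * ‖W t k‖ ^ 2) ≤
      Real.exp (-(ν * t)) * (∑ k ∈ B, c k * ‖W 0 k‖ ^ 2) + g ^ 2 * D / ν / ν ∧
      ∫ s in (0 : ℝ)..t, ∑ k ∈ B, c k * (n2 k * ‖W s k‖ ^ 2) ≤
        ((∑ k ∈ B, c k * ‖W 0 k‖ ^ 2) + t * (g ^ 2 * D / ν)) / ν := by
  have h12 : ∀ k ∈ B, (1 : ℝ) ≤ n2 k := by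
    intro k hk
    have h13 : k ≠ 0 := fun h => h0 (h ▸ hk)
    exact_mod_cast one_le_n2 h13
  have hWc : ∀ k ∈ B, ContinuousOn (fun s => W s k) (Icc 0 T) := fun k hk t ht =>
    (S.derW t ht k hk).continuousWithinAt
  refine gal_energy (y := fun t => ∑ k ∈ B, c k * ‖W t k‖ ^ 2)
    (z := fun s => ∑ k ∈ B, c k * (n2 k * ‖W s k‖ ^ 2)) hT hν (by positivity)
    (y' := fun t => ∑ k ∈ B, c k *
      (2 * (conj (W t k) * (-(nlB B (W t) (W t) k) - ((ν * n2 k : ℝ) : ℂ) * W t k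
        + Complex.I * ((g * k.1 : ℝ) : ℂ) * Θ t k)).re)) ?_ ?_ ?_ ?_ ?_
  · intro t ht
    refine HasDerivWithinAt.fun_sum fun k hk => ?_
    refine ((S.derW t ht k hk).norm_sq.const_mul (c k)).congr_deriv ?_
    rw [Complex.inner]
    congr 3
    exact mul_comm _ _
  · exact continuousOn_finset_sum _ fun k hk =>
      continuousOn_const.mul (continuousOn_const.mul ((hWc k hk).norm.pow 2))
  · intro t ht
    have hpt : ∀ k ∈ B, c k *
      (2 * (conj (W t k) * (-(nlB B (W t) (W t) k) - ((ν * n2 k : ℝ) : ℂ) * W t k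
        + Complex.I * ((g * k.1 : ℝ) : ℂ) * Θ t k)).re) ≤
        -2 * (c k * (conj (W t k) * nlB B (W t) (W t) k).re) +
        (-ν * (c k * (n2 k * ‖W t k‖ ^ 2)) + g ^ 2 / ν * ‖Θ t k‖ ^ 2) := by
      intro k hk
      have e : conj (W t k) * (-(nlB B (W t) (W t) k) - ((ν * n2 k : ℝ) : ℂ) * W t k
        + Complex.I * ((g * k.1 : ℝ) : ℂ) * Θ t k) =
          -(conj (W t k) * nlB B (W t) (W t) k) - ((ν * n2 k * ‖W t k‖ ^ 2 : ℝ) : ℂ)
          + conj (W t k) * (Complex.I * ((g * k.1 : ℝ) : ℂ) * Θ t k) := by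
        push_cast
        rw [← Complex.conj_mul']
        ring
      rw [e, Complex.add_re, Complex.sub_re, Complex.neg_re, Complex.ofReal_re]
      have h1 := gal_buoy hν g k (W t k) (Θ t k)
      have h2 := mul_le_mul_of_nonneg_left h1 (hc0 k hk)
      have h3 : c k * (g ^ 2 / ν * ‖Θ t k‖ ^ 2) ≤ 1 * (g ^ 2 / ν * ‖Θ t k‖ ^ 2) :=
        mul_le_mul_of_nonneg_right (hc1 k hk) (by positivity)
      nlinarith
    refine (Finset.sum_le_sum hpt).trans ?_
    rw [Finset.sum_add_distrib, ← Finset.mul_sum, hsk t ht, Finset.sum_add_distrib,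
      ← Finset.mul_sum, ← Finset.mul_sum]
    have h4 : g ^ 2 / ν * ∑ k ∈ B, ‖Θ t k‖ ^ 2 ≤ g ^ 2 / ν * D :=
      mul_le_mul_of_nonneg_left (hD t ht) (by positivity)
    have h5 : g ^ 2 / ν * D = g ^ 2 * D / ν := by ring
    show -2 * 0 + (-ν * (∑ k ∈ B, c k * (n2 k * ‖W t k‖ ^ 2)) + g ^ 2 / ν * ∑ k ∈ B, ‖Θ t k‖ ^ 2)
      ≤ -ν * (∑ k ∈ B, c k * (n2 k * ‖W t k‖ ^ 2)) + g ^ 2 * D / ν
    linarith
  · intro t _
    exact Finset.sum_nonneg fun k hk => mul_nonneg (hc0 k hk) (by positivity)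
  · intro t _
    refine Finset.sum_le_sum fun k hk => mul_le_mul_of_nonneg_left ?_ (hc0 k hk)
    have h1 := h12 k hk
    nlinarith [sq_nonneg ‖W t k‖]

theorem t_Gal : StGal := by
  intro ν g n w₀ f₀ C D E hν hw hf hC hD hE
  have hB : ∀ k ∈ Bx n, -k ∈ Bx n := fun k hk => neg_mem_Bx hk
  have h0 := zero_notMem_Bx n
  have hT : (0 : ℝ) ≤ n := Nat.cast_nonneg n
  obtain ⟨W, Θ, S, hi, hΘ⟩ := gal_exists hB h0 (g := g) hν hT hw hf
  have hD0 := hD.nonneg
  have hΘD : ∀ t ∈ Icc (0 : ℝ) n, ∑ k ∈ Bx n, ‖Θ t k‖ ^ 2 ≤ D := fun t ht => by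
    rw [hΘ t ht]; exact hD _
  have hn2 : ∀ k ∈ Bx n, (1 : ℝ) ≤ n2 k := by
    intro k hk
    have h13 : k ≠ 0 := fun h => h0 (h ▸ hk)
    exact_mod_cast one_le_n2 h13
  have hlnn : ∀ k ∈ Bx n, ∀ z : ℂ, ‖z / (ln k : ℂ)‖ ^ 2 = (n2 k : ℝ)⁻¹ * ‖z‖ ^ 2 := by
    intro k hk z
    rw [norm_div, Complex.norm_real, Real.norm_eq_abs, div_pow, sq_abs, ln_sq]
    ring
  have H1 := gal_weight h0 hν S (fun _ => 1) (fun _ _ => zero_le_one) (fun _ _ => le_rfl)
    (fun t ht => by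
      have := skew (B := Bx n) (w := W t) (S.cjW t ht) (W t)
      rw [Complex.re_sum] at this
      simpa using this) hΘD hT hD0
  have H2 := gal_weight h0 hν S (fun k => (n2 k : ℝ)⁻¹)
    (fun k hk => by have := hn2 k hk; positivity)
    (fun k hk => inv_le_one_of_one_le₀ (hn2 k hk))
    (fun t ht => by
      have := congrArg Complex.re (gal_skew2 hB (S.cjW t ht) (S.spW t))
      rw [Complex.re_sum] at this
      rw [← Complex.zero_re, ← this]
      refine Finset.sum_congr rfl fun k _ => ?_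
      rw [Complex.div_intCast_re]
      ring) hΘD hT hD0
  have hy0 : ∑ k ∈ Bx n, (1 : ℝ) * ‖W 0 k‖ ^ 2 ≤ C := by
    refine le_trans (le_of_eq ?_) (hC (Bx n))
    exact Finset.sum_congr rfl fun k hk => by rw [(hi k hk).1, one_mul]
  have hx0 : ∑ k ∈ Bx n, (n2 k : ℝ)⁻¹ * ‖W 0 k‖ ^ 2 ≤ E := by
    refine le_trans (le_of_eq ?_) (hE (Bx n))
    exact Finset.sum_congr rfl fun k hk => by rw [(hi k hk).1, hlnn k hk]
  have hA : g ^ 2 * D / ν / ν = g ^ 2 * D / ν ^ 2 := by rw [div_div, ← pow_two]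
  refine ⟨W, Θ, S, hi, fun t ht => ⟨LB.of_support (S.spΘ t) (hΘD t ht), ?_, ?_, ?_, ?_⟩⟩
  · refine LB.of_support (S.spW t) ?_
    have h1 := (H1 t ht).1
    rw [hA] at h1
    have h2 := mul_le_mul_of_nonneg_left hy0 (Real.exp_pos (-(ν * t))).le
    simp only [one_mul] at h1 h2
    linarith
  · refine LB.of_support (B := Bx n) (fun k hk => by rw [S.spW t k hk, zero_div]) ?_
    have h1 := (H2 t ht).1
    rw [hA] at h1
    have h2 := mul_le_mul_of_nonneg_left hx0 (Real.exp_pos (-(ν * t))).le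
    rw [Finset.sum_congr rfl fun k hk => hlnn k hk (W t k)]
    linarith
  · have h1 := (H2 t ht).2
    have e : ∀ s, ∑ k ∈ Bx n, ‖W s k‖ ^ 2 =
        ∑ k ∈ Bx n, (n2 k : ℝ)⁻¹ * (n2 k * ‖W s k‖ ^ 2) := by
      intro s
      refine Finset.sum_congr rfl fun k hk => ?_
      have := hn2 k hk
      rw [← mul_assoc, inv_mul_cancel₀ (by linarith), one_mul]
    simp only [e]
    refine h1.trans ?_
    gcongr
  · have h1 := (H1 t ht).2
    simp only [one_mul] at h1 hy0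
    refine h1.trans ?_
    gcongr

end Pool.Agent.R211.PK
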