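import Pool.Agent.R211.PK.Stm

/-!
Project PK, piece GR: the Gronwall argument (helper925).
-/

set_option autoImplicit false

open Set Filter Topology MeasureTheory

namespace Pool.Agent.R211.PK

namespace GrAux

/-- The data of the Gronwall argument: `a = C (1+h)`. -/
structure GrD (T : ℝ) (E D a : ℝ → ℝ) : Prop where
  hT : 0 < T
  E0 : ∀ t ∈ Icc 0 T, 0 ≤ E t
  hD : IntervalIntegrable D volume 0 T
  hE : ∀ t ∈ Icc 0 T, E t = ∫ s in (0 : ℝ)..t, D s
  a0 : ∀ t, 0 ≤ a t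
  ha : IntervalIntegrable a volume 0 T
  hN : ∀ N : ℝ, 1 ≤ N → ∀ᵐ t ∂volume.restrict (Icc 0 T),
    D t ≤ (1 + Real.log N) * a t * E t + a t / N

variable {T : ℝ} {E D a : ℝ → ℝ}

theorem GrD.iiD (H : GrD T E D a) {u v : ℝ} (hu : u ∈ Icc 0 T) (hv : v ∈ Icc 0 T) :
    IntervalIntegrable D volume u v := by
  apply H.hD.mono_set
  rw [uIcc_of_le H.hT.le]
  exact (uIcc_subset_Icc hu hv)

theorem GrD.iia (H : GrD T E D a) {u v : ℝ} (hu : u ∈ Icc 0 T) (hv : v ∈ Icc 0 T) :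
    IntervalIntegrable a volume u v := by
  apply H.ha.mono_set
  rw [uIcc_of_le H.hT.le]
  exact (uIcc_subset_Icc hu hv)

theorem GrD.contE (H : GrD T E D a) : ContinuousOn E (Icc 0 T) := by
  have h1 : ContinuousOn (fun t => ∫ s in (0 : ℝ)..t, D s) (Icc 0 T) := by
    have := intervalIntegral.continuousOn_primitive_interval' H.hD (a := 0)
      (by rw [uIcc_of_le H.hT.le]; exact ⟨le_rfl, H.hT.le⟩)
    rwa [uIcc_of_le H.hT.le] at this
  exact h1.congr H.hE

/-- the primitive of `a` -/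
noncomputable def Gp (a : ℝ → ℝ) (t : ℝ) : ℝ := ∫ s in (0 : ℝ)..t, a s

theorem GrD.contG (H : GrD T E D a) : ContinuousOn (Gp a) (Icc 0 T) := by
  have := intervalIntegral.continuousOn_primitive_interval' H.ha (a := 0)
    (by rw [uIcc_of_le H.hT.le]; exact ⟨le_rfl, H.hT.le⟩)
  rwa [uIcc_of_le H.hT.le] at this

theorem GrD.Gsub (H : GrD T E D a) {u v : ℝ} (hu : u ∈ Icc 0 T) (hv : v ∈ Icc 0 T) :
    Gp a v - Gp a u = ∫ s in u..v, a s := by
  have h0 : (0 : ℝ) ∈ Icc 0 T := ⟨le_rfl, H.hT.le⟩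
  exact intervalIntegral.integral_interval_sub_left (H.iia h0 hv) (H.iia h0 hu)

theorem GrD.Gmono (H : GrD T E D a) {u v : ℝ} (hu : u ∈ Icc 0 T) (hv : v ∈ Icc 0 T)
    (huv : u ≤ v) : Gp a u ≤ Gp a v := by
  have := H.Gsub hu hv
  have h2 : 0 ≤ ∫ s in u..v, a s := intervalIntegral.integral_nonneg huv (fun s _ => H.a0 s)
  linarith

theorem GrD.step (H : GrD T E D a) {N lam m u v : ℝ} (hN : 1 ≤ N) (hl : lam = 1 + Real.log N)
    (hu : u ∈ Icc 0 T) (hv : v ∈ Icc 0 T) (huv : u ≤ v) (hG : Gp a v - Gp a u ≤ 1 / (2 * lam))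
    (hm : ∀ x ∈ Icc 0 u, E x ≤ m) : ∀ x ∈ Icc 0 v, E x ≤ 2 * m + 1 / (lam * N) := by
  have hlam : 1 ≤ lam := by
    have := Real.log_nonneg hN
    linarith
  have hsub : Icc u v ⊆ Icc 0 T := Icc_subset_Icc hu.1 hv.2
  obtain ⟨τ, hτ, hmax⟩ := isCompact_Icc.exists_isMaxOn (nonempty_Icc.mpr huv)
    (H.contE.mono hsub)
  have hτT : τ ∈ Icc 0 T := hsub hτ
  have hM0 : 0 ≤ E τ := H.E0 τ hτT
  have h0 : (0 : ℝ) ∈ Icc 0 T := ⟨le_rfl, H.hT.le⟩
  have hEsub : E τ - E u = ∫ s in u..τ, D s := by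
    rw [H.hE τ hτT, H.hE u hu]
    exact intervalIntegral.integral_interval_sub_left (H.iiD h0 hτT) (H.iiD h0 hu)
  have hle : ∫ s in u..τ, D s ≤ ∫ s in u..τ, (lam * E τ + 1 / N) * a s := by
    apply intervalIntegral.integral_mono_ae_restrict hτ.1 (H.iiD hu hτT)
      ((H.iia hu hτT).const_mul _)
    have hsub2 : Icc u τ ⊆ Icc 0 T := Icc_subset_Icc hu.1 hτT.2
    have h1 := ae_restrict_of_ae_restrict_of_subset hsub2 (H.hN N hN)
    have h2 : ∀ᵐ t ∂volume.restrict (Icc u τ), t ∈ Icc u τ := ae_restrict_mem measurableSet_Icc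
    filter_upwards [h1, h2] with x hx1 hx2
    have hx3 : E x ≤ E τ := hmax ⟨hx2.1, hx2.2.trans hτ.2⟩
    have hx4 : 0 ≤ lam * a x := mul_nonneg (by linarith) (H.a0 x)
    calc D x ≤ (1 + Real.log N) * a x * E x + a x / N := hx1
      _ = (lam * a x) * E x + a x / N := by rw [hl]
      _ ≤ (lam * a x) * E τ + a x / N := by
          have := mul_le_mul_of_nonneg_left hx3 hx4
          linarith
      _ = (lam * E τ + 1 / N) * a x := by ring
  rw [intervalIntegral.integral_const_mul, ← H.Gsub hu hτT] at hle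
  have hGτ : Gp a τ - Gp a u ≤ 1 / (2 * lam) := by
    have := H.Gmono hτT hv hτ.2
    linarith
  have hc : 0 ≤ lam * E τ + 1 / N := by positivity
  have h3 : (lam * E τ + 1 / N) * (Gp a τ - Gp a u) ≤ (lam * E τ + 1 / N) * (1 / (2 * lam)) :=
    mul_le_mul_of_nonneg_left hGτ hc
  have h4 : (lam * E τ + 1 / N) * (1 / (2 * lam)) = E τ / 2 + 1 / (lam * N) / 2 := by
    have : lam ≠ 0 := by linarith
    have : N ≠ 0 := by linarith
    field_simp
  have hEu : E u ≤ m := hm u ⟨hu.1, le_rfl⟩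
  have hτb : E τ ≤ 2 * m + 1 / (lam * N) := by linarith
  have hm0 : 0 ≤ m := (H.E0 u hu).trans hEu
  have hp : 0 ≤ 1 / (lam * N) := by positivity
  intro x hx
  rcases le_total x u with hxu | hxu
  · have := hm x ⟨hx.1, hxu⟩
    linarith
  · exact (hmax ⟨hxu, hx.2⟩).trans hτb

theorem GrD.iter (H : GrD T E D a) {N lam s : ℝ} (hN : 1 ≤ N) (hl : lam = 1 + Real.log N)
    (hs : s ∈ Icc 0 T) (hz : ∀ x ∈ Icc 0 s, E x = 0) (k : ℕ) :
    ∀ v ∈ Icc s T, Gp a v - Gp a s ≤ k * (1 / (2 * lam)) →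
      ∀ x ∈ Icc 0 v, E x ≤ (2 ^ k - 1) * (1 / (lam * N)) := by
  have hlam : 1 ≤ lam := by
    have := Real.log_nonneg hN
    linarith
  have hp : 0 ≤ 1 / (lam * N) := by positivity
  have hp2 : 0 < 1 / (2 * lam) := by positivity
  induction k with
  | zero =>
    intro v hv hG x hx
    have hvT : v ∈ Icc 0 T := ⟨hs.1.trans hv.1, hv.2⟩
    have hG2 : Gp a v - Gp a s ≤ 0 := by simpa using hG
    -- all the increments vanish: use one step with arbitrarily large `lam`
    have key : ∀ n : ℕ, E x ≤ 1 / ((n : ℝ) + 1) := by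
      intro n
      have hst := H.step (N := Real.exp n) (lam := 1 + n) (m := 0) (u := s) (v := v)
        (Real.one_le_exp (Nat.cast_nonneg n)) (by rw [Real.log_exp]) hs hvT hv.1
        (hG2.trans (by positivity)) (fun y hy => (hz y hy).le) x hx
      have he : 1 ≤ Real.exp (n : ℝ) := Real.one_le_exp (Nat.cast_nonneg n)
      have hn : (0 : ℝ) < 1 + n := by positivity
      calc E x ≤ 2 * 0 + 1 / ((1 + n) * Real.exp n) := hst
        _ = 1 / ((1 + n) * Real.exp n) := by ring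
        _ ≤ 1 / ((n : ℝ) + 1) := by
          apply one_div_le_one_div_of_le (by positivity)
          nlinarith
    have hlim : E x ≤ 0 := ge_of_tendsto' tendsto_one_div_add_atTop_nhds_zero_nat key
    simpa using hlim
  | succ k ih =>
    intro v hv hG x hx
    have hvT : v ∈ Icc 0 T := ⟨hs.1.trans hv.1, hv.2⟩
    by_cases hk : Gp a v - Gp a s ≤ k * (1 / (2 * lam))
    · have := ih v hv hk x hx
      have h2 : (2 ^ k - 1 : ℝ) * (1 / (lam * N)) ≤ (2 ^ (k + 1) - 1) * (1 / (lam * N)) := by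
        apply mul_le_mul_of_nonneg_right _ hp
        have : (2 : ℝ) ^ k ≤ 2 ^ (k + 1) := pow_le_pow_right₀ (by norm_num) (Nat.le_succ k)
        linarith
      linarith
    · push Not at hk
      have hcont : ContinuousOn (fun t => Gp a t - Gp a s) (Icc s v) :=
        (H.contG.mono (Icc_subset_Icc hs.1 hv.2)).sub continuousOn_const
      have hmem : (k : ℝ) * (1 / (2 * lam)) ∈ Icc (Gp a s - Gp a s) (Gp a v - Gp a s) := by
        refine ⟨?_, hk.le⟩
        rw [sub_self]; positivity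
      obtain ⟨u, hu, hGu⟩ := intermediate_value_Icc hv.1 hcont hmem
      have huT : u ∈ Icc 0 T := ⟨hs.1.trans hu.1, hu.2.trans hv.2⟩
      have hGu' : Gp a u - Gp a s = k * (1 / (2 * lam)) := hGu
      have h1 := ih u ⟨hu.1, huT.2⟩ hGu'.le
      have h2 := H.step hN hl huT hvT hu.2 (m := (2 ^ k - 1) * (1 / (lam * N))) (by
        push_cast at hG
        linarith) h1 x hx
      calc E x ≤ 2 * ((2 ^ k - 1) * (1 / (lam * N))) + 1 / (lam * N) := h2
        _ = (2 ^ (k + 1) - 1) * (1 / (lam * N)) := by ring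

theorem GrD.half (H : GrD T E D a) {s : ℝ} (hs : s ∈ Icc 0 T) (hz : ∀ x ∈ Icc 0 s, E x = 0) :
    ∀ v ∈ Icc s T, Gp a v - Gp a s ≤ 1 / 2 → ∀ x ∈ Icc 0 v, E x = 0 := by
  intro v hv hG x hx
  have hxT : x ∈ Icc 0 T := ⟨hx.1, hx.2.trans hv.2⟩
  apply le_antisymm _ (H.E0 x hxT)
  have key : ∀ n : ℕ, E x ≤ 2 * (2 / Real.exp 1) ^ n := by
    intro n
    have he : 1 ≤ Real.exp (n : ℝ) := Real.one_le_exp (Nat.cast_nonneg n)
    have h1 := H.iter (N := Real.exp n) (lam := 1 + n) he (by rw [Real.log_exp]) hs hz (n + 1)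
      v hv (by
        have : ((n + 1 : ℕ) : ℝ) * (1 / (2 * (1 + (n : ℝ)))) = 1 / 2 := by
          have : (1 + (n : ℝ)) ≠ 0 := by positivity
          push_cast
          field_simp
          ring
        rw [this]; exact hG) x hx
    have hn : (0 : ℝ) ≤ n := Nat.cast_nonneg n
    have h2 : (2 ^ (n + 1) - 1 : ℝ) * (1 / ((1 + n) * Real.exp n)) ≤
        2 ^ (n + 1) * (1 / Real.exp n) := by
      have h3 : (1 : ℝ) / ((1 + n) * Real.exp n) ≤ 1 / Real.exp n := by
        apply one_div_le_one_div_of_le (by positivity)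
        nlinarith
      have h4 : (0 : ℝ) ≤ 1 / ((1 + n) * Real.exp n) := by positivity
      have h5 : (0 : ℝ) ≤ 2 ^ (n + 1) := by positivity
      have h6 : (2 ^ (n + 1) : ℝ) * (1 / ((1 + n) * Real.exp n)) ≤
        2 ^ (n + 1) * (1 / Real.exp n) := mul_le_mul_of_nonneg_left h3 h5
      nlinarith
    have h7 : (2 : ℝ) ^ (n + 1) * (1 / Real.exp n) = 2 * (2 / Real.exp 1) ^ n := by
      rw [div_pow, ← Real.exp_nat_mul, mul_one, pow_succ]
      ring
    linarith
  have hlim : Tendsto (fun n : ℕ => 2 * (2 / Real.exp 1) ^ n) atTop (𝓝 (2 * 0)) := by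
    apply Tendsto.const_mul
    apply tendsto_pow_atTop_nhds_zero_of_lt_one (by positivity)
    rw [div_lt_one (Real.exp_pos 1)]
    have := Real.exp_one_gt_d9
    linarith
  rw [mul_zero] at hlim
  exact ge_of_tendsto' hlim key

theorem GrD.all (H : GrD T E D a) (j : ℕ) :
    ∀ v ∈ Icc 0 T, Gp a v ≤ j * (1 / 2) → ∀ x ∈ Icc 0 v, E x = 0 := by
  have h0 : (0 : ℝ) ∈ Icc 0 T := ⟨le_rfl, H.hT.le⟩
  have hG0 : Gp a 0 = 0 := by simp [Gp]
  have hE0 : ∀ x ∈ Icc (0 : ℝ) 0, E x = 0 := by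
    intro x hx
    have : x = 0 := le_antisymm hx.2 hx.1
    rw [this, H.hE 0 h0]
    simp
  induction j with
  | zero =>
    intro v hv hG
    exact H.half h0 hE0 v hv (by
      rw [hG0]
      have : Gp a v ≤ 0 := by simpa using hG
      linarith)
  | succ j ih =>
    intro v hv hG
    by_cases hj : Gp a v ≤ j * (1 / 2)
    · exact ih v hv hj
    · push Not at hj
      have hcont : ContinuousOn (Gp a) (Icc 0 v) := H.contG.mono (Icc_subset_Icc le_rfl hv.2)
      have hmem : (j : ℝ) * (1 / 2) ∈ Icc (Gp a 0) (Gp a v) := by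
        refine ⟨?_, hj.le⟩
        rw [hG0]; positivity
      obtain ⟨u, hu, hGu⟩ := intermediate_value_Icc hv.1 hcont hmem
      have huT : u ∈ Icc 0 T := ⟨hu.1, hu.2.trans hv.2⟩
      exact H.half huT (ih u huT hGu.le) v ⟨hu.2, hv.2⟩ (by
        push_cast at hG
        linarith)

end GrAux

open GrAux in
/-- GR -/
theorem t_Gr : StGr := by
  intro T C E D h hT hC hE0 hD hE hh0 hh hN t ht
  have H : GrD T E D (fun t => C * (1 + h t)) := by
    refine ⟨hT, hE0, hD, hE, fun t => mul_nonneg hC (by have := hh0 t; linarith), ?_, ?_⟩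
    · exact ((intervalIntegrable_const (c := (1 : ℝ))).add hh).const_mul C
    · intro N hN1
      filter_upwards [hN N hN1] with x hx
      calc D x ≤ C * (1 + Real.log N) * (1 + h x) * E x + C * (1 + h x) / N := hx
        _ = (1 + Real.log N) * (C * (1 + h x)) * E x + C * (1 + h x) / N := by ring
  obtain ⟨j, hj⟩ := exists_nat_ge (Gp (fun t => C * (1 + h t)) T * 2)
  exact H.all j T ⟨hT.le, le_rfl⟩ (by linarith) t ht

end Pool.Agent.R211.PK
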