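import Pool.Agent.R211.PK.Stm

set_option autoImplicit false

open Set Filter Topology MeasureTheory
open scoped ComplexConjugate ENNReal

namespace Pool.Agent.R211.PK

open Pool.Agent.R211.BQ

namespace InstAux

/-- bound for all finite triple sums -/
def Bd3 (a b c : K2 → ℝ) (B : ℝ) : Prop :=
  ∀ P : Finset (K2 × K2), ∑ p ∈ P, a p.1 * b (p.2 - p.1) * c p.2 ≤ B

lemma Bd3.swap {a b c : K2 → ℝ} {B : ℝ} (h : Bd3 a b c B) : Bd3 b a c B := by
  classical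
  intro P
  have hinj : Function.Injective (fun p : K2 × K2 => (p.2 - p.1, p.2)) := by
    rintro ⟨l, k⟩ ⟨l', k'⟩ h
    simp only [Prod.mk.injEq] at h
    obtain ⟨h1, h2⟩ := h
    subst h2
    have : l = l' := sub_right_injective h1
    rw [this]
  have h1 := h (P.image (fun p : K2 × K2 => (p.2 - p.1, p.2)))
  rw [Finset.sum_image (fun _ _ _ _ h => hinj h)] at h1
  refine le_trans (le_of_eq (Finset.sum_congr rfl fun p _ => ?_)) h1
  show b p.1 * a (p.2 - p.1) * c p.2 = a (p.2 - p.1) * b (p.2 - (p.2 - p.1)) * c p.2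
  rw [sub_sub_cancel]
  ring

lemma Bd3.add {a a' b c : K2 → ℝ} {B B' : ℝ} (h : Bd3 a b c B) (h' : Bd3 a' b c B') :
    Bd3 (fun k => a k + a' k) b c (B + B') := by
  intro P
  have h1 := h P
  have h2 := h' P
  have h3 : ∑ p ∈ P, (a p.1 + a' p.1) * b (p.2 - p.1) * c p.2
      = ∑ p ∈ P, a p.1 * b (p.2 - p.1) * c p.2 + ∑ p ∈ P, a' p.1 * b (p.2 - p.1) * c p.2 := by
    rw [← Finset.sum_add_distrib]
    refine Finset.sum_congr rfl fun p _ => ?_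
    ring
  simp only
  linarith

/-- the terms of the double sums -/
noncomputable def gg (w1 w2 φ : K2 → ℂ) (p : K2 × K2) : ℝ :=
  ((cf p.1 p.2 : ℂ) * w1 (p.1 - p.2) * w2 p.2 * conj (φ p.1)).re / (n2 p.1 : ℝ)

lemma abs_re_le (c : ℝ) (x y z : ℂ) : |((c : ℂ) * x * y * conj z).re| ≤ |c| * ‖x‖ * ‖y‖ * ‖z‖ := by
  refine (Complex.abs_re_le_norm _).trans ?_
  rw [norm_mul, norm_mul, norm_mul, Complex.norm_real, Real.norm_eq_abs, RCLike.norm_conj]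

lemma n2_zero' : (n2 (0 : K2) : ℝ) = 0 := by
  unfold n2
  simp

lemma gg_abs (w1 w2 φ : K2 → ℂ) (p : K2 × K2) :
    |gg w1 w2 φ p| ≤ ‖w2 p.2‖ * (‖w1 (p.1 - p.2)‖ / ln (p.1 - p.2)) * (‖φ p.1‖ / ln p.1) := by
  obtain ⟨k, l⟩ := p
  simp only
  have hR : 0 ≤ ‖w2 l‖ * (‖w1 (k - l)‖ / ln (k - l)) * (‖φ k‖ / ln k) :=
    mul_nonneg (mul_nonneg (norm_nonneg _) (div_nonneg (norm_nonneg _) (ln_nonneg _)))
      (div_nonneg (norm_nonneg _) (ln_nonneg _))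
  by_cases hk : k = 0
  · subst hk
    unfold gg
    simp only
    rw [n2_zero', div_zero, abs_zero]
    exact hR
  by_cases hkl : k - l = 0
  · have : l = k := (sub_eq_zero.1 hkl).symm
    subst this
    unfold gg
    simp only [cf_self]
    simp only [Complex.ofReal_zero, zero_mul, Complex.zero_re, zero_div, abs_zero]
    exact hR
  have hx := ln_pos hk
  have hd := ln_pos hkl
  unfold gg
  simp only
  rw [abs_div, ← ln_sq, abs_of_nonneg (sq_nonneg (ln k))]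
  have h1 := abs_re_le (cf k l) (w1 (k - l)) (w2 l) (φ k)
  have h2 := abs_cf_mul k l
  calc |((cf k l : ℂ) * w1 (k - l) * w2 l * conj (φ k)).re| / ln k ^ 2
      ≤ (|cf k l| * ‖w1 (k - l)‖ * ‖w2 l‖ * ‖φ k‖) / ln k ^ 2 := by gcongr
    _ = (|cf k l| * ln (k - l)) * (‖w1 (k - l)‖ * ‖w2 l‖ * ‖φ k‖ / (ln (k - l) * ln k ^ 2)) := by
        field_simp
    _ ≤ ln k * (‖w1 (k - l)‖ * ‖w2 l‖ * ‖φ k‖ / (ln (k - l) * ln k ^ 2)) :=
        mul_le_mul_of_nonneg_right h2 (by positivity)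
    _ = ‖w2 l‖ * (‖w1 (k - l)‖ / ln (k - l)) * (‖φ k‖ / ln k) := by
        field_simp

lemma of_sum_abs_le {f : K2 × K2 → ℝ} {B : ℝ}
    (h : ∀ P : Finset (K2 × K2), ∑ p ∈ P, |f p| ≤ B) :
    Summable f ∧ |∑' p, f p| ≤ B := by
  have hs : Summable fun p => |f p| := summable_of_sum_le (fun _ => abs_nonneg _) h
  refine ⟨hs.of_abs, ?_⟩
  have h1 : |∑' p, f p| ≤ ∑' p, |f p| := by
    have := norm_tsum_le_tsum_norm (f := f) (by simpa [Real.norm_eq_abs] using hs)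
    simpa [Real.norm_eq_abs] using this
  exact h1.trans (hs.tsum_le_of_sum_le h)

lemma gg_sum {w1 w2 φ : K2 → ℂ} {B : ℝ}
    (h : Bd3 (fun k => ‖w2 k‖) (fun k => ‖w1 k‖ / ln k) (fun k => ‖φ k‖ / ln k) B) :
    Summable (gg w1 w2 φ) ∧ |∑' p, gg w1 w2 φ p| ≤ B := by
  classical
  refine of_sum_abs_le fun P => ?_
  have h1 := h (P.image Prod.swap)
  rw [Finset.sum_image (fun _ _ _ _ h => Prod.swap_injective h)] at h1
  exact (Finset.sum_le_sum fun p _ => gg_abs w1 w2 φ p).trans h1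

lemma row {C D : ℝ} {w1 w2 : K2 → ℂ} (h1 : LB C w1) (h2 : LB D w2) (φ : K2 → ℂ) (k : K2) :
    HasSum (fun l => gg w1 w2 φ (k, l)) ((nlI w1 w2 k * conj (φ k)).re / (n2 k : ℝ)) := by
  have h := ((summable_nlI h1 h2 k).hasSum.mul_right (conj (φ k)))
  exact (Complex.hasSum_re h).div_const (n2 k : ℝ)

lemma total {C D : ℝ} {w1 w2 : K2 → ℂ} (h1 : LB C w1) (h2 : LB D w2) (φ : K2 → ℂ)
    (hs : Summable (gg w1 w2 φ)) :
    HasSum (fun k => (nlI w1 w2 k * conj (φ k)).re / (n2 k : ℝ)) (∑' p, gg w1 w2 φ p) :=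
  hs.hasSum.prod_fiberwise (fun k => row h1 h2 φ k)

/-- the involution -/
def ee : (K2 × K2) ≃ (K2 × K2) where
  toFun p := (p.2 - p.1, p.2)
  invFun p := (p.2 - p.1, p.2)
  left_inv p := by simp
  right_inv p := by simp

lemma gg_zero {Z : K2 → ℂ} (hZ : ∀ k, conj (Z k) = Z (-k)) : ∑' p, gg Z Z Z p = 0 := by
  have h := ee.tsum_eq (gg Z Z Z)
  have h2 : ∀ p, gg Z Z Z (ee p) = - gg Z Z Z p := by
    rintro ⟨k, l⟩
    show gg Z Z Z (l - k, l) = - gg Z Z Z (k, l)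
    unfold gg
    simp only
    have e1 : l - k - l = -k := by abel
    have e2 : conj (Z (l - k)) = Z (k - l) := by
      rw [hZ, neg_sub]
    have e3 : cf (l - k) l = -(cr k l : ℝ) / (n2 k : ℝ) := by
      unfold cf
      rw [e1, n2_neg]
      congr 1
      unfold cr
      simp only [Prod.fst_sub, Prod.snd_sub]
      push_cast
      ring
    have e4 : n2 (l - k) = n2 (k - l) := by
      rw [← n2_neg (k - l), neg_sub]
    rw [e1, e2, e3, e4, ← hZ k]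
    unfold cf
    have e5 : ((((-(cr k l : ℝ) / (n2 k : ℝ) : ℝ)) : ℂ) * conj (Z k) * Z l * Z (k - l)).re
        = (-(cr k l : ℝ) / (n2 k : ℝ)) * (Z (k - l) * Z l * conj (Z k)).re := by
      rw [show (((-(cr k l : ℝ) / (n2 k : ℝ) : ℝ)) : ℂ) * conj (Z k) * Z l * Z (k - l)
        = (((-(cr k l : ℝ) / (n2 k : ℝ) : ℝ)) : ℂ) * (Z (k - l) * Z l * conj (Z k)) by ring]
      exact Complex.re_ofReal_mul _ _
    have e6 : (((((cr k l : ℝ) / (n2 (k - l) : ℝ) : ℝ)) : ℂ) * Z (k - l) * Z l * conj (Z k)).re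
        = ((cr k l : ℝ) / (n2 (k - l) : ℝ)) * (Z (k - l) * Z l * conj (Z k)).re := by
      rw [show ((((cr k l : ℝ) / (n2 (k - l) : ℝ) : ℝ)) : ℂ) * Z (k - l) * Z l * conj (Z k)
        = ((((cr k l : ℝ) / (n2 (k - l) : ℝ) : ℝ)) : ℂ) * (Z (k - l) * Z l * conj (Z k)) by ring]
      exact Complex.re_ofReal_mul _ _
    rw [e5, e6]
    ring
  rw [tsum_congr h2, tsum_neg] at h
  linarith

lemma tri (k l : K2) : |ln k - ln l| ≤ ln (k - l) := by
  apply abs_le_of_sq_le_sq _ (ln_nonneg _)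
  have h1 : (n2 (k - l) : ℝ) = ln k ^ 2 + ln l ^ 2 - 2 * ((k.1 : ℝ) * l.1 + k.2 * l.2) := by
    rw [ln_sq, ln_sq]
    unfold n2
    simp only [Prod.fst_sub, Prod.snd_sub]
    push_cast
    ring
  have h2 : (k.1 : ℝ) * l.1 + k.2 * l.2 ≤ ln k * ln l := by
    apply le_of_abs_le
    rw [← Real.sqrt_sq (mul_nonneg (ln_nonneg k) (ln_nonneg l))]
    refine Real.abs_le_sqrt ?_
    rw [mul_pow, ln_sq, ln_sq]
    unfold n2
    push_cast
    nlinarith [sq_nonneg ((k.1 : ℝ) * l.2 - k.2 * l.1)]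
  rw [ln_sq (k - l), h1]
  nlinarith

lemma ln_neg' (k : K2) : ln (-k) = ln k := by
  unfold ln
  rw [n2_neg]

lemma cf_diff {k l : K2} (hk : k ≠ 0) (hl : l ≠ 0) :
    |cf k l| * |1 / (n2 k : ℝ) - 1 / (n2 l : ℝ)| ≤ 2 * (1 / ln k) * (1 / ln l) := by
  have hx := ln_pos hk
  have hy := ln_pos hl
  by_cases hkl : k - l = 0
  · have : l = k := (sub_eq_zero.1 hkl).symm
    subst this
    rw [cf_self, abs_zero, zero_mul]
    positivity
  have hd := ln_pos hkl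
  have c1 := abs_cr_le k l
  have c2 : |(cr k l : ℝ)| ≤ ln l * ln (k - l) := by
    have h := abs_cr_le l k
    rw [cr_swap k l] at h
    have e : ln (l - k) = ln (k - l) := by rw [← ln_neg' (k - l), neg_sub]
    rw [e] at h
    push_cast at h
    rwa [abs_neg] at h
  have t := tri k l
  have hcf : |cf k l| = |(cr k l : ℝ)| / ln (k - l) ^ 2 := by
    unfold cf
    rw [abs_div, ← ln_sq, abs_of_nonneg (sq_nonneg (ln (k - l)))]
  have hdiff : |1 / (n2 k : ℝ) - 1 / (n2 l : ℝ)|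
      ≤ ln (k - l) * (ln k + ln l) / (ln k ^ 2 * ln l ^ 2) := by
    rw [← ln_sq, ← ln_sq]
    have e : 1 / ln k ^ 2 - 1 / ln l ^ 2 = -((ln k - ln l) * (ln k + ln l)) / (ln k ^ 2 * ln l ^ 2) := by
      field_simp
      ring
    rw [e, abs_div, abs_neg, abs_mul, abs_of_pos (show 0 < ln k + ln l by positivity),
      abs_of_pos (show 0 < ln k ^ 2 * ln l ^ 2 by positivity)]
    gcongr
  rw [hcf]
  have h3 : |(cr k l : ℝ)| * (ln k + ln l) ≤ 2 * ln (k - l) * (ln k * ln l) := by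
    nlinarith
  calc |(cr k l : ℝ)| / ln (k - l) ^ 2 * |1 / (n2 k : ℝ) - 1 / (n2 l : ℝ)|
      ≤ |(cr k l : ℝ)| / ln (k - l) ^ 2 * (ln (k - l) * (ln k + ln l) / (ln k ^ 2 * ln l ^ 2)) := by
        gcongr
    _ = (|(cr k l : ℝ)| * (ln k + ln l)) * (1 / (ln (k - l) * (ln k ^ 2 * ln l ^ 2))) := by
        field_simp
    _ ≤ (2 * ln (k - l) * (ln k * ln l)) * (1 / (ln (k - l) * (ln k ^ 2 * ln l ^ 2))) := by
        gcongr
    _ = 2 * (1 / ln k) * (1 / ln l) := by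
        field_simp

lemma sym {w φ : K2 → ℂ} (hw : ∀ k, conj (w k) = w (-k)) (h0 : φ 0 = 0)
    (hs : Summable (gg w φ φ)) {B : ℝ}
    (h : Bd3 (fun k => ‖w k‖) (fun k => ‖φ k‖ / ln k) (fun k => ‖φ k‖ / ln k) B) :
    |∑' p, gg w φ φ p| ≤ B := by
  classical
  have hs' : Summable (fun p : K2 × K2 => gg w φ φ p.swap) := hs.prod_symm
  have e1 : ∑' p : K2 × K2, gg w φ φ p.swap = ∑' p, gg w φ φ p :=
    (Equiv.prodComm K2 K2).tsum_eq (gg w φ φ)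
  have e2 : ∑' p, (gg w φ φ p + gg w φ φ p.swap) = 2 * ∑' p, gg w φ φ p := by
    rw [hs.tsum_add hs', e1]
    ring
  have e3 : ∀ p : K2 × K2, |gg w φ φ p + gg w φ φ p.swap| ≤
      2 * (‖w (p.1 - p.2)‖ * (‖φ p.2‖ / ln p.2) * (‖φ p.1‖ / ln p.1)) := by
    rintro ⟨k, l⟩
    show |gg w φ φ (k, l) + gg w φ φ (l, k)| ≤ 2 * (‖w (k - l)‖ * (‖φ l‖ / ln l) * (‖φ k‖ / ln k))
    have hR : 0 ≤ 2 * (‖w (k - l)‖ * (‖φ l‖ / ln l) * (‖φ k‖ / ln k)) :=
      mul_nonneg (by norm_num) (mul_nonneg (mul_nonneg (norm_nonneg _)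
        (div_nonneg (norm_nonneg _) (ln_nonneg _))) (div_nonneg (norm_nonneg _) (ln_nonneg _)))
    by_cases hk : k = 0
    · subst hk
      have z1 : gg w φ φ (0, l) = 0 := by
        unfold gg
        simp [h0]
      have z2 : gg w φ φ (l, 0) = 0 := by
        unfold gg
        simp [h0]
      rw [z1, z2, add_zero, abs_zero]
      exact hR
    by_cases hl : l = 0
    · subst hl
      have z1 : gg w φ φ (0, k) = 0 := by
        unfold gg
        simp [h0]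
      have z2 : gg w φ φ (k, 0) = 0 := by
        unfold gg
        simp [h0]
      rw [z1, z2, add_zero, abs_zero]
      exact hR
    have hx := ln_pos hk
    have hy := ln_pos hl
    have a1 : ((cf l k : ℂ) * w (l - k) * φ k * conj (φ l)).re
        = -((cf k l : ℂ) * w (k - l) * φ l * conj (φ k)).re := by
      have b1 : w (l - k) = conj (w (k - l)) := by rw [hw, neg_sub]
      rw [cf_swap k l, b1]
      have b2 : ((-(cf k l) : ℝ) : ℂ) * conj (w (k - l)) * φ k * conj (φ l)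
          = -conj ((cf k l : ℂ) * w (k - l) * φ l * conj (φ k)) := by
        simp only [map_mul, Complex.conj_ofReal, Complex.conj_conj]
        push_cast
        ring
      rw [b2, Complex.neg_re, Complex.conj_re]
    have a2 : gg w φ φ (k, l) + gg w φ φ (l, k)
        = ((cf k l : ℂ) * w (k - l) * φ l * conj (φ k)).re * (1 / (n2 k : ℝ) - 1 / (n2 l : ℝ)) := by
      unfold gg
      simp only
      rw [a1]
      ring
    rw [a2, abs_mul]
    have a3 := abs_re_le (cf k l) (w (k - l)) (φ l) (φ k)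
    have a4 := cf_diff hk hl
    calc |((cf k l : ℂ) * w (k - l) * φ l * conj (φ k)).re| * |1 / (n2 k : ℝ) - 1 / (n2 l : ℝ)|
        ≤ (|cf k l| * ‖w (k - l)‖ * ‖φ l‖ * ‖φ k‖) * |1 / (n2 k : ℝ) - 1 / (n2 l : ℝ)| := by gcongr
      _ = (|cf k l| * |1 / (n2 k : ℝ) - 1 / (n2 l : ℝ)|) * (‖w (k - l)‖ * ‖φ l‖ * ‖φ k‖) := by ring
      _ ≤ (2 * (1 / ln k) * (1 / ln l)) * (‖w (k - l)‖ * ‖φ l‖ * ‖φ k‖) := by gcongr
      _ = 2 * (‖w (k - l)‖ * (‖φ l‖ / ln l) * (‖φ k‖ / ln k)) := by ring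
  have hinj : Function.Injective (fun p : K2 × K2 => (p.1 - p.2, p.1)) := by
    rintro ⟨k, l⟩ ⟨k', l'⟩ h
    simp only [Prod.mk.injEq] at h
    obtain ⟨h1, h2⟩ := h
    subst h2
    have : l = l' := sub_right_injective h1
    rw [this]
  have e4 := of_sum_abs_le (B := 2 * B) (f := fun p => gg w φ φ p + gg w φ φ p.swap) (fun P => by
    have h1 := h (P.image (fun p : K2 × K2 => (p.1 - p.2, p.1)))
    rw [Finset.sum_image (fun _ _ _ _ h => hinj h)] at h1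
    refine (Finset.sum_le_sum fun p _ => e3 p).trans ?_
    rw [← Finset.mul_sum]
    refine mul_le_mul_of_nonneg_left ?_ (by norm_num)
    refine le_trans (le_of_eq (Finset.sum_congr rfl fun p _ => ?_)) h1
    show ‖w (p.1 - p.2)‖ * (‖φ p.2‖ / ln p.2) * (‖φ p.1‖ / ln p.1)
      = ‖w (p.1 - p.2)‖ * (‖φ (p.1 - (p.1 - p.2))‖ / ln (p.1 - (p.1 - p.2))) * (‖φ p.1‖ / ln p.1)
    rw [sub_sub_cancel])
  have e5 := e4.2
  rw [e2, abs_mul, abs_of_pos (show (0 : ℝ) < 2 by norm_num)] at e5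
  linarith

/-- the scaled absolute values -/
noncomputable def sc (φ : K2 → ℂ) (k : K2) : ℝ := ‖φ k‖ / ln k

lemma sc_nonneg (φ : K2 → ℂ) (k : K2) : 0 ≤ sc φ k := div_nonneg (norm_nonneg _) (ln_nonneg _)

lemma ln_zero' : ln (0 : K2) = 0 := by
  unfold ln n2
  simp

lemma sc_zero (φ : K2 → ℂ) : sc φ 0 = 0 := by
  unfold sc
  rw [ln_zero', div_zero]

lemma n2_sc (φ : K2 → ℂ) (k : K2) : (n2 k : ℝ) * sc φ k ^ 2 ≤ ‖φ k‖ ^ 2 := by
  by_cases hk : k = 0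
  · subst hk
    rw [sc_zero]
    simp
  · have hx := ln_pos hk
    unfold sc
    rw [← ln_sq, div_pow]
    apply le_of_eq
    field_simp

lemma sc_le (φ : K2 → ℂ) (k : K2) : sc φ k ^ 2 ≤ ‖φ k‖ ^ 2 := by
  by_cases hk : k = 0
  · subst hk
    rw [sc_zero]
    simp
  · have h1 := n2_sc φ k
    have h2 : (1 : ℝ) ≤ n2 k := by exact_mod_cast one_le_n2 hk
    have h3 := sq_nonneg (sc φ k)
    nlinarith

lemma wt {φ : K2 → ℂ} {A E : ℝ} (hA : LB A φ) (hE : ∀ S : Finset K2, ∑ k ∈ S, sc φ k ^ 2 ≤ E)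
    (ρ : ℝ) (S : Finset K2) : ∑ k ∈ S, (ρ ^ 2 + n2 k) * sc φ k ^ 2 ≤ ρ ^ 2 * E + A := by
  have h1 : ∑ k ∈ S, (ρ ^ 2 + (n2 k : ℝ)) * sc φ k ^ 2
      = ρ ^ 2 * ∑ k ∈ S, sc φ k ^ 2 + ∑ k ∈ S, (n2 k : ℝ) * sc φ k ^ 2 := by
    rw [Finset.mul_sum, ← Finset.sum_add_distrib]
    refine Finset.sum_congr rfl fun k _ => ?_
    ring
  rw [h1]
  have h2 : ∑ k ∈ S, (n2 k : ℝ) * sc φ k ^ 2 ≤ A :=
    (Finset.sum_le_sum fun k _ => n2_sc φ k).trans (hA S)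
  have h3 := mul_le_mul_of_nonneg_left (hE S) (sq_nonneg ρ)
  linarith

lemma scE {φ : K2 → ℂ} {A : ℝ} (hA : LB A φ) (S : Finset K2) : ∑ k ∈ S, sc φ k ^ 2 ≤ A :=
  (Finset.sum_le_sum fun k _ => sc_le φ k).trans (hA S)

lemma LB_sub {A : ℝ} {u v : K2 → ℂ} (hu : LB A u) (hv : LB A v) :
    LB (4 * A) (fun k => u k - v k) := by
  intro S
  have h1 : ∀ k ∈ S, ‖u k - v k‖ ^ 2 ≤ 2 * ‖u k‖ ^ 2 + 2 * ‖v k‖ ^ 2 := by
    intro k _
    have h := norm_sub_le (u k) (v k)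
    have h0 := norm_nonneg (u k - v k)
    have h2 : ‖u k - v k‖ ^ 2 ≤ (‖u k‖ + ‖v k‖) ^ 2 := pow_le_pow_left₀ h0 h 2
    nlinarith [sq_nonneg (‖u k‖ - ‖v k‖)]
  refine (Finset.sum_le_sum h1).trans ?_
  rw [Finset.sum_add_distrib, ← Finset.mul_sum, ← Finset.mul_sum]
  linarith [hu S, hv S]

lemma of_sum_abs_le' {f : K2 → ℝ} {B : ℝ}
    (h : ∀ P : Finset K2, ∑ p ∈ P, |f p| ≤ B) :
    Summable f ∧ |∑' p, f p| ≤ B := by
  have hs : Summable fun p => |f p| := summable_of_sum_le (fun _ => abs_nonneg _) h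
  refine ⟨hs.of_abs, ?_⟩
  have h1 : |∑' p, f p| ≤ ∑' p, |f p| := by
    have := norm_tsum_le_tsum_norm (f := f) (by simpa [Real.norm_eq_abs] using hs)
    simpa [Real.norm_eq_abs] using this
  exact h1.trans (hs.tsum_le_of_sum_le h)

lemma amgm (x y ν : ℝ) (hν : 0 < ν) : 2 * x * y ≤ ν / 4 * x ^ 2 + 4 / ν * y ^ 2 := by
  have h : ν / 4 * x ^ 2 + 4 / ν * y ^ 2 - 2 * x * y = ν / 4 * (x - 4 / ν * y) ^ 2 := by
    field_simp
    ring
  have h2 : 0 ≤ ν / 4 * (x - 4 / ν * y) ^ 2 := by positivity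
  linarith

/-- the constant -/
noncomputable def CC (ν g M K K3 : ℝ) : ℝ :=
  4 * K * Real.sqrt M * (1 + 16 * K * Real.sqrt M / ν) + 4 / ν * g ^ 2 + 2 * K3 + 16 * K * M +
    4 / ν * K3 ^ 2 * M + 8 / ν * K ^ 2 * M + 32 / ν * K ^ 2 * M ^ 2 + 1

set_option maxHeartbeats 1000000 in
lemma numeric (ν g M K K3 N H ζ Rr X2 ρ : ℝ) (hν : 0 < ν) (hM : 0 ≤ M) (hK : 0 < K) (hK3 : 0 < K3)
    (hN : 1 ≤ N) (hH : 0 ≤ H) (hζ : 0 ≤ ζ) (hR : 0 ≤ Rr) (hX : 0 ≤ X2)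
    (hρ : ρ = 1 + 16 * K * Real.sqrt M / ν) :
    4 * (K / ρ * Real.sqrt M * Real.sqrt (ρ ^ 2 * ζ + X2) * Real.sqrt (ρ ^ 2 * ζ + X2)) +
      2 * (K3 * Real.sqrt ((1 + Real.log N) * H) * Real.sqrt Rr * Real.sqrt Rr +
        K / 1 * Real.sqrt (H / N ^ 2) * Real.sqrt (8 * M) * Real.sqrt (8 * M)) +
      2 * (K3 * Real.sqrt ((1 + Real.log N) * X2) * Real.sqrt M * Real.sqrt Rr +
        K / Real.sqrt N * Real.sqrt M * Real.sqrt (2 * X2) * Real.sqrt (N * Rr + 4 * M)) +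
      2 * (|g| * Real.sqrt X2 * Real.sqrt Rr) - 2 * ν * X2 ≤
    CC ν g M K K3 * (1 + Real.log N) * (1 + Real.sqrt H) * (ζ + Rr) +
      CC ν g M K K3 * (1 + Real.sqrt H) / N := by
  have hN0 : 0 < N := by linarith
  have hlog : 0 ≤ Real.log N := Real.log_nonneg hN
  obtain ⟨ℓ, hℓ⟩ : ∃ ℓ : ℝ, ℓ = 1 + Real.log N := ⟨_, rfl⟩
  obtain ⟨h, hh⟩ : ∃ h : ℝ, h = 1 + Real.sqrt H := ⟨_, rfl⟩
  have hℓ1 : 1 ≤ ℓ := by rw [hℓ]; linarith
  have hh1 : 1 ≤ h := by rw [hh]; linarith [Real.sqrt_nonneg H]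
  have hsM := Real.sqrt_nonneg M
  have hρ1 : 1 ≤ ρ := by
    rw [hρ]
    have : 0 ≤ 16 * K * Real.sqrt M / ν := by positivity
    linarith
  have hρ0 : 0 < ρ := by linarith
  -- n1
  have n1 : 4 * (K / ρ * Real.sqrt M * Real.sqrt (ρ ^ 2 * ζ + X2) * Real.sqrt (ρ ^ 2 * ζ + X2))
      ≤ 4 * K * Real.sqrt M * ρ * ζ + ν / 4 * X2 := by
    have e : Real.sqrt (ρ ^ 2 * ζ + X2) * Real.sqrt (ρ ^ 2 * ζ + X2) = ρ ^ 2 * ζ + X2 :=
      Real.mul_self_sqrt (by positivity)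
    have e1 : 4 * (K / ρ * Real.sqrt M * Real.sqrt (ρ ^ 2 * ζ + X2) * Real.sqrt (ρ ^ 2 * ζ + X2))
        = 4 * (K / ρ * Real.sqrt M * (ρ ^ 2 * ζ + X2)) := by
      rw [mul_assoc (K / ρ * Real.sqrt M), e]
    rw [e1]
    have e2 : 4 * (K / ρ * Real.sqrt M * (ρ ^ 2 * ζ + X2))
        = 4 * K * Real.sqrt M * ρ * ζ + (4 * (K * Real.sqrt M) / ρ) * X2 := by
      field_simp
    rw [e2]
    have e3 : 4 * (K * Real.sqrt M) / ρ ≤ ν / 4 := by
      rw [div_le_iff₀ hρ0, hρ]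
      have : ν / 4 * (1 + 16 * K * Real.sqrt M / ν) = ν / 4 + 4 * (K * Real.sqrt M) := by
        field_simp
        ring
      rw [this]
      linarith
    have e4 := mul_le_mul_of_nonneg_right e3 hX
    linarith
  -- n2
  have hsℓ : Real.sqrt ℓ ≤ ℓ := by
    rw [Real.sqrt_le_left (by linarith)]
    nlinarith
  have hsqH : Real.sqrt H ≤ h := by rw [hh]; linarith
  have n2' : 2 * (K3 * Real.sqrt ((1 + Real.log N) * H) * Real.sqrt Rr * Real.sqrt Rr +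
        K / 1 * Real.sqrt (H / N ^ 2) * Real.sqrt (8 * M) * Real.sqrt (8 * M))
      ≤ 2 * K3 * ℓ * h * Rr + 16 * K * M * h / N := by
    rw [← hℓ]
    have e1 : Real.sqrt Rr * Real.sqrt Rr = Rr := Real.mul_self_sqrt hR
    have e2 : Real.sqrt (8 * M) * Real.sqrt (8 * M) = 8 * M := Real.mul_self_sqrt (by positivity)
    have e3 : Real.sqrt (H / N ^ 2) = Real.sqrt H / N := by
      rw [Real.sqrt_div hH, Real.sqrt_sq hN0.le]
    have e4 : Real.sqrt (ℓ * H) = Real.sqrt ℓ * Real.sqrt H := Real.sqrt_mul (by linarith) _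
    rw [mul_assoc (K3 * Real.sqrt (ℓ * H)), e1, mul_assoc (K / 1 * Real.sqrt (H / N ^ 2)), e2, e3,
      e4]
    have e5 : Real.sqrt ℓ * Real.sqrt H ≤ ℓ * h :=
      mul_le_mul hsℓ hsqH (Real.sqrt_nonneg _) (by linarith)
    have e6 : K3 * (Real.sqrt ℓ * Real.sqrt H) * Rr ≤ K3 * (ℓ * h) * Rr := by gcongr
    have e7 : K / 1 * (Real.sqrt H / N) * (8 * M) ≤ K / 1 * (h / N) * (8 * M) := by gcongr
    have e8 : 2 * (K / 1 * (h / N) * (8 * M)) = 16 * K * M * h / N := by ring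
    linarith
  -- n3
  have n3 : 2 * (K3 * Real.sqrt ((1 + Real.log N) * X2) * Real.sqrt M * Real.sqrt Rr)
      ≤ ν / 4 * X2 + 4 / ν * K3 ^ 2 * M * ℓ * Rr := by
    rw [← hℓ]
    have e4 : Real.sqrt (ℓ * X2) = Real.sqrt ℓ * Real.sqrt X2 := Real.sqrt_mul (by linarith) _
    have e5 := amgm (Real.sqrt X2) (K3 * Real.sqrt ℓ * Real.sqrt M * Real.sqrt Rr) ν hν
    have e6 : (K3 * Real.sqrt ℓ * Real.sqrt M * Real.sqrt Rr) ^ 2 = K3 ^ 2 * ℓ * M * Rr := by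
      rw [mul_pow, mul_pow, mul_pow, Real.sq_sqrt hM, Real.sq_sqrt hR, Real.sq_sqrt (by linarith)]
    rw [e6, Real.sq_sqrt hX] at e5
    rw [e4]
    calc 2 * (K3 * (Real.sqrt ℓ * Real.sqrt X2) * Real.sqrt M * Real.sqrt Rr)
        = 2 * Real.sqrt X2 * (K3 * Real.sqrt ℓ * Real.sqrt M * Real.sqrt Rr) := by ring
      _ ≤ ν / 4 * X2 + 4 / ν * (K3 ^ 2 * ℓ * M * Rr) := e5
      _ = ν / 4 * X2 + 4 / ν * K3 ^ 2 * M * ℓ * Rr := by ring
  -- n4
  have n4 : 2 * (K / Real.sqrt N * Real.sqrt M * Real.sqrt (2 * X2) * Real.sqrt (N * Rr + 4 * M))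
      ≤ ν / 4 * X2 + 8 / ν * K ^ 2 * M * Rr + 32 / ν * K ^ 2 * M ^ 2 / N := by
    have e4 : Real.sqrt (2 * X2) = Real.sqrt 2 * Real.sqrt X2 := Real.sqrt_mul (by norm_num) _
    have e5 := amgm (Real.sqrt X2)
      (K / Real.sqrt N * Real.sqrt M * Real.sqrt 2 * Real.sqrt (N * Rr + 4 * M)) ν hν
    have e6 : (K / Real.sqrt N * Real.sqrt M * Real.sqrt 2 * Real.sqrt (N * Rr + 4 * M)) ^ 2
        = K ^ 2 / N * M * 2 * (N * Rr + 4 * M) := by
      rw [mul_pow, mul_pow, mul_pow, div_pow, Real.sq_sqrt hM, Real.sq_sqrt hN0.le,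
        Real.sq_sqrt (show (0 : ℝ) ≤ 2 by norm_num), Real.sq_sqrt (by positivity)]
    rw [e6, Real.sq_sqrt hX] at e5
    rw [e4]
    calc 2 * (K / Real.sqrt N * Real.sqrt M * (Real.sqrt 2 * Real.sqrt X2) *
          Real.sqrt (N * Rr + 4 * M))
        = 2 * Real.sqrt X2 *
          (K / Real.sqrt N * Real.sqrt M * Real.sqrt 2 * Real.sqrt (N * Rr + 4 * M)) := by ring
      _ ≤ ν / 4 * X2 + 4 / ν * (K ^ 2 / N * M * 2 * (N * Rr + 4 * M)) := e5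
      _ = ν / 4 * X2 + 8 / ν * K ^ 2 * M * Rr + 32 / ν * K ^ 2 * M ^ 2 / N := by
        field_simp
        ring
  -- n5
  have n5 : 2 * (|g| * Real.sqrt X2 * Real.sqrt Rr) ≤ ν / 4 * X2 + 4 / ν * g ^ 2 * Rr := by
    have e5 := amgm (Real.sqrt X2) (|g| * Real.sqrt Rr) ν hν
    rw [mul_pow, sq_abs, Real.sq_sqrt hX, Real.sq_sqrt hR] at e5
    calc 2 * (|g| * Real.sqrt X2 * Real.sqrt Rr) = 2 * Real.sqrt X2 * (|g| * Real.sqrt Rr) := by ring
      _ ≤ ν / 4 * X2 + 4 / ν * (g ^ 2 * Rr) := e5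
      _ = ν / 4 * X2 + 4 / ν * g ^ 2 * Rr := by ring
  rw [← hℓ, ← hh]
  rw [← hℓ] at n2' n3
  -- final comparison
  have hLH : 1 ≤ ℓ * h := one_le_mul_of_one_le_of_one_le hℓ1 hh1
  have hζR : ζ ≤ ζ + Rr := by linarith
  have hRζ : Rr ≤ ζ + Rr := by linarith
  have hsum0 : 0 ≤ ζ + Rr := by linarith
  have hD : ζ + Rr ≤ ℓ * h * (ζ + Rr) := le_mul_of_one_le_left hsum0 hLH
  have hhD : ζ + Rr ≤ h * (ζ + Rr) := le_mul_of_one_le_left hsum0 hh1
  have q1 : ζ ≤ ℓ * h * (ζ + Rr) := hζR.trans hD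
  have q2 : Rr ≤ ℓ * h * (ζ + Rr) := hRζ.trans hD
  have q3 : ℓ * Rr ≤ ℓ * h * (ζ + Rr) := by
    have : ℓ * Rr ≤ ℓ * (h * (ζ + Rr)) :=
      mul_le_mul_of_nonneg_left (hRζ.trans hhD) (by linarith)
    rwa [← mul_assoc] at this
  have q4 : ℓ * h * Rr ≤ ℓ * h * (ζ + Rr) := by
    apply mul_le_mul_of_nonneg_left hRζ (by positivity)
  have c1 : 4 * K * Real.sqrt M * ρ * ζ ≤ 4 * K * Real.sqrt M * ρ * (ℓ * h * (ζ + Rr)) :=
    mul_le_mul_of_nonneg_left q1 (by positivity)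
  have c2 : 2 * K3 * ℓ * h * Rr ≤ 2 * K3 * (ℓ * h * (ζ + Rr)) := by
    have := mul_le_mul_of_nonneg_left q4 (show 0 ≤ 2 * K3 by positivity)
    linarith
  have c3 : 4 / ν * K3 ^ 2 * M * ℓ * Rr ≤ 4 / ν * K3 ^ 2 * M * (ℓ * h * (ζ + Rr)) := by
    have := mul_le_mul_of_nonneg_left q3 (show 0 ≤ 4 / ν * K3 ^ 2 * M by positivity)
    linarith
  have c4 : 8 / ν * K ^ 2 * M * Rr ≤ 8 / ν * K ^ 2 * M * (ℓ * h * (ζ + Rr)) :=
    mul_le_mul_of_nonneg_left q2 (by positivity)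
  have c5 : 4 / ν * g ^ 2 * Rr ≤ 4 / ν * g ^ 2 * (ℓ * h * (ζ + Rr)) :=
    mul_le_mul_of_nonneg_left q2 (by positivity)
  have c6 : 32 / ν * K ^ 2 * M ^ 2 / N ≤ 32 / ν * K ^ 2 * M ^ 2 * h / N := by
    rw [div_le_div_iff_of_pos_right hN0]
    exact le_mul_of_one_le_right (by positivity) hh1
  have hLL : 0 ≤ ℓ * h * (ζ + Rr) := by positivity
  have hhN : 0 ≤ h / N := by positivity
  have key : CC ν g M K K3 * ℓ * h * (ζ + Rr) + CC ν g M K K3 * h / N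
      = (4 * K * Real.sqrt M * ρ + 4 / ν * g ^ 2 + 2 * K3 + 16 * K * M +
        4 / ν * K3 ^ 2 * M + 8 / ν * K ^ 2 * M + 32 / ν * K ^ 2 * M ^ 2 + 1) * (ℓ * h * (ζ + Rr))
      + (4 * K * Real.sqrt M * ρ + 4 / ν * g ^ 2 + 2 * K3 + 16 * K * M +
        4 / ν * K3 ^ 2 * M + 8 / ν * K ^ 2 * M + 32 / ν * K ^ 2 * M ^ 2 + 1) * (h / N) := by
    unfold CC
    rw [hρ]
    ring
  rw [key]
  have d1 : 0 ≤ (16 * K * M + 32 / ν * K ^ 2 * M ^ 2 + 1) * (ℓ * h * (ζ + Rr)) := by positivity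
  have d2 : 0 ≤ (4 * K * Real.sqrt M * ρ + 4 / ν * g ^ 2 + 2 * K3 +
        4 / ν * K3 ^ 2 * M + 8 / ν * K ^ 2 * M + 1) * (h / N) := by positivity
  have d3 : 16 * K * M * h / N = 16 * K * M * (h / N) := by ring
  have d4 : 32 / ν * K ^ 2 * M ^ 2 * h / N = 32 / ν * K ^ 2 * M ^ 2 * (h / N) := by ring
  rw [d4] at c6
  rw [d3] at n2'
  have hνX : 0 ≤ ν * X2 := by positivity
  linarith [n1, n2', n3, n4, n5, c1, c2, c3, c4, c5, c6, d1, d2, hνX]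

/-- the buoyancy term -/
noncomputable def bu (g : ℝ) (r Z : K2 → ℂ) (k : K2) : ℝ :=
  (Complex.I * ((g * k.1 : ℝ) : ℂ) * r k * conj (Z k)).re / (n2 k : ℝ)

lemma bu_abs (g : ℝ) (r Z : K2 → ℂ) (k : K2) : |bu g r Z k| ≤ |g| * (‖Z k‖ * sc r k) := by
  by_cases hk : k = 0
  · subst hk
    unfold bu
    rw [n2_zero', div_zero, abs_zero]
    exact mul_nonneg (abs_nonneg _) (mul_nonneg (norm_nonneg _) (sc_nonneg _ _))
  have hx := ln_pos hk
  have h1 : |(k.1 : ℝ)| ≤ ln k := by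
    refine Real.abs_le_sqrt ?_
    unfold n2
    push_cast
    nlinarith [sq_nonneg (k.2 : ℝ)]
  unfold bu sc
  rw [abs_div, ← ln_sq, abs_of_nonneg (sq_nonneg (ln k))]
  have h2 : |(Complex.I * ((g * k.1 : ℝ) : ℂ) * r k * conj (Z k)).re|
      ≤ |g| * |(k.1 : ℝ)| * ‖r k‖ * ‖Z k‖ := by
    refine (Complex.abs_re_le_norm _).trans ?_
    rw [norm_mul, norm_mul, norm_mul, Complex.norm_I, Complex.norm_real, Real.norm_eq_abs,
      RCLike.norm_conj, abs_mul, one_mul]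
  calc |(Complex.I * ((g * k.1 : ℝ) : ℂ) * r k * conj (Z k)).re| / ln k ^ 2
      ≤ (|g| * |(k.1 : ℝ)| * ‖r k‖ * ‖Z k‖) / ln k ^ 2 := by gcongr
    _ ≤ (|g| * ln k * ‖r k‖ * ‖Z k‖) / ln k ^ 2 := by gcongr
    _ = |g| * (‖Z k‖ * (‖r k‖ / ln k)) := by
      field_simp

lemma nl_diff1 {A B C : ℝ} {w w' : K2 → ℂ} (hw : LB A w) (hw' : LB B w')
    (hZ : LB C (fun k => w k - w' k)) (k : K2) :
    nlI w w k - nlI w' w' k = nlI w (fun k => w k - w' k) k + nlI (fun k => w k - w' k) w k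
      - nlI (fun k => w k - w' k) (fun k => w k - w' k) k := by
  have a := (summable_nlI hw hw k).hasSum.sub (summable_nlI hw' hw' k).hasSum
  have b := ((summable_nlI hw hZ k).hasSum.add (summable_nlI hZ hw k).hasSum).sub
    (summable_nlI hZ hZ k).hasSum
  have hf : (fun l => (cf k l : ℂ) * w (k - l) * w l - (cf k l : ℂ) * w' (k - l) * w' l)
      = (fun l => ((cf k l : ℂ) * w (k - l) * (w l - w' l)
        + (cf k l : ℂ) * (w (k - l) - w' (k - l)) * w l)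
        - (cf k l : ℂ) * (w (k - l) - w' (k - l)) * (w l - w' l)) := by
    funext l
    ring
  rw [hf] at a
  exact a.unique b

lemma nl_diff2 {A B C D E F : ℝ} {w w' f f' : K2 → ℂ} (hw : LB A w) (hw' : LB B w')
    (hf : LB C f) (hf' : LB D f') (hZ : LB E (fun k => w k - w' k))
    (hr : LB F (fun k => f k - f' k)) (k : K2) :
    nlI w' f' k - nlI w f k = -(nlI w (fun k => f k - f' k) k + nlI (fun k => w k - w' k) f' k) := by
  have a := (summable_nlI hw' hf' k).hasSum.sub (summable_nlI hw hf k).hasSum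
  have b := ((summable_nlI hw hr k).hasSum.add (summable_nlI hZ hf' k).hasSum).neg
  have hff : (fun l => (cf k l : ℂ) * w' (k - l) * f' l - (cf k l : ℂ) * w (k - l) * f l)
      = (fun l => -((cf k l : ℂ) * w (k - l) * (f l - f' l)
        + (cf k l : ℂ) * (w (k - l) - w' (k - l)) * f' l)) := by
    funext l
    ring
  rw [hff] at a
  exact a.unique b

/-- one row -/
noncomputable def rw' (w1 w2 φ : K2 → ℂ) (k : K2) : ℝ :=
  (nlI w1 w2 k * conj (φ k)).re / (n2 k : ℝ)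

lemma dt_eq {A B C D E F : ℝ} {w w' f f' : K2 → ℂ} (ν g : ℝ) (hw : LB A w) (hw' : LB B w')
    (hf : LB C f) (hf' : LB D f') (hZ : LB E (fun k => w k - w' k))
    (hr : LB F (fun k => f k - f' k)) (h0 : w 0 - w' 0 = 0) (k : K2) :
    dt ν g w f w' f' k =
      2 * (-rw' w (fun k => w k - w' k) (fun k => w k - w' k) k
        - rw' (fun k => w k - w' k) w (fun k => w k - w' k) k
        + rw' (fun k => w k - w' k) (fun k => w k - w' k) (fun k => w k - w' k) k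
        - ν * ‖w k - w' k‖ ^ 2 + bu g (fun k => f k - f' k) (fun k => w k - w' k) k
        - rw' w (fun k => f k - f' k) (fun k => f k - f' k) k
        - rw' (fun k => w k - w' k) f' (fun k => f k - f' k) k) := by
  have e1 : rI ν g w f k - rI ν g w' f' k = -(nlI w w k - nlI w' w' k)
      - ((ν * n2 k : ℝ) : ℂ) * (w k - w' k) + Complex.I * ((g * k.1 : ℝ) : ℂ) * (f k - f' k) := by
    unfold rI
    ring
  have e2 := nl_diff1 hw hw' hZ k
  have e3 := nl_diff2 hw hw' hf hf' hZ hr k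
  unfold dt
  rw [e1, e2, e3]
  have e4 : ((((ν * n2 k : ℝ) : ℂ) * (w k - w' k)) * conj (w k - w' k)).re / (n2 k : ℝ)
      = ν * ‖w k - w' k‖ ^ 2 := by
    by_cases hk : k = 0
    · subst hk
      rw [h0]
      simp
    · have hn : (n2 k : ℝ) ≠ 0 := by
        have h2 : (1 : ℝ) ≤ n2 k := by exact_mod_cast one_le_n2 hk
        linarith
      rw [mul_assoc, Complex.mul_conj, Complex.normSq_eq_norm_sq, ← Complex.ofReal_mul,
        Complex.ofReal_re]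
      field_simp
  rw [← e4]
  unfold rw' bu
  simp only [Complex.add_re, Complex.mul_re, Complex.sub_re, Complex.neg_re, Complex.sub_im,
    Complex.add_im, Complex.mul_im, Complex.neg_im, Complex.conj_re, Complex.conj_im,
    Complex.ofReal_re, Complex.ofReal_im, Complex.I_re, Complex.I_im]
  ring

end InstAux

open InstAux in
theorem t_Inst (hT1 : StT1) (hT2 : StT2) (hT3 : StT3) (_hAbs : StAbs) : StInst := by
  classical
  obtain ⟨K, hK, hT2⟩ := hT2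
  obtain ⟨K3, hK3, hT3⟩ := hT3
  intro ν g M hν
  by_cases hM : 0 ≤ M
  swap
  · exact ⟨1, one_pos, fun N _ H _ w f w' f' A _ _ => absurd A.bw.nonneg hM⟩
  have hCC : 0 < CC ν g M K K3 := by
    unfold CC
    positivity
  refine ⟨CC ν g M K K3, hCC, ?_⟩
  intro N hN H hH w f w' f' A A' hH'
  have hN0 : 0 < N := by linarith
  obtain ⟨Z, hZdef⟩ : ∃ Z : K2 → ℂ, Z = fun k => w k - w' k := ⟨_, rfl⟩
  obtain ⟨r, hrdef⟩ : ∃ r : K2 → ℂ, r = fun k => f k - f' k := ⟨_, rfl⟩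
  have hZ4 : LB (4 * M) Z := by
    rw [hZdef]
    exact LB_sub A.bw A'.bw
  have hr4 : LB (4 * M) r := by
    rw [hrdef]
    exact LB_sub A.bf A'.bf
  have Z0 : Z 0 = 0 := by
    rw [hZdef]
    simp [A.zw, A'.zw]
  have r0 : r 0 = 0 := by
    rw [hrdef]
    simp [A.zf, A'.zf]
  have cZ : ∀ k, conj (Z k) = Z (-k) := by
    intro k
    rw [hZdef]
    simp only [map_sub]
    rw [A.cjw, A'.cjw]
  have hsX : Summable fun k => ‖Z k‖ ^ 2 := hZ4.summable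
  obtain ⟨X2, hX2⟩ : ∃ X2 : ℝ, X2 = ∑' k, ‖Z k‖ ^ 2 := ⟨_, rfl⟩
  have hX0 : 0 ≤ X2 := by
    rw [hX2]
    exact tsum_nonneg fun _ => sq_nonneg _
  have hLX : LB X2 Z := fun S => by
    rw [hX2]
    exact hsX.sum_le_tsum S fun _ _ => sq_nonneg _
  have hsζ : Summable fun k => sc Z k ^ 2 := summable_of_sum_le (fun _ => sq_nonneg _) (scE hZ4)
  have hsR : Summable fun k => sc r k ^ 2 := summable_of_sum_le (fun _ => sq_nonneg _) (scE hr4)
  obtain ⟨ζ, hζ⟩ : ∃ ζ : ℝ, ζ = ∑' k, sc Z k ^ 2 := ⟨_, rfl⟩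
  obtain ⟨Rr, hRr⟩ : ∃ Rr : ℝ, Rr = ∑' k, sc r k ^ 2 := ⟨_, rfl⟩
  have hζ0 : 0 ≤ ζ := by
    rw [hζ]
    exact tsum_nonneg fun _ => sq_nonneg _
  have hR0 : 0 ≤ Rr := by
    rw [hRr]
    exact tsum_nonneg fun _ => sq_nonneg _
  have hζS : ∀ S : Finset K2, ∑ k ∈ S, sc Z k ^ 2 ≤ ζ := fun S => by
    rw [hζ]
    exact hsζ.sum_le_tsum S fun _ _ => sq_nonneg _
  have hRS : ∀ S : Finset K2, ∑ k ∈ S, sc r k ^ 2 ≤ Rr := fun S => by
    rw [hRr]
    exact hsR.sum_le_tsum S fun _ _ => sq_nonneg _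
  have hen : en2 w f w' f' = ζ + Rr := by
    unfold en2
    rw [hζ, hRr, ← hsζ.tsum_add hsR]
    refine tsum_congr fun k => ?_
    rw [hZdef, hrdef]
    unfold sc
    rw [div_pow, div_pow, ln_sq, add_div]
  obtain ⟨ρ, hρ⟩ : ∃ ρ : ℝ, ρ = 1 + 16 * K * Real.sqrt M / ν := ⟨_, rfl⟩
  have hρ1 : 1 ≤ ρ := by
    rw [hρ]
    have : 0 ≤ 16 * K * Real.sqrt M / ν := by positivity
    linarith
  have b1 : Bd3 (fun k => ‖w k‖) (sc Z) (sc Z)
      (K / ρ * Real.sqrt M * Real.sqrt (ρ ^ 2 * ζ + X2) * Real.sqrt (ρ ^ 2 * ζ + X2)) :=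
    fun P => hT2 ρ hρ1 (fun k => ‖w k‖) (sc Z) (sc Z) M _ _ (fun _ => norm_nonneg _)
      (sc_nonneg Z) (sc_nonneg Z) A.bw (wt hLX hζS ρ) (wt hLX hζS ρ) P
  -- b2
  have hwl : ∀ S : Finset K2, ∑ k ∈ S, (if (n2 k : ℝ) ≤ N ^ 2 then ‖w k‖ else 0)
      ≤ K3 * Real.sqrt ((1 + Real.log N) * H) := by
    intro S
    rw [← Finset.sum_filter]
    exact hT3 N hN (fun k => ‖w k‖) H (fun _ => norm_nonneg _) (by simp [A.zw]) hH' _
      (fun k hk => (Finset.mem_filter.1 hk).2)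
  have hwh : ∀ S : Finset K2, ∑ k ∈ S, (if (n2 k : ℝ) ≤ N ^ 2 then 0 else ‖w k‖) ^ 2
      ≤ H / N ^ 2 := by
    intro S
    have h1 : ∀ k ∈ S, (if (n2 k : ℝ) ≤ N ^ 2 then 0 else ‖w k‖) ^ 2
        ≤ (n2 k : ℝ) * ‖w k‖ ^ 2 / N ^ 2 := by
      intro k _
      have hn : (0 : ℝ) ≤ n2 k := by exact_mod_cast n2_nonneg k
      split_ifs with h
      · have : 0 ≤ (n2 k : ℝ) * ‖w k‖ ^ 2 / N ^ 2 := by positivity
        simpa using this
      · rw [le_div_iff₀ (by positivity)]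
        rw [not_le] at h
        have := mul_le_mul_of_nonneg_left h.le (sq_nonneg ‖w k‖)
        linarith
    refine (Finset.sum_le_sum h1).trans ?_
    rw [← Finset.sum_div]
    gcongr
    exact hH' S
  have b2l : Bd3 (fun k => if (n2 k : ℝ) ≤ N ^ 2 then ‖w k‖ else 0) (sc r) (sc r)
      (K3 * Real.sqrt ((1 + Real.log N) * H) * Real.sqrt Rr * Real.sqrt Rr) :=
    fun P => hT1 _ (sc r) (sc r) _ Rr Rr (fun k => by
      split_ifs
      · exact norm_nonneg _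
      · exact le_rfl) (sc_nonneg r) (sc_nonneg r) hwl hRS hRS P
  have h8 : ∀ S : Finset K2, ∑ k ∈ S, ((1 : ℝ) ^ 2 + n2 k) * sc r k ^ 2 ≤ 8 * M := fun S =>
    (wt hr4 (scE hr4) 1 S).trans (by linarith)
  have b2h : Bd3 (fun k => if (n2 k : ℝ) ≤ N ^ 2 then 0 else ‖w k‖) (sc r) (sc r)
      (K / 1 * Real.sqrt (H / N ^ 2) * Real.sqrt (8 * M) * Real.sqrt (8 * M)) :=
    fun P => hT2 1 le_rfl _ (sc r) (sc r) _ _ _ (fun k => by
      split_ifs
      · exact le_rfl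
      · exact norm_nonneg _) (sc_nonneg r) (sc_nonneg r) hwh h8 h8 P
  have b2 := b2l.add b2h
  have hw2 : (fun k => (if (n2 k : ℝ) ≤ N ^ 2 then ‖w k‖ else 0) +
      (if (n2 k : ℝ) ≤ N ^ 2 then 0 else ‖w k‖)) = fun k => ‖w k‖ := by
    funext k
    split_ifs <;> simp
  rw [hw2] at b2
  -- b3
  have hzl : ∀ S : Finset K2, ∑ k ∈ S, (if (n2 k : ℝ) ≤ N ^ 2 then sc Z k else 0)
      ≤ K3 * Real.sqrt ((1 + Real.log N) * X2) := by
    intro S
    rw [← Finset.sum_filter]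
    exact hT3 N hN (sc Z) X2 (sc_nonneg Z) (sc_zero Z)
      (fun S => (Finset.sum_le_sum fun k _ => n2_sc Z k).trans (hLX S)) _
      (fun k hk => (Finset.mem_filter.1 hk).2)
  have b3l : Bd3 (fun k => if (n2 k : ℝ) ≤ N ^ 2 then sc Z k else 0) (fun k => ‖f' k‖) (sc r)
      (K3 * Real.sqrt ((1 + Real.log N) * X2) * Real.sqrt M * Real.sqrt Rr) :=
    fun P => hT1 _ (fun k => ‖f' k‖) (sc r) _ M Rr (fun k => by
      split_ifs
      · exact sc_nonneg _ _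
      · exact le_rfl) (fun _ => norm_nonneg _) (sc_nonneg r) hzl A'.bf hRS P
  have hzh : ∀ S : Finset K2, ∑ k ∈ S, (Real.sqrt N ^ 2 + n2 k) *
      (if (n2 k : ℝ) ≤ N ^ 2 then 0 else sc Z k) ^ 2 ≤ 2 * X2 := by
    intro S
    have h1 : ∀ k ∈ S, (Real.sqrt N ^ 2 + (n2 k : ℝ)) *
        (if (n2 k : ℝ) ≤ N ^ 2 then 0 else sc Z k) ^ 2 ≤ 2 * ‖Z k‖ ^ 2 := by
      intro k _
      split_ifs with h
      · have := sq_nonneg ‖Z k‖
        simp
      · rw [not_le] at h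
        rw [Real.sq_sqrt hN0.le]
        have h2 := n2_sc Z k
        have h3 : N ≤ N ^ 2 := by nlinarith
        have h4 := sq_nonneg (sc Z k)
        have h5 : (N + (n2 k : ℝ)) * sc Z k ^ 2 ≤ (2 * (n2 k : ℝ)) * sc Z k ^ 2 :=
          mul_le_mul_of_nonneg_right (by linarith) h4
        linarith
    refine (Finset.sum_le_sum h1).trans ?_
    rw [← Finset.mul_sum]
    have := hLX S
    linarith
  have hsN : 1 ≤ Real.sqrt N := Real.one_le_sqrt.2 hN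
  have hcr : ∀ S : Finset K2, ∑ k ∈ S, (Real.sqrt N ^ 2 + n2 k) * sc r k ^ 2 ≤ N * Rr + 4 * M :=
    fun S => (wt hr4 hRS (Real.sqrt N) S).trans (by rw [Real.sq_sqrt hN0.le])
  have b3h : Bd3 (fun k => ‖f' k‖) (fun k => if (n2 k : ℝ) ≤ N ^ 2 then 0 else sc Z k) (sc r)
      (K / Real.sqrt N * Real.sqrt M * Real.sqrt (2 * X2) * Real.sqrt (N * Rr + 4 * M)) :=
    fun P => hT2 (Real.sqrt N) hsN (fun k => ‖f' k‖) _ (sc r) M _ _ (fun _ => norm_nonneg _)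
      (fun k => by
      split_ifs
      · exact le_rfl
      · exact sc_nonneg _ _) (sc_nonneg r) A'.bf hzh hcr P
  have b3 := b3l.add b3h.swap
  have hz2 : (fun k => (if (n2 k : ℝ) ≤ N ^ 2 then sc Z k else 0) +
      (if (n2 k : ℝ) ≤ N ^ 2 then 0 else sc Z k)) = sc Z := by
    funext k
    split_ifs <;> simp
  rw [hz2] at b3
  have b3' := b3.swap
  -- general summability
  have gen : ∀ {B1 B2 B3 : ℝ} {u v φ : K2 → ℂ}, LB B1 u → LB B2 v → LB B3 φ →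
      Summable (gg v u φ) := by
    intro B1 B2 B3 u v φ hu hv hφ
    have hb : Bd3 (fun k => ‖u k‖) (sc v) (sc φ)
        (K / 1 * Real.sqrt B1 * Real.sqrt (1 ^ 2 * B2 + B2) * Real.sqrt (1 ^ 2 * B3 + B3)) :=
      fun P => hT2 1 le_rfl (fun k => ‖u k‖) (sc v) (sc φ) B1 _ _ (fun _ => norm_nonneg _)
        (sc_nonneg v) (sc_nonneg φ) hu (wt hv (scE hv) 1) (wt hφ (scE hφ) 1) P
    exact (gg_sum hb).1
  have g1 : Summable (gg w Z Z) := gen hZ4 A.bw hZ4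
  have g2 := gg_sum (w1 := Z) (w2 := w) (φ := Z) b1
  have g3 : Summable (gg Z Z Z) := gen hZ4 hZ4 hZ4
  have g4 : Summable (gg w r r) := gen hr4 A.bw hr4
  have g5 := gg_sum (w1 := Z) (w2 := f') (φ := r) b3'
  have s1 := total A.bw hZ4 Z g1
  have s2 := total hZ4 A.bw Z g2.1
  have s3 := total hZ4 hZ4 Z g3
  rw [gg_zero cZ] at s3
  have s4 := total A.bw hr4 r g4
  have s5 := total hZ4 A'.bf r g5.1
  have t1 := sym A.cjw Z0 g1 b1
  have t4 := sym A.cjw r0 g4 b2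
  have hbu := of_sum_abs_le' (f := bu g r Z) (B := |g| * Real.sqrt X2 * Real.sqrt Rr) (fun P => by
    refine (Finset.sum_le_sum fun k _ => bu_abs g r Z k).trans ?_
    rw [← Finset.mul_sum, mul_assoc]
    refine mul_le_mul_of_nonneg_left ?_ (abs_nonneg _)
    refine (Real.sum_mul_le_sqrt_mul_sqrt P _ _).trans ?_
    exact mul_le_mul (Real.sqrt_le_sqrt (hLX P)) (Real.sqrt_le_sqrt (hRS P))
      (Real.sqrt_nonneg _) (Real.sqrt_nonneg _))
  have sb := hbu.1.hasSum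
  have sv : HasSum (fun k => ν * ‖Z k‖ ^ 2) (ν * X2) := by
    rw [hX2]
    exact hsX.hasSum.mul_left ν
  have hdt : (fun k => dt ν g w f w' f' k) = fun k =>
      2 * (-rw' w Z Z k - rw' Z w Z k + rw' Z Z Z k - ν * ‖Z k‖ ^ 2 + bu g r Z k
        - rw' w r r k - rw' Z f' r k) := by
    funext k
    rw [hZdef, hrdef]
    exact dt_eq ν g A.bw A'.bw A.bf A'.bf (LB_sub A.bw A'.bw) (LB_sub A.bf A'.bf)
      (by rw [A.zw, A'.zw, sub_zero]) k
  have stot := (((((((s1.neg.sub s2).add s3).sub sv).add sb).sub s4).sub s5)).mul_left 2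
  have htot : ∑' k, dt ν g w f w' f' k = 2 * (-(∑' p, gg w Z Z p) - (∑' p, gg Z w Z p) + 0
      - ν * X2 + (∑' k, bu g r Z k) - (∑' p, gg w r r p) - (∑' p, gg Z f' r p)) := by
    rw [hdt]
    exact stot.tsum_eq
  rw [htot, hen]
  have hnum := numeric ν g M K K3 N H ζ Rr X2 ρ hν hM hK hK3 hN hH hζ0 hR0 hX0 hρ
  have u1 := (abs_le.1 t1).1
  have u2 := (abs_le.1 g2.2).1
  have u4 := (abs_le.1 t4).1
  have u5 := (abs_le.1 g5.2).1
  have u6 := (abs_le.1 hbu.2).2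
  linarith

end Pool.Agent.R211.PK
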