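import Pool.Agent.R211.PK.Stm

/-!
Project PK: a trilinear term, absorbed.
-/

set_option autoImplicit false

namespace Pool.Agent.R211.PK

open Finset Pool.Agent.R211.BQ

namespace J4Aux

theorem n2pos {k : K2} (hk : k ≠ 0) : (1 : ℝ) ≤ n2 k := by
  have h : 1 ≤ n2 k := by
    unfold n2
    rcases eq_or_ne k.1 0 with h1 | h1
    · have h2 : k.2 ≠ 0 := fun h => hk (Prod.ext h1 h)
      have := sq_nonneg k.1
      have h3 : 0 < k.2 ^ 2 := by positivity
      omega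
    · have := sq_nonneg k.2
      have h3 : 0 < k.1 ^ 2 := by positivity
      omega
  exact_mod_cast h

theorem n2nn (k : K2) : (0 : ℝ) ≤ n2 k := by
  have : 0 ≤ n2 k := by unfold n2; positivity
  exact_mod_cast this

theorem sqln (z : ℝ) (k : K2) : (z / ln k) ^ 2 = z ^ 2 / n2 k := by
  unfold ln
  rw [div_pow, Real.sq_sqrt (n2nn k)]

theorem le_hasSum {f : K2 → ℝ} {a : ℝ} (h : HasSum f a) (h0 : ∀ k, 0 ≤ f k) (S : Finset K2) :
    ∑ k ∈ S, f k ≤ a := sum_le_hasSum S (fun k _ => h0 k) h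

end J4Aux

open J4Aux

theorem j4 (hT2 : StT2) (M ε : ℝ) (hε : 0 < ε) : ∃ C : ℝ, 0 ≤ C ∧ ∀ (w Z : K2 → ℂ) (X s : ℝ), Z 0 = 0 → LB M w →
    HasSum (fun k => ‖Z k‖ ^ 2) X → HasSum (fun k => ‖Z k‖ ^ 2 / n2 k) s →
    ∀ P : Finset (K2 × K2), ∑ p ∈ P, ‖w p.1‖ * (‖Z (p.2 - p.1)‖ / ln (p.2 - p.1)) * (‖Z p.2‖ / ln p.2) ≤ ε * X + C * s := by
  obtain ⟨K, hK, hT⟩ := hT2
  refine ⟨K ^ 2 * |M| / ε, by positivity, ?_⟩
  intro w Z X s hZ0 hw hX hs P
  have hM : 0 ≤ M := hw.nonneg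
  have hn : ∀ k, 0 ≤ ‖Z k‖ ^ 2 / (n2 k : ℝ) := fun k => div_nonneg (sq_nonneg _) (n2nn k)
  have hX0 : 0 ≤ X := hX.nonneg fun k => sq_nonneg _
  have hs0 : 0 ≤ s := hs.nonneg hn
  have hsX : s ≤ X := by
    refine hasSum_le (fun k => ?_) hs hX
    rcases eq_or_ne k 0 with hk | hk
    · rw [hk, hZ0]; simp
    · exact div_le_self (sq_nonneg _) (n2pos hk)
  rcases hs0.eq_or_lt with hs1 | hs1
  · -- `s = 0`
    have hz : ∀ k, Z k = 0 := by
      intro k
      rcases eq_or_ne k 0 with hk | hk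
      · rw [hk, hZ0]
      · have h1 : ‖Z k‖ ^ 2 / (n2 k : ℝ) ≤ s := by
          have := le_hasSum hs hn {k}
          rwa [Finset.sum_singleton] at this
        have h2 : ‖Z k‖ ^ 2 / (n2 k : ℝ) = 0 := le_antisymm (by linarith) (hn k)
        have h3 : (n2 k : ℝ) ≠ 0 := by linarith [n2pos hk]
        rw [div_eq_zero_iff] at h2
        rcases h2 with h2 | h2
        · exact norm_eq_zero.1 (pow_eq_zero_iff (two_ne_zero) |>.1 h2)
        · exact absurd h2 h3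
    have h4 : ∑ p ∈ P, ‖w p.1‖ * (‖Z (p.2 - p.1)‖ / ln (p.2 - p.1)) * (‖Z p.2‖ / ln p.2) = 0 := by
      refine Finset.sum_eq_zero fun p _ => ?_
      rw [hz p.2]; simp
    rw [h4]
    positivity
  · have hXp : 0 < X := lt_of_lt_of_le hs1 hsX
    set x := √X with hx
    set y := √s with hy
    have hx0 : 0 < x := Real.sqrt_pos.2 hXp
    have hy0 : 0 < y := Real.sqrt_pos.2 hs1
    have hx2 : x ^ 2 = X := Real.sq_sqrt hX0
    have hy2 : y ^ 2 = s := Real.sq_sqrt hs0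
    have hyx : y ≤ x := Real.sqrt_le_sqrt hsX
    have hρ : 1 ≤ x / y := by rw [le_div_iff₀ hy0]; linarith
    have hB : ∀ S : Finset K2, ∑ k ∈ S, ((x / y) ^ 2 + n2 k) * (‖Z k‖ / ln k) ^ 2 ≤ 2 * X := by
      intro S
      have e1 : ∀ k, ((x / y) ^ 2 + n2 k) * (‖Z k‖ / ln k) ^ 2 ≤
          (x / y) ^ 2 * (‖Z k‖ ^ 2 / n2 k) + ‖Z k‖ ^ 2 := by
        intro k
        rw [sqln]
        rcases eq_or_ne k 0 with hk | hk
        · rw [hk, hZ0]; simp
        · have h3 : (n2 k : ℝ) ≠ 0 := by linarith [n2pos hk]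
          refine le_of_eq ?_
          field_simp
      calc ∑ k ∈ S, ((x / y) ^ 2 + n2 k) * (‖Z k‖ / ln k) ^ 2 ≤
            ∑ k ∈ S, ((x / y) ^ 2 * (‖Z k‖ ^ 2 / n2 k) + ‖Z k‖ ^ 2) :=
            Finset.sum_le_sum fun k _ => e1 k
        _ = (x / y) ^ 2 * ∑ k ∈ S, ‖Z k‖ ^ 2 / n2 k + ∑ k ∈ S, ‖Z k‖ ^ 2 := by
            rw [Finset.sum_add_distrib, Finset.mul_sum]
        _ ≤ (x / y) ^ 2 * s + X :=
            add_le_add (mul_le_mul_of_nonneg_left (le_hasSum hs hn S) (sq_nonneg _))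
              (le_hasSum hX (fun k => sq_nonneg _) S)
        _ = 2 * X := by
            rw [div_pow, hx2, hy2, div_mul_cancel₀ _ hs1.ne']
            ring
    have h1 := hT (x / y) hρ (fun k => ‖w k‖) (fun k => ‖Z k‖ / ln k) (fun k => ‖Z k‖ / ln k)
      M (2 * X) (2 * X) (fun k => norm_nonneg _)
      (fun k => div_nonneg (norm_nonneg _) (ln_nonneg k))
      (fun k => div_nonneg (norm_nonneg _) (ln_nonneg k)) hw hB hB P
    refine h1.trans ?_
    have h2 : √(2 * X) * √(2 * X) = 2 * X := Real.mul_self_sqrt (by positivity)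
    have h3 : √M * √M = M := Real.mul_self_sqrt hM
    have e : K / (x / y) * √M * √(2 * X) * √(2 * X) = 2 * K * √M * x * y := by
      calc K / (x / y) * √M * √(2 * X) * √(2 * X) = K / (x / y) * √M * (√(2 * X) * √(2 * X)) := by
            ring
        _ = K / (x / y) * √M * (2 * x ^ 2) := by rw [h2, hx2]
        _ = 2 * K * √M * x * y := by field_simp
    rw [e, abs_of_nonneg hM]
    have h4 : 0 ≤ (ε * x - K * √M * y) ^ 2 := sq_nonneg _
    have h5 : ε * (2 * K * √M * x * y) ≤ ε * (ε * X + K ^ 2 * M / ε * s) := by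
      have e2 : ε * (ε * X + K ^ 2 * M / ε * s) = ε ^ 2 * X + K ^ 2 * M * s := by
        field_simp
      have e3 : (ε * x - K * √M * y) ^ 2 =
          ε ^ 2 * x ^ 2 + K ^ 2 * (√M * √M) * y ^ 2 - ε * (2 * K * √M * x * y) := by ring
      rw [e3, h3, hx2, hy2] at h4
      rw [e2]
      linarith
    exact le_of_mul_le_mul_left h5 hε

end Pool.Agent.R211.PK
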