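import Pool.Agent.R211.PK.Stm

set_option autoImplicit false

open Set Filter Topology MeasureTheory
open scoped ComplexConjugate ENNReal

namespace Pool.Agent.R211.PK

open Pool.Agent.R211.BQ

namespace J5Aux

lemma n2one {k : K2} (hk : k ≠ 0) : (1:ℝ) ≤ n2 k := by
  have h : (1:ℤ) ≤ n2 k := by
    unfold n2
    by_contra h
    apply hk
    have h1 : k.1 ^ 2 = 0 := by nlinarith [sq_nonneg k.1, sq_nonneg k.2]
    have h2 : k.2 ^ 2 = 0 := by nlinarith [sq_nonneg k.1, sq_nonneg k.2]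
    exact Prod.ext (pow_eq_zero_iff two_ne_zero |>.mp h1) (pow_eq_zero_iff two_ne_zero |>.mp h2)
  exact_mod_cast h

lemma n2nn (k : K2) : (0:ℝ) ≤ n2 k := by
  exact_mod_cast n2_nonneg k

lemma lnsq (k : K2) : ln k ^ 2 = (n2 k : ℝ) := ln_sq k

lemma lnnn (k : K2) : 0 ≤ ln k := Real.sqrt_nonneg _

end J5Aux

open J5Aux

theorem j5 (hT1 : StT1) (hT2 : StT2) (hT3 : StT3) (M : ℝ) : ∃ C : ℝ, 0 ≤ C ∧ ∀ N : ℝ, 1 ≤ N →
    ∀ H : ℝ, 0 ≤ H → ∀ (w r : K2 → ℂ) (s : ℝ),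
    w 0 = 0 → r 0 = 0 → LB M r → (∀ S : Finset K2, ∑ k ∈ S, n2 k * ‖w k‖ ^ 2 ≤ H) →
    HasSum (fun k => ‖r k‖ ^ 2 / n2 k) s →
    ∀ P : Finset (K2 × K2),
      ∑ p ∈ P, ‖w p.1‖ * (‖r (p.2 - p.1)‖ / ln (p.2 - p.1)) * (‖r p.2‖ / ln p.2) ≤
      C * (1 + Real.log N) * Real.sqrt H * s + C * Real.sqrt H / N := by
  classical
  obtain ⟨Ka, hKa, h2⟩ := hT2
  obtain ⟨Kb, hKb, h3⟩ := hT3
  refine ⟨Kb + Ka * (2 * |M|), by positivity, ?_⟩
  intro N hN H hH w r s hw0 hr0 hr hw hs P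
  have hN0 : 0 < N := by linarith
  have hM : 0 ≤ M := by
    have := hr ∅
    simpa using this
  set lo : K2 → ℝ := fun k => if (n2 k : ℝ) ≤ N ^ 2 then ‖w k‖ else 0 with hlo
  set hi : K2 → ℝ := fun k => if (n2 k : ℝ) ≤ N ^ 2 then 0 else ‖w k‖ with hhi
  set b : K2 → ℝ := fun k => ‖r k‖ / ln k with hb
  have hlo0 : ∀ k, 0 ≤ lo k := fun k => by
    simp only [hlo]; split_ifs
    · exact norm_nonneg _
    · exact le_rfl
  have hhi0 : ∀ k, 0 ≤ hi k := fun k => by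
    simp only [hhi]; split_ifs
    · exact le_rfl
    · exact norm_nonneg _
  have hb0 : ∀ k, 0 ≤ b k := fun k => div_nonneg (norm_nonneg _) (lnnn k)
  have hb2 : ∀ k, b k ^ 2 = ‖r k‖ ^ 2 / n2 k := fun k => by
    simp only [hb]; rw [div_pow, lnsq]
  have hsum : ∀ k, ‖w k‖ = lo k + hi k := fun k => by
    simp only [hlo, hhi]; split_ifs <;> simp
  have hlog : 0 ≤ Real.log N := Real.log_nonneg hN
  have hs0 : 0 ≤ s := hs.nonneg (fun k => div_nonneg (sq_nonneg _) (n2nn k))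
  -- low part
  have L1 : ∀ S : Finset K2, ∑ k ∈ S, lo k ≤ Kb * ((1 + Real.log N) * Real.sqrt H) := by
    intro S
    have e1 : ∑ k ∈ S, lo k = ∑ k ∈ S.filter (fun k => (n2 k : ℝ) ≤ N ^ 2), lo k := by
      rw [Finset.sum_filter]
      apply Finset.sum_congr rfl
      intro k _
      simp only [hlo]
      split_ifs <;> rfl
    have e2 := h3 N hN lo H hlo0 (by simp [hlo, hw0]) (fun S => by
      refine le_trans (Finset.sum_le_sum (fun k _ => ?_)) (hw S)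
      apply mul_le_mul_of_nonneg_left _ (n2nn k)
      simp only [hlo]
      split_ifs
      · exact le_rfl
      · simp) (S.filter (fun k => (n2 k : ℝ) ≤ N ^ 2))
      (fun k hk => (Finset.mem_filter.mp hk).2)
    rw [e1]
    refine e2.trans ?_
    apply mul_le_mul_of_nonneg_left _ hKb.le
    rw [Real.sqrt_mul (by linarith)]
    apply mul_le_mul_of_nonneg_right _ (Real.sqrt_nonneg _)
    rw [Real.sqrt_le_left (by linarith)]
    nlinarith
  have L2 : ∀ S : Finset K2, ∑ k ∈ S, b k ^ 2 ≤ s := by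
    intro S
    rw [Finset.sum_congr rfl (fun k _ => hb2 k)]
    exact sum_le_hasSum S (fun k _ => div_nonneg (sq_nonneg _) (n2nn k)) hs
  have L3 := hT1 lo b b (Kb * ((1 + Real.log N) * Real.sqrt H)) s s hlo0 hb0 hb0 L1 L2 L2 P
  rw [mul_assoc, Real.mul_self_sqrt hs0] at L3
  -- high part
  have H1 : ∀ S : Finset K2, ∑ k ∈ S, hi k ^ 2 ≤ H / N ^ 2 := by
    intro S
    rw [le_div_iff₀ (by positivity), Finset.sum_mul]
    refine le_trans (Finset.sum_le_sum (fun k _ => ?_)) (hw S)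
    simp only [hhi]
    split_ifs with h
    · have := mul_nonneg (n2nn k) (sq_nonneg ‖w k‖)
      simpa using this
    · push Not at h
      rw [mul_comm]
      exact mul_le_mul_of_nonneg_right h.le (sq_nonneg _)
  have H2 : ∀ S : Finset K2, ∑ k ∈ S, ((1:ℝ) ^ 2 + n2 k) * b k ^ 2 ≤ 2 * M := by
    intro S
    have e1 : ∑ k ∈ S, ((1:ℝ) ^ 2 + n2 k) * b k ^ 2 ≤ ∑ k ∈ S, 2 * ‖r k‖ ^ 2 := by
      apply Finset.sum_le_sum
      intro k _
      rw [hb2]
      by_cases hk : k = 0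
      · rw [hk, hr0]; simp
      · have h1 := n2one hk
        rw [mul_div_assoc', div_le_iff₀ (by linarith)]
        nlinarith [sq_nonneg ‖r k‖]
    refine e1.trans ?_
    rw [← Finset.mul_sum]
    exact mul_le_mul_of_nonneg_left (hr S) (by norm_num)
  have H3 := h2 1 le_rfl hi b b (H / N ^ 2) (2 * M) (2 * M) hhi0 hb0 hb0 H1 H2 H2 P
  rw [mul_assoc, Real.mul_self_sqrt (by positivity), Real.sqrt_div hH, Real.sqrt_sq hN0.le] at H3
  have key : ∑ p ∈ P, ‖w p.1‖ * (‖r (p.2 - p.1)‖ / ln (p.2 - p.1)) * (‖r p.2‖ / ln p.2) =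
      ∑ p ∈ P, lo p.1 * b (p.2 - p.1) * b p.2 + ∑ p ∈ P, hi p.1 * b (p.2 - p.1) * b p.2 := by
    rw [← Finset.sum_add_distrib]
    apply Finset.sum_congr rfl
    intro p _
    rw [hsum]
    ring
  rw [key]
  have hsH := Real.sqrt_nonneg H
  have t1 : Kb * ((1 + Real.log N) * Real.sqrt H) * s ≤
      (Kb + Ka * (2 * |M|)) * (1 + Real.log N) * Real.sqrt H * s := by
    have : 0 ≤ Ka * (2 * |M|) * ((1 + Real.log N) * Real.sqrt H * s) := by positivity
    nlinarith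
  have t2 : Ka / 1 * (Real.sqrt H / N) * (2 * M) ≤ (Kb + Ka * (2 * |M|)) * Real.sqrt H / N := by
    rw [abs_of_nonneg hM]
    have h5 : 0 ≤ Kb * (Real.sqrt H / N) := by positivity
    have e : (Kb + Ka * (2 * M)) * Real.sqrt H / N =
        Kb * (Real.sqrt H / N) + Ka / 1 * (Real.sqrt H / N) * (2 * M) := by ring
    rw [e]; linarith
  linarith

end Pool.Agent.R211.PK
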