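import Pool.Agent.R211.PK.Stm

set_option autoImplicit false

open Set Filter Topology MeasureTheory
open scoped ComplexConjugate ENNReal

namespace Pool.Agent.R211.PK

open Pool.Agent.R211.BQ

namespace NrmAux

theorem hasSum_sq {θ : T2 → ℝ} (hθ : MemLp θ 2 mu) :
    HasSum (fun k : K2 => ‖fc θ k‖ ^ 2) (∫ y, θ y ^ 2 ∂mu) := by
  have h1 := hasSum_norm (hθ.toLp θ)
  rw [norm_toLp_sq] at h1
  simpa only [fc_toLp] using h1

theorem fc_zero (f : T2 → ℝ) : fc f 0 = ((∫ y, f y ∂mu : ℝ) : ℂ) := by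
  unfold fc
  rw [← integral_complex_ofReal]
  refine integral_congr_ae (Filter.Eventually.of_forall fun y => ?_)
  simp [ex]

/-- the coefficients of `2 d cos` -/
noncomputable def zz (m : K2) (d : ℝ) (k : K2) : ℂ := if k = m ∨ k = -m then (d : ℂ) else 0

theorem zz_neg (m : K2) (d : ℝ) (k : K2) : zz m d (-k) = zz m d k := by
  have h : (-k = m ∨ -k = -m) ↔ (k = m ∨ k = -m) := by
    rw [neg_inj, neg_eq_iff_eq_neg]
    exact or_comm
  unfold zz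
  simp only [h]

theorem zz_conj (m : K2) (d : ℝ) (k : K2) : conj (zz m d k) = zz m d k := by
  unfold zz
  split_ifs
  · exact Complex.conj_ofReal d
  · exact map_zero _

theorem sq_add (w : ℂ) (d : ℝ) : ‖w + (d : ℂ)‖ ^ 2 - ‖w‖ ^ 2 = 2 * d * w.re + d ^ 2 := by
  rw [Complex.sq_norm, Complex.sq_norm, Complex.normSq_apply, Complex.normSq_apply]
  simp only [Complex.add_re, Complex.add_im, Complex.ofReal_re, Complex.ofReal_im]
  ring

theorem hasSum_a {θ : T2 → ℝ} (hθ : MemLp θ 2 mu) (m : K2) (hm : m ≠ -m) (d : ℝ) :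
    HasSum (fun k : K2 => ‖fc θ k + zz m d k‖ ^ 2)
      (∫ y, θ y ^ 2 ∂mu + (4 * d * (fc θ m).re + 2 * d ^ 2)) := by
  have h1 := hasSum_sq hθ
  have h2 : HasSum (fun k : K2 => ‖fc θ k + zz m d k‖ ^ 2 - ‖fc θ k‖ ^ 2)
      (∑ k ∈ ({m, -m} : Finset K2), (‖fc θ k + zz m d k‖ ^ 2 - ‖fc θ k‖ ^ 2)) := by
    refine hasSum_sum_of_ne_finset_zero fun k hk => ?_
    have h3 : ¬ (k = m ∨ k = -m) := by
      simpa only [Finset.mem_insert, Finset.mem_singleton] using hk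
    unfold zz
    rw [if_neg h3, add_zero, sub_self]
  have h4 := h1.add h2
  have h5 : ∑ k ∈ ({m, -m} : Finset K2), (‖fc θ k + zz m d k‖ ^ 2 - ‖fc θ k‖ ^ 2) =
      4 * d * (fc θ m).re + 2 * d ^ 2 := by
    rw [Finset.sum_pair hm]
    have e1 : zz m d m = d := by
      unfold zz
      rw [if_pos (Or.inl rfl)]
    rw [zz_neg, e1, sq_add, sq_add, fc_neg, Complex.conj_re]
    ring
  rw [h5] at h4
  refine h4.congr_fun fun k => ?_
  ring

theorem one_step (θ : T2 → ℝ) (ρ : ℝ) (hθ : θ ∈ L20) (hρ : ∫ y, θ y ^ 2 ∂mu ≤ ρ ^ 2) (n : ℕ) :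
    ∃ h : T2 → ℝ, h ∈ L20 ∧ ∫ y, h y ^ 2 ∂mu = ρ ^ 2 ∧
      ∀ k : K2, |k.1| ≤ n → fc h k = fc θ k := by
  obtain ⟨m, hmd⟩ : ∃ m : K2, m = ((n : ℤ) + 1, 0) := ⟨_, rfl⟩
  have hm1 : m.1 = (n : ℤ) + 1 := by rw [hmd]
  have hm : m ≠ -m := by
    intro h
    have := congrArg Prod.fst h
    rw [Prod.fst_neg, hm1] at this
    omega
  have hm0 : ∀ k : K2, |k.1| ≤ n → ∀ d : ℝ, zz m d k = 0 := by
    intro k hk d
    unfold zz
    rw [if_neg]
    rintro (h | h)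
    · rw [h, hm1] at hk
      have := le_abs_self ((n : ℤ) + 1)
      omega
    · rw [h, Prod.fst_neg, abs_neg, hm1] at hk
      have := le_abs_self ((n : ℤ) + 1)
      omega
  obtain ⟨b, hb⟩ : ∃ b, b = (fc θ m).re := ⟨_, rfl⟩
  obtain ⟨A, hA⟩ : ∃ A, A = ∫ y, θ y ^ 2 ∂mu := ⟨_, rfl⟩
  obtain ⟨d, hd⟩ : ∃ d, d = -b + Real.sqrt (b ^ 2 + (ρ ^ 2 - A) / 2) := ⟨_, rfl⟩
  rw [← hA] at hρ
  have hrad : 0 ≤ b ^ 2 + (ρ ^ 2 - A) / 2 := by
    have := sq_nonneg b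
    linarith
  have hroot : A + (4 * d * b + 2 * d ^ 2) = ρ ^ 2 := by
    have h1 := Real.sq_sqrt hrad
    rw [hd]
    nlinarith
  have hsum := hasSum_a hθ.1 m hm d
  rw [← hA, ← hb, hroot] at hsum
  have hLB : LB (ρ ^ 2) (fun k => fc θ k + zz m d k) := fun S =>
    sum_le_hasSum S (fun _ _ => sq_nonneg _) hsum
  have hreal : ∀ k, conj (fc θ k + zz m d k) = fc θ (-k) + zz m d (-k) := by
    intro k
    rw [map_add, ← fc_neg, zz_conj, zz_neg]
  obtain ⟨h, hh1, hh2⟩ := exists_real' hreal hLB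
  refine ⟨h, ⟨hh1, ?_⟩, ?_, ?_⟩
  · have h1 : fc h 0 = fc θ 0 := by
      rw [hh2, hm0 0 (by simp) d, add_zero]
    rw [fc_zero, fc_zero, hθ.2] at h1
    exact_mod_cast h1
  · have h1 := hasSum_sq hh1
    simp only [hh2] at h1
    exact h1.unique hsum
  · intro k hk
    rw [hh2, hm0 k hk d, add_zero]

end NrmAux

open NrmAux in
theorem t_Nrm : StNrm := by
  intro θ ρ hθ hρ
  choose h h1 h2 h3 using fun n : ℕ => one_step θ ρ hθ hρ n
  refine ⟨h, fun n => ⟨h1 n, h2 n⟩, fun k => ?_⟩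
  refine tendsto_const_nhds.congr' ?_
  filter_upwards [eventually_ge_atTop (k.1.natAbs)] with n hn
  refine (h3 n k ?_).symm
  have : ((k.1.natAbs : ℕ) : ℤ) ≤ n := by exact_mod_cast hn
  rwa [Int.natCast_natAbs] at this

end Pool.Agent.R211.PK
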