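import Pool.Agent.R211.PK.Stm

set_option autoImplicit false

open Set Filter Topology MeasureTheory
open scoped ComplexConjugate ENNReal

namespace Pool.Agent.R211.PK

open Pool.Agent.R211.BQ

/-- The real or imaginary part of the conjugate of an exponential. -/
noncomputable def om1p (b : Bool) (k : K2) (y : T2) : ℝ :=
  if b then (conj (ex k y)).re else (conj (ex k y)).im

theorem om1p_cont (b : Bool) (k : K2) : Continuous (om1p b k) := by
  unfold om1p
  cases b
  · simp only [Bool.false_eq_true, if_false]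
    exact Complex.continuous_im.comp (Complex.continuous_conj.comp (continuous_ex k))
  · simp only [if_true]
    exact Complex.continuous_re.comp (Complex.continuous_conj.comp (continuous_ex k))

theorem om1p_bound (b : Bool) (k : K2) (y : T2) : ‖om1p b k y‖ ≤ 1 := by
  have h : ‖conj (ex k y)‖ = 1 := by rw [RCLike.norm_conj, norm_ex]
  unfold om1p
  cases b
  · simp only [Bool.false_eq_true, if_false, Real.norm_eq_abs]
    exact (Complex.abs_im_le_norm _).trans h.le
  · simp only [if_true, Real.norm_eq_abs]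
    exact (Complex.abs_re_le_norm _).trans h.le

theorem om1p_memLp (b : Bool) (k : K2) : MemLp (om1p b k) 2 mu :=
  MemLp.of_bound (om1p_cont b k).aestronglyMeasurable 1
    (Filter.Eventually.of_forall (om1p_bound b k))

theorem om1_fc {f g : T2 → ℝ} (hf : MemLp f 2 mu) (hg : MemLp g 2 mu) (k : K2) :
    ‖fc f k - fc g k‖ ≤ |∫ y, (f y - g y) * om1p true k y ∂mu|
      + |∫ y, (f y - g y) * om1p false k y ∂mu| := by
  have hfi : Integrable (fun y => (f y : ℂ)) mu := (hf.integrable (by norm_num)).ofReal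
  have hgi : Integrable (fun y => (g y : ℂ)) mu := (hg.integrable (by norm_num)).ofReal
  have h1 := integrable_mul_ex hfi k
  have h2 := integrable_mul_ex hgi k
  have h3 : fc f k - fc g k
      = ∫ y, ((f y : ℂ) * conj (ex k y) - (g y : ℂ) * conj (ex k y)) ∂mu := by
    unfold fc
    rw [integral_sub h1 h2]
  have h4 : Integrable (fun y => (f y : ℂ) * conj (ex k y) - (g y : ℂ) * conj (ex k y)) mu :=
    h1.sub h2
  have hre : (∫ y, ((f y : ℂ) * conj (ex k y) - (g y : ℂ) * conj (ex k y)) ∂mu).re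
      = ∫ y, (f y - g y) * om1p true k y ∂mu := by
    have h5 := integral_re (𝕜 := ℂ) h4
    simp only [RCLike.re_eq_complex_re] at h5
    rw [← h5]
    congr 1
    funext y
    unfold om1p
    simp only [if_true, Complex.sub_re, Complex.mul_re, Complex.ofReal_re, Complex.ofReal_im,
      zero_mul, sub_zero]
    ring
  have him : (∫ y, ((f y : ℂ) * conj (ex k y) - (g y : ℂ) * conj (ex k y)) ∂mu).im
      = ∫ y, (f y - g y) * om1p false k y ∂mu := by
    have h5 := integral_im (𝕜 := ℂ) h4
    simp only [RCLike.im_eq_complex_im] at h5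
    rw [← h5]
    congr 1
    funext y
    unfold om1p
    simp only [Bool.false_eq_true, if_false, Complex.sub_im, Complex.mul_im, Complex.ofReal_re,
      Complex.ofReal_im, zero_mul, add_zero]
    ring
  rw [h3, ← hre, ← him]
  exact Complex.norm_le_abs_re_add_abs_im _

theorem om1_key (L ν g : ℝ) (X : Set ((Fin 2 → T2 → ℝ) × (T2 → ℝ)))
    (x : (Fin 2 → T2 → ℝ) × (T2 → ℝ)) (hx : x ∈ Om L ν g X) (n : ℕ) :
    ∃ (t : ℝ) (p q : (Fin 2 → T2 → ℝ) × (T2 → ℝ)), (n : ℝ) ≤ t ∧ p ∈ X ∧ Ev L ν g t p q ∧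
      ∀ k : K2, |k.1| ≤ n → |k.2| ≤ n →
        (∀ i, ‖fc (q.1 i) k - fc (x.1 i) k‖ ≤ 2 / ((n:ℝ) + 1)) ∧
        ‖fc q.2 k - fc x.2 k‖ ≤ 2 / ((n:ℝ) + 1) := by
  classical
  obtain ⟨hx1, hx2, hx3⟩ := hx
  let Kn : Finset K2 := Finset.Icc (-(n:ℤ)) n ×ˢ Finset.Icc (-(n:ℤ)) n
  let ι : Type := Kn × Option (Fin 2) × Bool
  let e : ι ≃ Fin (Fintype.card ι) := Fintype.equivFin ι
  let φ : ι → Fin 2 → T2 → ℝ := fun j i => if j.2.1 = some i then om1p j.2.2 j.1 else 0
  let ψ : ι → T2 → ℝ := fun j => if j.2.1 = none then om1p j.2.2 j.1 else 0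
  have hφ : ∀ j i, MemLp (φ j i) 2 mu := by
    intro j i
    show MemLp (if j.2.1 = some i then om1p j.2.2 j.1 else 0) 2 mu
    split_ifs
    · exact om1p_memLp _ _
    · exact MemLp.zero
  have hψ : ∀ j, MemLp (ψ j) 2 mu := by
    intro j
    show MemLp (if j.2.1 = none then om1p j.2.2 j.1 else 0) 2 mu
    split_ifs
    · exact om1p_memLp _ _
    · exact MemLp.zero
  obtain ⟨t, ht, ht0, p, hp, q, hq, hj⟩ := hx3 n (Fintype.card ι) (fun a => φ (e.symm a))
    (fun a => ψ (e.symm a)) (fun a i => hφ _ i) (fun a => hψ _) (1 / ((n:ℝ) + 1)) (by positivity)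
  refine ⟨t, p, q, ht.le, hp, hq, ?_⟩
  obtain ⟨u, θ, hs, -, htq⟩ := hq
  have hq1 : q.1 = u t := by rw [← htq]
  have hq2 : q.2 = θ t := by rw [← htq]
  have hmu : ∀ i, MemLp (q.1 i) 2 mu := by
    intro i
    rw [hq1]
    exact ((hs.memH t ht0).1 i).1
  have hmθ : MemLp q.2 2 mu := by
    rw [hq2]
    exact (hs.memL t ht0).1
  intro k hk1 hk2
  have hkn : k ∈ Kn := by
    simp only [Kn, Finset.mem_product, Finset.mem_Icc]
    rw [abs_le] at hk1 hk2
    exact ⟨hk1, hk2⟩
  constructor
  · intro i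
    have hval : ∀ b : Bool, |∫ y, (q.1 i y - x.1 i y) * om1p b k y ∂mu| < 1 / ((n:ℝ) + 1) := by
      intro b
      have h := hj (e (⟨k, hkn⟩, some i, b))
      simp only [Equiv.symm_apply_apply] at h
      have h1 : ∑ i', ∫ y, (q.1 i' y - x.1 i' y) * φ (⟨k, hkn⟩, some i, b) i' y ∂mu
          = ∫ y, (q.1 i y - x.1 i y) * om1p b k y ∂mu := by
        rw [Finset.sum_eq_single i]
        · simp [φ]
        · intro i' _ hne
          have : φ (⟨k, hkn⟩, some i, b) i' = 0 := by
            show (if some i = some i' then om1p b k else 0) = 0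
            rw [if_neg]
            intro h'
            exact hne (Option.some_injective _ h').symm
          simp [this]
        · intro h'
          exact absurd (Finset.mem_univ _) h'
      have h2 : ∫ y, (q.2 y - x.2 y) * ψ (⟨k, hkn⟩, some i, b) y ∂mu = 0 := by
        simp [ψ]
      rw [h1, h2, add_zero] at h
      exact h
    have h3 := om1_fc (hmu i) ((hx1.1 i).1) k
    have h4 := hval true
    have h5 := hval false
    have h6 : (2:ℝ) / ((n:ℝ) + 1) = 1 / ((n:ℝ) + 1) + 1 / ((n:ℝ) + 1) := by ring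
    rw [h6]
    linarith
  · have hval : ∀ b : Bool, |∫ y, (q.2 y - x.2 y) * om1p b k y ∂mu| < 1 / ((n:ℝ) + 1) := by
      intro b
      have h := hj (e (⟨k, hkn⟩, none, b))
      simp only [Equiv.symm_apply_apply] at h
      have h1 : ∑ i', ∫ y, (q.1 i' y - x.1 i' y) * φ (⟨k, hkn⟩, none, b) i' y ∂mu = 0 := by
        refine Finset.sum_eq_zero ?_
        intro i' _
        simp [φ]
      have h2 : ∫ y, (q.2 y - x.2 y) * ψ (⟨k, hkn⟩, none, b) y ∂mu
          = ∫ y, (q.2 y - x.2 y) * om1p b k y ∂mu := by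
        simp [ψ]
      rw [h1, h2, zero_add] at h
      exact h
    have h3 := om1_fc hmθ hx2.1 k
    have h4 := hval true
    have h5 := hval false
    have h6 : (2:ℝ) / ((n:ℝ) + 1) = 1 / ((n:ℝ) + 1) + 1 / ((n:ℝ) + 1) := by ring
    rw [h6]
    linarith

theorem om1_lim : Tendsto (fun n : ℕ => (2:ℝ) / ((n:ℝ) + 1)) atTop (𝓝 0) := by
  have h := tendsto_one_div_add_atTop_nhds_zero_nat (𝕜 := ℝ)
  have h2 := h.const_mul 2
  rw [mul_zero] at h2
  refine h2.congr fun n => ?_
  ring

theorem t_Om1 : StOm1 := by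
  intro L ν g X x hx
  choose t p q h1 h2 h3 h4 using om1_key L ν g X x hx
  refine ⟨t, p, q, fun n => ⟨h1 n, h2 n, h3 n⟩, ?_, ?_⟩
  · intro i k
    rw [tendsto_iff_norm_sub_tendsto_zero]
    refine tendsto_of_tendsto_of_tendsto_of_le_of_le' tendsto_const_nhds om1_lim
      (Eventually.of_forall fun n => norm_nonneg _) ?_
    filter_upwards [eventually_ge_atTop (max k.1.natAbs k.2.natAbs)] with n hn
    refine (h4 n k ?_ ?_).1 i
    · have := le_trans (le_max_left _ _) hn
      rw [abs_le]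
      omega
    · have := le_trans (le_max_right _ _) hn
      rw [abs_le]
      omega
  · intro k
    rw [tendsto_iff_norm_sub_tendsto_zero]
    refine tendsto_of_tendsto_of_tendsto_of_le_of_le' tendsto_const_nhds om1_lim
      (Eventually.of_forall fun n => norm_nonneg _) ?_
    filter_upwards [eventually_ge_atTop (max k.1.natAbs k.2.natAbs)] with n hn
    refine (h4 n k ?_ ?_).2
    · have := le_trans (le_max_left _ _) hn
      rw [abs_le]
      omega
    · have := le_trans (le_max_right _ _) hn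
      rw [abs_le]
      omega

end Pool.Agent.R211.PK
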