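import Pool.Agent.R211.PK.Stm

/-!
PK-OM2: bounded sequences of orbit points whose coefficients converge give points of the weak limit
set.
-/

set_option autoImplicit false

open Set Filter Topology MeasureTheory
open scoped ComplexConjugate ENNReal

namespace Pool.Agent.R211.PK

open Pool.Agent.R211.BQ

namespace Om2Aux

/-- weak convergence to zero -/
lemma weak0 {C : ℝ} {f : ℕ → L2} (hf : ∀ k, Tendsto (fun n => fc (f n) k) atTop (𝓝 0))
    (hC : ∀ n, LB C (fc (f n))) (φ : L2) :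
    Tendsto (fun n => ∫ y, f n y * φ y ∂mu) atTop (𝓝 0) := by
  have hC0 : 0 ≤ C := (hC 0).nonneg
  have h1 : Tendsto (fun n => ((∫ y, f n y * φ y ∂mu : ℝ) : ℂ)) atTop (𝓝 0) := by
    refine Metric.tendsto_nhds.2 fun ε hε => ?_
    have h3 : Tendsto (fun S : Finset K2 => ∑ k ∈ S, ‖fc φ k‖ ^ 2) atTop (𝓝 (‖φ‖ ^ 2)) :=
      hasSum_norm φ
    have hδ : 0 < (ε / 2) ^ 2 / (C + 1) := by positivity
    obtain ⟨S, hS⟩ := (h3.eventually (lt_mem_nhds
      (show ‖φ‖ ^ 2 - (ε / 2) ^ 2 / (C + 1) < ‖φ‖ ^ 2 by linarith))).exists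
    have hfin : Tendsto (fun n => ∑ k ∈ S, conj (fc (f n) k) * fc φ k) atTop (𝓝 0) := by
      have h4 : Tendsto (fun n => ∑ k ∈ S, conj (fc (f n) k) * fc φ k) atTop
          (𝓝 (∑ k ∈ S, conj (0 : ℂ) * fc φ k)) :=
        tendsto_finsetSum _ fun k _ =>
          ((Complex.continuous_conj.tendsto 0).comp (hf k)).mul_const _
      simpa using h4
    have htail : ∀ n, ‖((∫ y, f n y * φ y ∂mu : ℝ) : ℂ)
        - ∑ k ∈ S, conj (fc (f n) k) * fc φ k‖ ≤ ε / 2 := by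
      intro n
      have h5 := parseval (f n) φ
      have h6 : Tendsto (fun S' : Finset K2 => ‖∑ k ∈ S', conj (fc (f n) k) * fc φ k
          - ∑ k ∈ S, conj (fc (f n) k) * fc φ k‖) atTop
          (𝓝 ‖((∫ y, f n y * φ y ∂mu : ℝ) : ℂ) - ∑ k ∈ S, conj (fc (f n) k) * fc φ k‖) :=
        (Tendsto.sub_const h5 _).norm
      refine le_of_tendsto h6 (b := ε / 2) ?_
      filter_upwards [eventually_ge_atTop S] with S' hS'
      classical
      rw [← Finset.sum_sdiff hS', add_sub_cancel_right]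
      refine (norm_sum_le _ _).trans ?_
      have h7 : ∑ k ∈ S' \ S, ‖conj (fc (f n) k) * fc φ k‖
          ≤ Real.sqrt (∑ k ∈ S' \ S, ‖fc (f n) k‖ ^ 2)
            * Real.sqrt (∑ k ∈ S' \ S, ‖fc φ k‖ ^ 2) := by
        refine le_trans (le_of_eq ?_) (Real.sum_mul_le_sqrt_mul_sqrt (S' \ S) _ _)
        refine Finset.sum_congr rfl fun k _ => ?_
        rw [norm_mul, RCLike.norm_conj]
      have h8 : ∑ k ∈ S' \ S, ‖fc φ k‖ ^ 2 ≤ (ε / 2) ^ 2 / (C + 1) := by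
        have h9 := LB_fc φ S'
        rw [← Finset.sum_sdiff hS'] at h9
        linarith
      calc _ ≤ Real.sqrt C * Real.sqrt ((ε / 2) ^ 2 / (C + 1)) :=
            h7.trans (mul_le_mul (Real.sqrt_le_sqrt (hC n _)) (Real.sqrt_le_sqrt h8)
              (Real.sqrt_nonneg _) (Real.sqrt_nonneg _))
        _ = Real.sqrt (C * ((ε / 2) ^ 2 / (C + 1))) := (Real.sqrt_mul hC0 _).symm
        _ ≤ Real.sqrt ((ε / 2) ^ 2) := by
            refine Real.sqrt_le_sqrt ?_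
            rw [mul_div_assoc', div_le_iff₀ (by linarith)]
            nlinarith [sq_nonneg (ε / 2)]
        _ = ε / 2 := Real.sqrt_sq (by linarith)
    have h9 := Metric.tendsto_nhds.1 hfin (ε / 2) (by linarith)
    filter_upwards [h9] with n hn
    rw [dist_zero_right] at hn ⊢
    have h10 := norm_add_le (((∫ y, f n y * φ y ∂mu : ℝ) : ℂ)
        - ∑ k ∈ S, conj (fc (f n) k) * fc φ k) (∑ k ∈ S, conj (fc (f n) k) * fc φ k)
    rw [sub_add_cancel] at h10
    have h11 := htail n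
    linarith
  have h2 := (Complex.continuous_re.tendsto 0).comp h1
  simpa [Function.comp_def] using h2

/-- weak convergence -/
lemma weak1 {C : ℝ} {f : ℕ → T2 → ℝ} {g : T2 → ℝ} (hm : ∀ n, MemLp (f n) 2 mu)
    (hg : MemLp g 2 mu) (hf : ∀ k, Tendsto (fun n => fc (f n) k) atTop (𝓝 (fc g k)))
    (hC : ∀ n, ∫ y, f n y ^ 2 ∂mu ≤ C) {φ : T2 → ℝ} (hφ : MemLp φ 2 mu) :
    Tendsto (fun n => ∫ y, (f n y - g y) * φ y ∂mu) atTop (𝓝 0) := by
  have h1 := weak0 (f := fun n => (hm n).toLp (f n) - hg.toLp g)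
    (C := 2 * C + 2 * ‖hg.toLp g‖ ^ 2) (fun k => by
      have h2 := (hf k).sub_const (fc g k)
      rw [sub_self] at h2
      refine h2.congr fun n => ?_
      rw [fc_sub, fc_toLp, fc_toLp]) (fun n S => by
      refine (LB_fc _ S).trans ?_
      have h3 := norm_toLp_sq (hm n)
      have h4 := hC n
      have h5 := norm_sub_le ((hm n).toLp (f n)) (hg.toLp g)
      have h6 := norm_nonneg ((hm n).toLp (f n) - hg.toLp g)
      nlinarith [sq_nonneg (‖(hm n).toLp (f n)‖ - ‖hg.toLp g‖), pow_le_pow_left₀ h6 h5 2])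
    (hφ.toLp φ)
  refine h1.congr fun n => integral_congr_ae ?_
  filter_upwards [Lp.coeFn_sub ((hm n).toLp (f n)) (hg.toLp g), (hm n).coeFn_toLp,
    hg.coeFn_toLp, hφ.coeFn_toLp] with y h2 h3 h4 h5
  rw [h2, Pi.sub_apply, h3, h4, h5]

end Om2Aux

open Om2Aux in
theorem t_Om2 : StOm2 := by
  intro L ν g M X x t p q hx1 hx2 ht h hu hθ
  refine ⟨hx1, hx2, fun τ m φ ψ hφ hψ ε hε => ?_⟩
  have hq : ∀ n, (q n).1 ∈ Hs ∧ (q n).2 ∈ L20 := by
    intro n
    obtain ⟨h0, -, ⟨u, θ, hs, -, he⟩, -⟩ := h n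
    rw [← he]
    exact ⟨hs.memH _ h0, hs.memL _ h0⟩
  have hlim : ∀ j, Tendsto (fun n => ∑ i, ∫ y, ((q n).1 i y - x.1 i y) * φ j i y ∂mu
      + ∫ y, ((q n).2 y - x.2 y) * ψ j y ∂mu) atTop (𝓝 0) := by
    intro j
    have h1 : Tendsto (fun n => ∑ i, ∫ y, ((q n).1 i y - x.1 i y) * φ j i y ∂mu) atTop
        (𝓝 (∑ i : Fin 2, (0 : ℝ))) :=
      tendsto_finsetSum _ fun i _ => weak1 (fun n => ((hq n).1.1 i).1) (hx1.1 i).1 (hu i)
        (fun n => (h n).2.2.2.1 i) (hφ j i)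
    have h2 : Tendsto (fun n => ∫ y, ((q n).2 y - x.2 y) * ψ j y ∂mu) atTop (𝓝 0) :=
      weak1 (fun n => (hq n).2.1) hx2.1 hθ (fun n => (h n).2.2.2.2) (hψ j)
    have h3 := h1.add h2
    simpa using h3
  have hev := (ht.eventually_gt_atTop τ).and
    (eventually_all.2 fun j => (Metric.tendsto_nhds.1 (hlim j) ε hε))
  obtain ⟨n, hn1, hn2⟩ := hev.exists
  refine ⟨t n, hn1, (h n).1, p n, (h n).2.1, q n, (h n).2.2.1, fun j => ?_⟩
  have h5 := hn2 j
  rwa [Real.dist_eq, sub_zero] at h5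

end Pool.Agent.R211.PK
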