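import Pool.Agent.R211.PK.Stm

/-! Project PK (helper211), piece SHF: shift and restriction of solutions. -/

set_option autoImplicit false

open Set Filter Topology MeasureTheory
open scoped ComplexConjugate ENNReal

namespace Pool.Agent.R211.PK

open Pool.Agent.R211.BQ

theorem t_Shf : StShf := by
  intro ν g s J J' W Θ h _ hs
  refine ⟨fun t ht => h.zW _ (hs t ht), fun t ht => h.zΘ _ (hs t ht),
    fun t ht => h.cjW _ (hs t ht), fun t ht => h.cjΘ _ (hs t ht), ?_, ?_, ?_, ?_, ?_⟩
  · intro a ha b hb
    obtain ⟨C, hC⟩ := h.bd (a + s) (hs a ha) (b + s) (hs b hb)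
    exact ⟨C, fun t ht => hC (t + s) ⟨by linarith [ht.1], by linarith [ht.2]⟩⟩
  · intro k
    exact (h.coW k).comp (continuous_add_right s).continuousOn (fun t ht => hs t ht)
  · intro k
    exact (h.coΘ k).comp (continuous_add_right s).continuousOn (fun t ht => hs t ht)
  · intro k a ha b hb hab
    rw [h.eqW k (a + s) (hs a ha) (b + s) (hs b hb) (by linarith)]
    exact (intervalIntegral.integral_comp_add_right
      (fun r => rI ν g (W r) (Θ r) k) s).symm
  · intro k a ha b hb hab
    rw [h.eqΘ k (a + s) (hs a ha) (b + s) (hs b hb) (by linarith)]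
    exact (intervalIntegral.integral_comp_add_right
      (fun r => -(nlI (W r) (Θ r) k)) s).symm

end Pool.Agent.R211.PK
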