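import Pool.Agent.R211.BQ.Att

/-!
Project PK (MP_771030_an, full answer YES): definitions and statements.
-/

set_option autoImplicit false

open Set Filter Topology MeasureTheory
open scoped ComplexConjugate ENNReal

namespace Pool.Agent.R211.PK

open Pool.Agent.R211.BQ

/-- A solution on the interval `J`, in terms of the Fourier coefficients of the vorticity and of the
temperature, with locally bounded `ℓ²` norms. -/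
structure LSol (ν g : ℝ) (J : Set ℝ) (W Θ : ℝ → K2 → ℂ) : Prop where
  zW : ∀ t ∈ J, W t 0 = 0
  zΘ : ∀ t ∈ J, Θ t 0 = 0
  cjW : ∀ t ∈ J, ∀ k, conj (W t k) = W t (-k)
  cjΘ : ∀ t ∈ J, ∀ k, conj (Θ t k) = Θ t (-k)
  bd : ∀ a ∈ J, ∀ b ∈ J, ∃ C : ℝ, ∀ t ∈ Icc a b, LB C (W t) ∧ LB C (Θ t)
  coW : ∀ k, ContinuousOn (fun t => W t k) J
  coΘ : ∀ k, ContinuousOn (fun t => Θ t k) J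
  eqW : ∀ k, ∀ a ∈ J, ∀ b ∈ J, a ≤ b → W b k - W a k = ∫ s in a..b, rI ν g (W s) (Θ s) k
  eqΘ : ∀ k, ∀ a ∈ J, ∀ b ∈ J, a ≤ b → Θ b k - Θ a k = ∫ s in a..b, -(nlI (W s) (Θ s) k)

/-! ## Sums -/

def StT1 : Prop := ∀ (a b c : K2 → ℝ) (A B C : ℝ), (∀ k, 0 ≤ a k) → (∀ k, 0 ≤ b k) →
  (∀ k, 0 ≤ c k) → (∀ S : Finset K2, ∑ k ∈ S, a k ≤ A) →
  (∀ S : Finset K2, ∑ k ∈ S, b k ^ 2 ≤ B) → (∀ S : Finset K2, ∑ k ∈ S, c k ^ 2 ≤ C) →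
  ∀ P : Finset (K2 × K2), ∑ p ∈ P, a p.1 * b (p.2 - p.1) * c p.2 ≤ A * Real.sqrt B * Real.sqrt C

def StT2 : Prop := ∃ K : ℝ, 0 < K ∧ ∀ ρ : ℝ, 1 ≤ ρ → ∀ (a b c : K2 → ℝ) (A B C : ℝ),
  (∀ k, 0 ≤ a k) → (∀ k, 0 ≤ b k) → (∀ k, 0 ≤ c k) →
  (∀ S : Finset K2, ∑ k ∈ S, a k ^ 2 ≤ A) →
  (∀ S : Finset K2, ∑ k ∈ S, (ρ ^ 2 + n2 k) * b k ^ 2 ≤ B) →
  (∀ S : Finset K2, ∑ k ∈ S, (ρ ^ 2 + n2 k) * c k ^ 2 ≤ C) →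
  ∀ P : Finset (K2 × K2), ∑ p ∈ P, a p.1 * b (p.2 - p.1) * c p.2 ≤
    K / ρ * Real.sqrt A * Real.sqrt B * Real.sqrt C

def StT3 : Prop := ∃ K : ℝ, 0 < K ∧ ∀ N : ℝ, 1 ≤ N → ∀ (a : K2 → ℝ) (A : ℝ), (∀ k, 0 ≤ a k) →
  a 0 = 0 → (∀ S : Finset K2, ∑ k ∈ S, n2 k * a k ^ 2 ≤ A) →
  ∀ S : Finset K2, (∀ k ∈ S, (n2 k : ℝ) ≤ N ^ 2) →
    ∑ k ∈ S, a k ≤ K * Real.sqrt ((1 + Real.log N) * A)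

/-! ## The difference of two solutions at a fixed time -/

/-- Admissible coefficients. -/
structure Adm (M : ℝ) (w f : K2 → ℂ) : Prop where
  zw : w 0 = 0
  zf : f 0 = 0
  cjw : ∀ k, conj (w k) = w (-k)
  cjf : ∀ k, conj (f k) = f (-k)
  bw : LB M w
  bf : LB M f

/-- The derivative of the `k`-th term of `en2`. -/
noncomputable def dt (ν g : ℝ) (w f w' f' : K2 → ℂ) (k : K2) : ℝ :=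
  2 * (conj (w k - w' k) * (rI ν g w f k - rI ν g w' f' k)
    + conj (f k - f' k) * (nlI w' f' k - nlI w f k)).re / n2 k

/-- The squared `H⁻¹` norm of the difference. -/
noncomputable def en2 (w f w' f' : K2 → ℂ) : ℝ :=
  ∑' k, (‖w k - w' k‖ ^ 2 + ‖f k - f' k‖ ^ 2) / n2 k

def StAbs : Prop := ∀ ν g M : ℝ, ∃ C : ℝ, ∀ w f w' f' : K2 → ℂ, Adm M w f → Adm M w' f' →
  ∀ S : Finset K2, ∑ k ∈ S, |dt ν g w f w' f' k| ≤ C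

def StInst : Prop := ∀ ν g M : ℝ, 0 < ν → ∃ C : ℝ, 0 < C ∧ ∀ N : ℝ, 1 ≤ N → ∀ H : ℝ, 0 ≤ H →
  ∀ w f w' f' : K2 → ℂ, Adm M w f → Adm M w' f' →
  (∀ S : Finset K2, ∑ k ∈ S, n2 k * ‖w k‖ ^ 2 ≤ H) →
  ∑' k, dt ν g w f w' f' k ≤ C * (1 + Real.log N) * (1 + Real.sqrt H) * en2 w f w' f'
    + C * (1 + Real.sqrt H) / N

def StDer : Prop := ∀ (ν g T : ℝ) (W Θ W' Θ' : ℝ → K2 → ℂ), 0 < T →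
  LSol ν g (Icc 0 T) W Θ → LSol ν g (Icc 0 T) W' Θ' → W 0 = W' 0 → Θ 0 = Θ' 0 →
  IntervalIntegrable (fun t => ∑' k, dt ν g (W t) (Θ t) (W' t) (Θ' t) k) volume 0 T ∧
  ∀ t ∈ Icc 0 T, en2 (W t) (Θ t) (W' t) (Θ' t) =
    ∫ s in (0 : ℝ)..t, ∑' k, dt ν g (W s) (Θ s) (W' s) (Θ' s) k

def StGr : Prop := ∀ (T C : ℝ) (E D h : ℝ → ℝ), 0 < T → 0 ≤ C → (∀ t ∈ Icc 0 T, 0 ≤ E t) →
  IntervalIntegrable D volume 0 T → (∀ t ∈ Icc 0 T, E t = ∫ s in (0 : ℝ)..t, D s) →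
  (∀ t, 0 ≤ h t) → IntervalIntegrable h volume 0 T →
  (∀ N : ℝ, 1 ≤ N → ∀ᵐ t ∂volume.restrict (Icc 0 T),
    D t ≤ C * (1 + Real.log N) * (1 + h t) * E t + C * (1 + h t) / N) →
  ∀ t ∈ Icc 0 T, E t = 0

/-- Uniqueness. -/
def StUni : Prop := ∀ (ν g T : ℝ) (W Θ W' Θ' : ℝ → K2 → ℂ), 0 < ν → 0 < T →
  LSol ν g (Icc 0 T) W Θ → LSol ν g (Icc 0 T) W' Θ' →
  (∫⁻ t in Icc 0 T, ∑' k, ENNReal.ofReal (n2 k * ‖W t k‖ ^ 2) < ⊤) →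
  W 0 = W' 0 → Θ 0 = Θ' 0 → ∀ t ∈ Icc 0 T, W t = W' t ∧ Θ t = Θ' t

/-! ## Existence -/

def StGal : Prop := ∀ (ν g : ℝ) (n : ℕ) (w₀ f₀ : K2 → ℂ) (C D E : ℝ), 0 < ν →
  (∀ k, conj (w₀ k) = w₀ (-k)) → (∀ k, conj (f₀ k) = f₀ (-k)) →
  LB C w₀ → LB D f₀ → LB E (fun k => w₀ k / ln k) →
  ∃ W Θ : ℝ → K2 → ℂ, GSol (Bx n) ν g n W Θ ∧ (∀ k ∈ Bx n, W 0 k = w₀ k ∧ Θ 0 k = f₀ k) ∧
    ∀ t ∈ Icc (0 : ℝ) n, LB D (Θ t) ∧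
      LB (Real.exp (-(ν * t)) * C + g ^ 2 * D / ν ^ 2) (W t) ∧
      LB (Real.exp (-(ν * t)) * E + g ^ 2 * D / ν ^ 2) (fun k => W t k / ln k) ∧
      ∫ s in (0 : ℝ)..t, ∑ k ∈ Bx n, ‖W s k‖ ^ 2 ≤ (E + t * (g ^ 2 * D / ν)) / ν ∧
      ∫ s in (0 : ℝ)..t, ∑ k ∈ Bx n, n2 k * ‖W s k‖ ^ 2 ≤ (C + t * (g ^ 2 * D / ν)) / ν

def StEx : Prop := ∀ (ν g : ℝ) (w₀ f₀ : K2 → ℂ) (C D E : ℝ), 0 < ν →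
  w₀ 0 = 0 → f₀ 0 = 0 → (∀ k, conj (w₀ k) = w₀ (-k)) → (∀ k, conj (f₀ k) = f₀ (-k)) →
  LB C w₀ → LB D f₀ → LB E (fun k => w₀ k / ln k) →
  ∃ W Θ : ℝ → K2 → ℂ, LSol ν g (Ici 0) W Θ ∧ W 0 = w₀ ∧ Θ 0 = f₀ ∧
    (∀ t : ℝ, 0 ≤ t → LB D (Θ t) ∧ LB (Real.exp (-(ν * t)) * C + g ^ 2 * D / ν ^ 2) (W t)) ∧
    (∫⁻ t in Icc (0 : ℝ) 1, ∑' k, ENNReal.ofReal (‖W t k‖ ^ 2)
      ≤ ENNReal.ofReal ((E + g ^ 2 * D / ν) / ν)) ∧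
    ∀ T : ℝ, ∫⁻ t in Icc 0 T, ∑' k, ENNReal.ofReal (n2 k * ‖W t k‖ ^ 2) < ⊤

/-- Compactness. -/
def StCpt : Prop := ∀ (ν g : ℝ) (J : Set ℝ) (Jn : ℕ → Set ℝ) (Wn Θn : ℕ → ℝ → K2 → ℂ)
  (C : ℝ → ℝ → ℝ), J.OrdConnected → (∀ n, (Jn n).OrdConnected) →
  (∀ n, LSol ν g (Jn n) (Wn n) (Θn n)) →
  (∀ a ∈ J, ∀ b ∈ J, ∀ᶠ n in atTop, Icc a b ⊆ Jn n ∧
    ∀ t ∈ Icc a b, LB (C a b) (Wn n t) ∧ LB (C a b) (Θn n t)) →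
  ∃ (φ : ℕ → ℕ) (W Θ : ℝ → K2 → ℂ), StrictMono φ ∧ LSol ν g J W Θ ∧
    ∀ t ∈ J, ∀ k, Tendsto (fun n => Wn (φ n) t k) atTop (𝓝 (W t k)) ∧
      Tendsto (fun n => Θn (φ n) t k) atTop (𝓝 (Θ t k))

/-- Shift and restriction. -/
def StShf : Prop := ∀ (ν g s : ℝ) (J J' : Set ℝ) (W Θ : ℝ → K2 → ℂ), LSol ν g J W Θ →
  J'.OrdConnected → (∀ t ∈ J', t + s ∈ J) →
  LSol ν g J' (fun t => W (t + s)) (fun t => Θ (t + s))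

/-- Complete solutions with bounded velocity and temperature have bounded vorticity. -/
def StVB : Prop := ∀ (ν g M : ℝ) (W Θ : ℝ → K2 → ℂ), 0 < ν → LSol ν g univ W Θ →
  (∀ t, LB M (fun k => W t k / ln k)) → (∀ t, LB M (Θ t)) → ∃ C : ℝ, ∀ t, LB C (W t)

/-! ## The system in physical space -/

/-- Solutions with locally bounded `‖∇u‖`. -/
structure SolV (L ν g : ℝ) (J : Set ℝ) (u : ℝ → Fin 2 → T2 → ℝ) (θ : ℝ → T2 → ℝ) : Prop extends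
    IsSol L ν g J u θ where
  bddV : ∀ a ∈ J, ∀ b ∈ J, ∃ C : ℝ, ∀ t ∈ Icc a b, grad2 L (u t) ≤ ENNReal.ofReal C

/-- The Fourier coefficients of the vorticity. -/
noncomputable def wc (L : ℝ) (u : Fin 2 → T2 → ℝ) (k : K2) : ℂ :=
  Complex.I * (kap L : ℂ) * ((k.1 : ℂ) * fc (u 1) k - (k.2 : ℂ) * fc (u 0) k)

def StBnd : Prop := ∀ (a b : ℝ) (f : ℝ → T2 → ℝ), (∀ t ∈ Icc a b, MemLp (f t) 2 mu) →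
  WCont (Icc a b) f → ∃ C : ℝ, ∀ t ∈ Icc a b, ∫ y, f t y ^ 2 ∂mu ≤ C

/-- Velocity from vorticity. -/
def StVel : Prop := ∀ (L : ℝ) (u : Fin 2 → T2 → ℝ), 0 < L → u ∈ Hs →
  wc L u 0 = 0 ∧ (∀ k, conj (wc L u k) = wc L u (-k)) ∧
  (∀ i k, fc (u i) k = uc (kap L) (wc L u) i k) ∧
  (∀ k, kap L ^ 2 * ∑ i, ‖fc (u i) k‖ ^ 2 = ‖wc L u k / ln k‖ ^ 2) ∧
  grad2 L u = ∑' k, ENNReal.ofReal (‖wc L u k‖ ^ 2) ∧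
  (∀ C : ℝ, 0 ≤ C → (LB C (wc L u) ↔ grad2 L u ≤ ENNReal.ofReal C)) ∧
  LB (kap L ^ 2 * ∑ i, ∫ y, u i y ^ 2 ∂mu) (fun k => wc L u k / ln k)

def StBr1 : Prop := ∀ (L ν g : ℝ) (J : Set ℝ) (u : ℝ → Fin 2 → T2 → ℝ) (θ : ℝ → T2 → ℝ),
  0 < L → J.OrdConnected → SolV L ν g J u θ →
  LSol (ν * kap L ^ 2) (g * kap L) J (fun t => wc L (u t)) (fun t => fc (θ t))

def StBr2 : Prop := ∀ (L ν g : ℝ) (J : Set ℝ) (W Θ : ℝ → K2 → ℂ) (u₀ : Fin 2 → T2 → ℝ)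
  (θ₀ : T2 → ℝ), 0 < L → J.OrdConnected → (0 : ℝ) ∈ J →
  LSol (ν * kap L ^ 2) (g * kap L) J W Θ → u₀ ∈ Hs → θ₀ ∈ L20 → wc L u₀ = W 0 → fc θ₀ = Θ 0 →
  ∃ (u : ℝ → Fin 2 → T2 → ℝ) (θ : ℝ → T2 → ℝ), SolV L ν g J u θ ∧ u 0 = u₀ ∧ θ 0 = θ₀ ∧
    ∀ t ∈ J, wc L (u t) = W t ∧ fc (θ t) = Θ t

/-- Functions of prescribed norm with nearly the same low coefficients. -/
def StNrm : Prop := ∀ (θ : T2 → ℝ) (ρ : ℝ), θ ∈ L20 → ∫ y, θ y ^ 2 ∂mu ≤ ρ ^ 2 →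
  ∃ h : ℕ → T2 → ℝ, (∀ n, h n ∈ L20 ∧ ∫ y, h n y ^ 2 ∂mu = ρ ^ 2) ∧
    ∀ k, Tendsto (fun n => fc (h n) k) atTop (𝓝 (fc θ k))

/-- `q = S(t) p`. -/
def Ev (L ν g t : ℝ) (p q : (Fin 2 → T2 → ℝ) × (T2 → ℝ)) : Prop :=
  ∃ (u : ℝ → Fin 2 → T2 → ℝ) (θ : ℝ → T2 → ℝ), SolV L ν g (Ici 0) u θ ∧ (u 0, θ 0) = p ∧
    (u t, θ t) = q

/-- The weak ω-limit set of `X`: the points each weak neighbourhood of which contains, for each `τ`,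
a point `S(t) p` with `t > τ` and `p ∈ X`. -/
def Om (L ν g : ℝ) (X : Set ((Fin 2 → T2 → ℝ) × (T2 → ℝ))) :
    Set ((Fin 2 → T2 → ℝ) × (T2 → ℝ)) :=
  {x | x.1 ∈ Hs ∧ x.2 ∈ L20 ∧ ∀ (τ : ℝ) (m : ℕ) (φ : Fin m → Fin 2 → T2 → ℝ)
    (ψ : Fin m → T2 → ℝ), (∀ j i, MemLp (φ j i) 2 mu) → (∀ j, MemLp (ψ j) 2 mu) → ∀ ε > 0,
    ∃ t, τ < t ∧ 0 ≤ t ∧ ∃ p ∈ X, ∃ q, Ev L ν g t p q ∧ ∀ j,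
      |∑ i, ∫ y, (q.1 i y - x.1 i y) * φ j i y ∂mu + ∫ y, (q.2 y - x.2 y) * ψ j y ∂mu| < ε}

/-- The attractor. -/
def At (L ν g : ℝ) : Set ((Fin 2 → T2 → ℝ) × (T2 → ℝ)) :=
  {p | ∃ (u : ℝ → Fin 2 → T2 → ℝ) (θ : ℝ → T2 → ℝ), SolV L ν g univ u θ ∧
    (∃ M : ℝ, ∀ t, Bdd M (u t) (θ t)) ∧ u 0 = p.1 ∧ θ 0 = p.2}

/-- The set `B̃_r`. -/
def Bt (L ν g r : ℝ) : Set ((Fin 2 → T2 → ℝ) × (T2 → ℝ)) :=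
  {p | p.1 ∈ Hs ∧ p.2 ∈ L20 ∧ L ^ 2 * ∫ y, p.2 y ^ 2 ∂mu = r ^ 2 ∧
    ENNReal.ofReal (L ^ 2) * grad2 L p.1 ≤ ENNReal.ofReal ((2 * g * r / (ν * kap L ^ 2)) ^ 2)}

def StOm1 : Prop := ∀ (L ν g : ℝ) (X : Set ((Fin 2 → T2 → ℝ) × (T2 → ℝ)))
  (x : (Fin 2 → T2 → ℝ) × (T2 → ℝ)), x ∈ Om L ν g X →
  ∃ (t : ℕ → ℝ) (p q : ℕ → (Fin 2 → T2 → ℝ) × (T2 → ℝ)),
    (∀ n : ℕ, (n : ℝ) ≤ t n ∧ p n ∈ X ∧ Ev L ν g (t n) (p n) (q n)) ∧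
    (∀ i k, Tendsto (fun n => fc ((q n).1 i) k) atTop (𝓝 (fc (x.1 i) k))) ∧
    ∀ k, Tendsto (fun n => fc (q n).2 k) atTop (𝓝 (fc x.2 k))

def StOm2 : Prop := ∀ (L ν g M : ℝ) (X : Set ((Fin 2 → T2 → ℝ) × (T2 → ℝ)))
  (x : (Fin 2 → T2 → ℝ) × (T2 → ℝ)) (t : ℕ → ℝ) (p q : ℕ → (Fin 2 → T2 → ℝ) × (T2 → ℝ)),
  x.1 ∈ Hs → x.2 ∈ L20 → Tendsto t atTop atTop →
  (∀ n, 0 ≤ t n ∧ p n ∈ X ∧ Ev L ν g (t n) (p n) (q n) ∧ Bdd M (q n).1 (q n).2) →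
  (∀ i k, Tendsto (fun n => fc ((q n).1 i) k) atTop (𝓝 (fc (x.1 i) k))) →
  (∀ k, Tendsto (fun n => fc (q n).2 k) atTop (𝓝 (fc x.2 k))) → x ∈ Om L ν g X

def StSub : Prop := ∀ L ν g r : ℝ, 0 < L → 0 < ν → 0 < g → 0 ≤ r →
  Om L ν g (Bt L ν g r) ⊆ At L ν g

def StSup : Prop := ∀ L ν g : ℝ, 0 < L → 0 < ν → 0 < g → ∀ x ∈ At L ν g,
  ∃ r : ℝ, 0 ≤ r ∧ x ∈ Om L ν g (Bt L ν g r)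

end Pool.Agent.R211.PK
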