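import Pool.Agent.R211.PK.Stm

/-!
Project PK (MP_771030_an), piece SUB: the ω-limit sets are in the attractor.
-/

set_option autoImplicit false

open Set Filter Topology MeasureTheory
open scoped ComplexConjugate ENNReal

namespace Pool.Agent.R211.PK

open Pool.Agent.R211.BQ

namespace Sub

lemma LB_mono {C D : ℝ} {a : K2 → ℂ} (h : LB C a) (hCD : C ≤ D) : LB D a :=
  fun S => (h S).trans hCD

lemma LB_lim {C : ℝ} {a : ℕ → K2 → ℂ} {b : K2 → ℂ} (h : ∀ᶠ n in atTop, LB C (a n))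
    (hl : ∀ k, Tendsto (fun n => a n k) atTop (𝓝 (b k))) : LB C b := by
  intro S
  have h1 : Tendsto (fun n => ∑ k ∈ S, ‖a n k‖ ^ 2) atTop (𝓝 (∑ k ∈ S, ‖b k‖ ^ 2)) :=
    tendsto_finsetSum _ fun k _ => ((hl k).norm).pow 2
  exact le_of_tendsto h1 (h.mono fun n hn => hn S)

lemma restr {ν g : ℝ} {J J' : Set ℝ} {W Θ : ℝ → K2 → ℂ} (h : LSol ν g J W Θ) (hJ : J' ⊆ J) :
    LSol ν g J' W Θ where
  zW t ht := h.zW t (hJ ht)
  zΘ t ht := h.zΘ t (hJ ht)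
  cjW t ht := h.cjW t (hJ ht)
  cjΘ t ht := h.cjΘ t (hJ ht)
  bd a ha b hb := h.bd a (hJ ha) b (hJ hb)
  coW k := (h.coW k).mono hJ
  coΘ k := (h.coΘ k).mono hJ
  eqW k a ha b hb := h.eqW k a (hJ ha) b (hJ hb)
  eqΘ k a ha b hb := h.eqΘ k a (hJ ha) b (hJ hb)

/-- uniqueness on the half line -/
lemma uni_Ici (hU : StUni) {ν g : ℝ} (hν : 0 < ν) {W Θ W' Θ' : ℝ → K2 → ℂ}
    (h : LSol ν g (Ici 0) W Θ) (h' : LSol ν g (Ici 0) W' Θ')
    (hf : ∀ T : ℝ, ∫⁻ t in Icc 0 T, ∑' k, ENNReal.ofReal (n2 k * ‖W t k‖ ^ 2) < ⊤)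
    (hW : W 0 = W' 0) (hΘ : Θ 0 = Θ' 0) : ∀ t : ℝ, 0 ≤ t → W t = W' t ∧ Θ t = Θ' t := by
  intro t ht
  have hsub : Icc (0 : ℝ) (t + 1) ⊆ Ici 0 := fun s hs => hs.1
  exact hU ν g (t + 1) W Θ W' Θ' hν (by linarith) (restr h hsub) (restr h' hsub) (hf _) hW hΘ t
    ⟨ht, by linarith⟩

/-- the vorticity bound on `Bt` -/
lemma grad_le {L A : ℝ} (hL : 0 < L) {G : ℝ≥0∞}
    (h : ENNReal.ofReal (L ^ 2) * G ≤ ENNReal.ofReal A) : G ≤ ENNReal.ofReal (A / L ^ 2) := by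
  have hL2 : (0 : ℝ) < L ^ 2 := by positivity
  rw [ENNReal.ofReal_div_of_pos hL2]
  rw [ENNReal.le_div_iff_mul_le (Or.inl (by simpa using hL.ne')) (Or.inl ENNReal.ofReal_ne_top)]
  rwa [mul_comm]

/-- uniform bounds along solutions starting in `Bt` -/
lemma bounds (hV : StVel) (hB1 : StBr1) (hE : StEx) (hU : StUni) {L ν g r : ℝ} (hL : 0 < L)
    (hν : 0 < ν) {u : ℝ → Fin 2 → T2 → ℝ} {θ : ℝ → T2 → ℝ} (hs : SolV L ν g (Ici 0) u θ)
    (hp : (u 0, θ 0) ∈ Bt L ν g r) : ∀ t : ℝ, 0 ≤ t →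
    LB (r ^ 2 / L ^ 2) (fc (θ t)) ∧
    LB ((2 * g * r / (ν * kap L ^ 2)) ^ 2 / L ^ 2 +
      (g * kap L) ^ 2 * (r ^ 2 / L ^ 2) / (ν * kap L ^ 2) ^ 2) (wc L (u t)) := by
  have hκ : 0 < kap L := by unfold kap; positivity
  have hν' : 0 < ν * kap L ^ 2 := by positivity
  obtain ⟨hu0, hθ0, hn, hg⟩ := hp
  have hu0' : u 0 ∈ Hs := hu0
  have hθ0' : θ 0 ∈ L20 := hθ0
  obtain ⟨v1, v2, v3, v4, v5, v6, v7⟩ := hV L (u 0) hL hu0'
  have hb := hB1 L ν g (Ici 0) u θ hL Set.ordConnected_Ici hs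
  set C : ℝ := (2 * g * r / (ν * kap L ^ 2)) ^ 2 / L ^ 2 with hC
  set D : ℝ := r ^ 2 / L ^ 2 with hD
  have hC0 : 0 ≤ C := by positivity
  have hLC : LB C (wc L (u 0)) := (v6 C hC0).2 (grad_le hL hg)
  have hLD : LB D (fc (θ 0)) := by
    have h1 := LB_fc' hθ0'.1
    have h2 : ∫ y, θ 0 y ^ 2 ∂mu = D := by
      have h3 : L ^ 2 * ∫ y, θ 0 y ^ 2 ∂mu = r ^ 2 := hn
      rw [hD, eq_div_iff (by positivity), mul_comm]
      exact h3
    rwa [h2] at h1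
  obtain ⟨W, Θ, hWΘ, hW0, hΘ0, hbd, _, hfin⟩ := hE (ν * kap L ^ 2) (g * kap L) (wc L (u 0))
    (fc (θ 0)) C D _ hν' v1 (hb.zΘ 0 (by simp)) v2 (hb.cjΘ 0 (by simp)) hLC hLD v7
  intro t ht
  obtain ⟨e1, e2⟩ := uni_Ici hU hν' hWΘ hb hfin hW0 hΘ0 t ht
  obtain ⟨b1, b2⟩ := hbd t ht
  have e1' : W t = wc L (u t) := e1
  have e2' : Θ t = fc (θ t) := e2
  rw [e1'] at b2
  rw [e2'] at b1
  refine ⟨b1, LB_mono b2 ?_⟩
  have h1 : Real.exp (-(ν * kap L ^ 2 * t)) ≤ 1 := by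
    rw [Real.exp_le_one_iff]
    have : 0 ≤ ν * kap L ^ 2 * t := by positivity
    linarith
  have h2 : Real.exp (-(ν * kap L ^ 2 * t)) * C ≤ 1 * C := mul_le_mul_of_nonneg_right h1 hC0
  linarith

lemma wc_tendsto (L : ℝ) {q : ℕ → Fin 2 → T2 → ℝ} {x : Fin 2 → T2 → ℝ}
    (h : ∀ i k, Tendsto (fun n => fc (q n i) k) atTop (𝓝 (fc (x i) k))) (k : K2) :
    Tendsto (fun n => wc L (q n) k) atTop (𝓝 (wc L x k)) := by
  unfold wc
  exact (((h 1 k).const_mul _).sub ((h 0 k).const_mul _)).const_mul _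

end Sub

theorem t_Sub (hV : StVel) (hB1 : StBr1) (hB2 : StBr2) (hE : StEx) (hU : StUni) (hCp : StCpt)
    (hSh : StShf) (hO1 : StOm1) : StSub := by
  intro L ν g r hL hν hg hr x hx
  have hκ : 0 < kap L := by unfold kap; positivity
  have hν' : 0 < ν * kap L ^ 2 := by positivity
  obtain ⟨t, p, q, h1, h2, h3⟩ := hO1 L ν g _ x hx
  have hEv : ∀ n : ℕ, ∃ (u : ℝ → Fin 2 → T2 → ℝ) (θ : ℝ → T2 → ℝ), SolV L ν g (Ici 0) u θ ∧
    (u 0, θ 0) = p n ∧ (u (t n), θ (t n)) = q n := fun n => (h1 n).2.2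
  choose u θ hs hp hq using hEv
  set C : ℝ := (2 * g * r / (ν * kap L ^ 2)) ^ 2 / L ^ 2 +
      (g * kap L) ^ 2 * (r ^ 2 / L ^ 2) / (ν * kap L ^ 2) ^ 2 with hC
  set D : ℝ := r ^ 2 / L ^ 2 with hD
  have hbd : ∀ n, ∀ s : ℝ, 0 ≤ s → LB D (fc (θ n s)) ∧ LB C (wc L (u n s)) := fun n =>
    Sub.bounds hV hB1 hE hU hL hν (hs n) (by rw [hp n]; exact (h1 n).2.1)
  have hbr : ∀ n, LSol (ν * kap L ^ 2) (g * kap L) (Ici 0) (fun s => wc L (u n s))
      (fun s => fc (θ n s)) := fun n => hB1 L ν g (Ici 0) (u n) (θ n) hL Set.ordConnected_Ici (hs n)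
  have hshift : ∀ n, LSol (ν * kap L ^ 2) (g * kap L) (Ici (-(t n)))
      (fun s => wc L (u n (s + t n))) (fun s => fc (θ n (s + t n))) := fun n =>
    hSh _ _ (t n) (Ici 0) (Ici (-(t n))) _ _ (hbr n) Set.ordConnected_Ici (fun s hs' => by
      have : -(t n) ≤ s := hs'
      show 0 ≤ s + t n
      linarith)
  set M : ℝ := max C D with hM
  obtain ⟨φ, W, Θ, hφ, hWΘ, hlim⟩ := hCp (ν * kap L ^ 2) (g * kap L) univ
    (fun n => Ici (-(t n))) (fun n s => wc L (u n (s + t n))) (fun n s => fc (θ n (s + t n)))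
    (fun _ _ => M) Set.ordConnected_univ (fun n => Set.ordConnected_Ici) hshift (by
      intro a _ b _
      obtain ⟨n0, hn0⟩ := exists_nat_ge (-a)
      filter_upwards [eventually_ge_atTop n0] with n hn
      have h4 : -a ≤ t n := hn0.trans (le_trans (by exact_mod_cast hn) (h1 n).1)
      refine ⟨fun s hs' => ?_, fun s hs' => ?_⟩
      · show -(t n) ≤ s
        linarith [hs'.1]
      · have h5 : 0 ≤ s + t n := by linarith [hs'.1]
        obtain ⟨b1, b2⟩ := hbd n (s + t n) h5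
        exact ⟨Sub.LB_mono b2 (le_max_left _ _), Sub.LB_mono b1 (le_max_right _ _)⟩)
  have hφt : Tendsto φ atTop atTop := hφ.tendsto_atTop
  -- the limit at time zero
  have hx1 : x.1 ∈ Hs := hx.1
  have hx2 : x.2 ∈ L20 := hx.2.1
  have hqu : ∀ n, u n (0 + t n) = (q n).1 := fun n => by rw [zero_add]; exact congrArg Prod.fst (hq n)
  have hqθ : ∀ n, θ n (0 + t n) = (q n).2 := fun n => by rw [zero_add]; exact congrArg Prod.snd (hq n)
  have hW0 : wc L x.1 = W 0 := by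
    funext k
    have h4 := (hlim 0 (mem_univ _) k).1
    have h5 := (Sub.wc_tendsto L h2 k).comp hφt
    refine tendsto_nhds_unique h5 ?_
    refine h4.congr fun n => ?_
    show wc L (u (φ n) (0 + t (φ n))) k = wc L (q (φ n)).1 k
    rw [hqu]
  have hΘ0 : fc x.2 = Θ 0 := by
    funext k
    have h4 := (hlim 0 (mem_univ _) k).2
    have h5 := (h3 k).comp hφt
    refine tendsto_nhds_unique h5 ?_
    refine h4.congr fun n => ?_
    show fc (θ (φ n) (0 + t (φ n))) k = fc (q (φ n)).2 k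
    rw [hqθ]
  obtain ⟨u', θ', hs', hu0, hθ0, hall⟩ := hB2 L ν g univ W Θ x.1 x.2 hL Set.ordConnected_univ
    (mem_univ _) hWΘ hx1 hx2 hW0 hΘ0
  -- the bounds of the limit
  have hev : ∀ s : ℝ, ∀ᶠ n in atTop, 0 ≤ s + t (φ n) := by
    intro s
    obtain ⟨n0, hn0⟩ := exists_nat_ge (-s)
    filter_upwards [eventually_ge_atTop n0] with n hn
    have h4 : n ≤ φ n := hφ.id_le n
    have h5 : ((n0 : ℕ) : ℝ) ≤ ((φ n : ℕ) : ℝ) := by exact_mod_cast hn.trans h4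
    have h6 := (h1 (φ n)).1
    linarith
  have hLW : ∀ s, LB M (W s) := fun s => Sub.LB_lim
    (a := fun n => wc L (u (φ n) (s + t (φ n))))
    ((hev s).mono fun n hn => Sub.LB_mono (hbd (φ n) _ hn).2 (le_max_left _ _))
    (fun k => (hlim s (mem_univ _) k).1)
  have hLΘ : ∀ s, LB M (Θ s) := fun s => Sub.LB_lim
    (a := fun n => fc (θ (φ n) (s + t (φ n))))
    ((hev s).mono fun n hn => Sub.LB_mono (hbd (φ n) _ hn).1 (le_max_right _ _))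
    (fun k => (hlim s (mem_univ _) k).2)
  refine ⟨u', θ', hs', ⟨max (M / kap L ^ 2) M, fun s => ⟨fun i => ?_, ?_⟩⟩, hu0, hθ0⟩
  · have hm := hs'.memH s (mem_univ _)
    obtain ⟨v1, v2, v3, v4, v5, v6, v7⟩ := hV L (u' s) hL hm
    have h4 : LB M (wc L (u' s)) := by
      rw [(hall s (mem_univ _)).1]
      exact hLW s
    have h5 := uc_LB hκ v1 h4 i
    have h6 : fc (u' s i) = uc (kap L) (wc L (u' s)) i := funext (v3 i)
    rw [← h6] at h5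
    exact (norm_le_of_LB' (hm.1 i).1 h5).trans (le_max_left _ _)
  · have hm := hs'.memL s (mem_univ _)
    have h4 : LB M (fc (θ' s)) := by
      rw [(hall s (mem_univ _)).2]
      exact hLΘ s
    exact (norm_le_of_LB' hm.1 h4).trans (le_max_right _ _)

end Pool.Agent.R211.PK
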