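import Pool.Agent.R211.PK.Stm

/-!
Project PK, piece SUP: the attractor is contained in the union of the weak omega-limit sets.
-/

set_option autoImplicit false

open Set Filter Topology MeasureTheory
open scoped ComplexConjugate ENNReal

namespace Pool.Agent.R211.PK

open Pool.Agent.R211.BQ

namespace Sup

lemma lb_mono {C D : ℝ} {a : K2 → ℂ} (h : LB C a) (hCD : C ≤ D) : LB D a :=
  fun S => (h S).trans hCD

lemma lsol_mono {ν g : ℝ} {J J' : Set ℝ} {W Θ : ℝ → K2 → ℂ} (h : LSol ν g J W Θ) (hJ : J' ⊆ J) :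
    LSol ν g J' W Θ where
  zW t ht := h.zW t (hJ ht)
  zΘ t ht := h.zΘ t (hJ ht)
  cjW t ht := h.cjW t (hJ ht)
  cjΘ t ht := h.cjΘ t (hJ ht)
  bd a ha b hb := h.bd a (hJ ha) b (hJ hb)
  coW k := (h.coW k).mono hJ
  coΘ k := (h.coΘ k).mono hJ
  eqW k a ha b hb hab := h.eqW k a (hJ ha) b (hJ hb) hab
  eqΘ k a ha b hb hab := h.eqΘ k a (hJ ha) b (hJ hb) hab

lemma approx (hEx : StEx) (hUni : StUni) (hCpt : StCpt) (hShf : StShf) {ν g C D E : ℝ}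
    (hν : 0 < ν) {W Θ : ℝ → K2 → ℂ} (h : LSol ν g univ W Θ) (n : ℕ) (hC : LB C (W (-(n : ℝ))))
    (hE : LB E (fun k => W (-(n : ℝ)) k / ln k)) (hD : LB D (Θ (-(n : ℝ))))
    (f : ℕ → K2 → ℂ) (f0 : ∀ m, f m 0 = 0) (fcj : ∀ m k, conj (f m k) = f m (-k))
    (fD : ∀ m, LB D (f m)) (flim : ∀ k, Tendsto (fun m => f m k) atTop (𝓝 (Θ (-(n : ℝ)) k)))
    {ε : ℝ} (hε : 0 < ε) (F : Finset K2) :
    ∃ (m : ℕ) (W' Θ' : ℝ → K2 → ℂ), LSol ν g (Ici 0) W' Θ' ∧ W' 0 = W (-(n : ℝ)) ∧ Θ' 0 = f m ∧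
      (∀ t : ℝ, 0 ≤ t → LB D (Θ' t) ∧ LB (C + g ^ 2 * D / ν ^ 2) (W' t)) ∧
      ∀ k ∈ F, ‖W' n k - W 0 k‖ < ε ∧ ‖Θ' n k - Θ 0 k‖ < ε := by
  have hC0 : 0 ≤ C := hC.nonneg
  have hD0 : 0 ≤ D := hD.nonneg
  have hmu : (-(n : ℝ)) ∈ (univ : Set ℝ) := mem_univ _
  choose Wm Θm hm using fun m => hEx ν g (W (-(n : ℝ))) (f m) C D E hν (h.zW _ hmu) (f0 m)
    (h.cjW _ hmu) (fcj m) hC (fD m) hE
  obtain ⟨We, Θe, he⟩ := hEx ν g (W (-(n : ℝ))) (Θ (-(n : ℝ))) C D E hν (h.zW _ hmu) (h.zΘ _ hmu)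
    (h.cjW _ hmu) (h.cjΘ _ hmu) hC hD hE
  have hbd : ∀ m, ∀ t : ℝ, 0 ≤ t → LB D (Θm m t) ∧ LB (C + g ^ 2 * D / ν ^ 2) (Wm m t) := by
    intro m t ht
    refine ⟨((hm m).2.2.2.1 t ht).1, lb_mono ((hm m).2.2.2.1 t ht).2 ?_⟩
    have h1 : Real.exp (-(ν * t)) ≤ 1 := by
      rw [Real.exp_le_one_iff]
      have := mul_nonneg hν.le ht
      linarith
    have h2 : Real.exp (-(ν * t)) * C ≤ C := by nlinarith
    linarith
  obtain ⟨φ, W', Θ', hφ, hL, hlim⟩ := hCpt ν g (Ici 0) (fun _ => Ici 0) Wm Θm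
    (fun _ _ => max D (C + g ^ 2 * D / ν ^ 2)) ordConnected_Ici (fun _ => ordConnected_Ici)
    (fun m => (hm m).1) (by
      intro a ha b hb
      refine Eventually.of_forall fun m => ⟨?_, ?_⟩
      · intro t ht
        exact le_trans ha ht.1
      · intro t ht
        have ht0 : (0 : ℝ) ≤ t := le_trans ha ht.1
        exact ⟨lb_mono (hbd m t ht0).2 (le_max_right _ _), lb_mono (hbd m t ht0).1 (le_max_left _ _)⟩)
  have hT : (0 : ℝ) < (n : ℝ) + 1 := by positivity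
  have hsub : Icc (0 : ℝ) ((n : ℝ) + 1) ⊆ Ici 0 := fun t ht => ht.1
  have hfin : ∫⁻ t in Icc (0 : ℝ) ((n : ℝ) + 1), ∑' k, ENNReal.ofReal (n2 k * ‖We t k‖ ^ 2) < ⊤ :=
    he.2.2.2.2.2 _
  have hsh : LSol ν g (Icc (0 : ℝ) ((n : ℝ) + 1)) (fun t => W (t + -(n : ℝ)))
      (fun t => Θ (t + -(n : ℝ))) :=
    hShf ν g (-(n : ℝ)) univ (Icc (0 : ℝ) ((n : ℝ) + 1)) W Θ h ordConnected_Icc
      (fun _ _ => mem_univ _)
  have e1 := hUni ν g ((n : ℝ) + 1) We Θe (fun t => W (t + -(n : ℝ))) (fun t => Θ (t + -(n : ℝ)))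
    hν hT (lsol_mono he.1 hsub) hsh hfin (by rw [he.2.1]; simp) (by rw [he.2.2.1]; simp)
  have hW0 : W' 0 = W (-(n : ℝ)) := by
    funext k
    refine tendsto_nhds_unique (hlim 0 (mem_Ici.2 le_rfl) k).1 ?_
    have : (fun j => Wm (φ j) 0 k) = fun _ => W (-(n : ℝ)) k := by
      funext j
      rw [(hm (φ j)).2.1]
    rw [this]
    exact tendsto_const_nhds
  have hΘ0 : Θ' 0 = Θ (-(n : ℝ)) := by
    funext k
    refine tendsto_nhds_unique (hlim 0 (mem_Ici.2 le_rfl) k).2 ?_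
    have : (fun j => Θm (φ j) 0 k) = fun j => f (φ j) k := by
      funext j
      rw [(hm (φ j)).2.2.1]
    rw [this]
    exact (flim k).comp hφ.tendsto_atTop
  have e2 := hUni ν g ((n : ℝ) + 1) We Θe W' Θ' hν hT (lsol_mono he.1 hsub) (lsol_mono hL hsub)
    hfin (by rw [he.2.1, hW0]) (by rw [he.2.2.1, hΘ0])
  have hn : (n : ℝ) ∈ Icc (0 : ℝ) ((n : ℝ) + 1) := ⟨Nat.cast_nonneg n, by linarith⟩
  have hWn : W' n = W 0 := by
    rw [← (e2 n hn).1, (e1 n hn).1]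
    simp
  have hΘn : Θ' n = Θ 0 := by
    rw [← (e2 n hn).2, (e1 n hn).2]
    simp
  have hev : ∀ᶠ j in atTop, ∀ k ∈ F, ‖Wm (φ j) n k - W 0 k‖ < ε ∧ ‖Θm (φ j) n k - Θ 0 k‖ < ε := by
    rw [Filter.eventually_all_finset]
    intro k hk
    have l1 := (hlim n (mem_Ici.2 (Nat.cast_nonneg n)) k).1
    have l2 := (hlim n (mem_Ici.2 (Nat.cast_nonneg n)) k).2
    rw [hWn] at l1
    rw [hΘn] at l2
    have m1 := Metric.tendsto_nhds.1 l1 ε hε
    have m2 := Metric.tendsto_nhds.1 l2 ε hε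
    filter_upwards [m1, m2] with j j1 j2
    rw [dist_eq_norm] at j1 j2
    exact ⟨j1, j2⟩
  obtain ⟨j, hj⟩ := hev.exists
  exact ⟨φ j, Wm (φ j), Θm (φ j), (hm (φ j)).1, (hm (φ j)).2.1, (hm (φ j)).2.2.1, hbd (φ j), hj⟩

end Sup

open Sup in
theorem t_Sup (hVel : StVel) (hBr1 : StBr1) (hBr2 : StBr2) (hEx : StEx) (hUni : StUni)
    (hCpt : StCpt) (hShf : StShf) (hVB : StVB) (hNrm : StNrm) (hOm2 : StOm2) : StSup := by
  intro L ν g hL hν hg x hx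
  obtain ⟨u, θ, hS, ⟨M, hM⟩, hu0, hθ0⟩ := hx
  have hκ : 0 < kap L := by unfold kap; positivity
  have hν' : 0 < ν * kap L ^ 2 := by positivity
  have hH : ∀ t, u t ∈ Hs := fun t => hS.memH t (mem_univ _)
  have hL2 : ∀ t, θ t ∈ L20 := fun t => hS.memL t (mem_univ _)
  have hlat : LSol (ν * kap L ^ 2) (g * kap L) univ (fun t => wc L (u t)) (fun t => fc (θ t)) :=
    hBr1 L ν g univ u θ hL ordConnected_univ hS
  have hM0 : 0 ≤ M := le_trans (integral_nonneg fun y => sq_nonneg _) (hM 0).2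
  -- bounds
  have hLE : ∀ t, LB (kap L ^ 2 * (2 * M)) (fun k => wc L (u t) k / ln k) := by
    intro t
    have h7 := (hVel L (u t) hL (hH t)).2.2.2.2.2.2
    refine lb_mono h7 ?_
    have : ∑ i, ∫ y, u t i y ^ 2 ∂mu ≤ 2 * M := by
      rw [Fin.sum_univ_two]
      have a1 := (hM t).1 0
      have a2 := (hM t).1 1
      linarith
    exact mul_le_mul_of_nonneg_left this (sq_nonneg _)
  have hLΘ : ∀ t, LB M (fc (θ t)) := fun t => lb_mono (LB_fc' (hL2 t).1) (hM t).2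
  obtain ⟨C, hC⟩ := hVB (ν * kap L ^ 2) (g * kap L) (max (kap L ^ 2 * (2 * M)) M)
    (fun t => wc L (u t)) (fun t => fc (θ t)) hν' hlat
    (fun t => lb_mono (hLE t) (le_max_left _ _)) (fun t => lb_mono (hLΘ t) (le_max_right _ _))
  have hC0 : 0 ≤ C := (hC 0).nonneg
  -- the radius
  set r : ℝ := L * Real.sqrt M + (ν * kap L ^ 2 / (2 * g)) * (L * Real.sqrt C) with hr
  have hr0 : 0 ≤ r := by positivity
  have hrM : L ^ 2 * M ≤ r ^ 2 := by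
    have h1 : L * Real.sqrt M ≤ r := by
      rw [hr]
      have : 0 ≤ (ν * kap L ^ 2 / (2 * g)) * (L * Real.sqrt C) := by positivity
      linarith
    have h2 : (L * Real.sqrt M) ^ 2 ≤ r ^ 2 := by
      apply pow_le_pow_left₀ (by positivity) h1
    rwa [mul_pow, Real.sq_sqrt hM0] at h2
  have hrC : L ^ 2 * C ≤ (2 * g * r / (ν * kap L ^ 2)) ^ 2 := by
    have h1 : L * Real.sqrt C ≤ 2 * g * r / (ν * kap L ^ 2) := by
      rw [le_div_iff₀ hν']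
      have h3 : 2 * g * ((ν * kap L ^ 2 / (2 * g)) * (L * Real.sqrt C))
          = L * Real.sqrt C * (ν * kap L ^ 2) := by
        field_simp
      have h4 : 0 ≤ 2 * g * (L * Real.sqrt M) := by positivity
      rw [hr]
      nlinarith
    have h2 : (L * Real.sqrt C) ^ 2 ≤ (2 * g * r / (ν * kap L ^ 2)) ^ 2 := by
      apply pow_le_pow_left₀ (by positivity) h1
    rwa [mul_pow, Real.sq_sqrt hC0] at h2
  have hρM : M ≤ (r / L) ^ 2 := by
    rw [div_pow, le_div_iff₀ (by positivity)]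
    linarith
  refine ⟨r, hr0, ?_⟩
  -- the finite sets of frequencies
  let F : ℕ → Finset K2 := fun n =>
    (Finset.Icc (-(n : ℤ)) n) ×ˢ (Finset.Icc (-(n : ℤ)) n)
  have hF : ∀ k : K2, ∀ᶠ n : ℕ in atTop, k ∈ F n := by
    intro k
    filter_upwards [eventually_ge_atTop (k.1.natAbs + k.2.natAbs)] with n hn
    simp only [F, Finset.mem_product, Finset.mem_Icc]
    omega
  have key : ∀ n : ℕ, ∃ (p q : (Fin 2 → T2 → ℝ) × (T2 → ℝ)), p ∈ Bt L ν g r ∧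
      Ev L ν g n p q ∧ Bdd (max ((C + (g * kap L) ^ 2 * ((r / L) ^ 2) / (ν * kap L ^ 2) ^ 2)
        / kap L ^ 2) ((r / L) ^ 2)) q.1 q.2 ∧ q.1 ∈ Hs ∧
      ∀ k ∈ F n, ‖wc L q.1 k - wc L (u 0) k‖ < 1 / ((n : ℝ) + 1) ∧
        ‖fc q.2 k - fc (θ 0) k‖ < 1 / ((n : ℝ) + 1) := by
    intro n
    obtain ⟨h, hh, hlim⟩ := hNrm (θ (-(n : ℝ))) (r / L) (hL2 _) ((hM _).2.trans hρM)
    obtain ⟨m, W', Θ', s1, s2, s3, s4, s5⟩ := approx hEx hUni hCpt hShf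
      (C := C) (D := (r / L) ^ 2) (E := kap L ^ 2 * (2 * M)) hν' hlat n (hC _) (hLE _)
      (lb_mono (hLΘ _) hρM) (fun m => fc (h m))
      (fun m => by rw [fc_zero, (hh m).1.2, Complex.ofReal_zero])
      (fun m k => (fc_neg (h m) k).symm)
      (fun m => lb_mono (LB_fc' (hh m).1.1) (hh m).2.le) hlim
      (ε := 1 / ((n : ℝ) + 1)) (by positivity) (F n)
    obtain ⟨u', θ', b1, b2, b3, b4⟩ := hBr2 L ν g (Ici 0) W' Θ' (u (-(n : ℝ))) (h m) hL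
      ordConnected_Ici (mem_Ici.2 le_rfl) s1 (hH _) (hh m).1 s2.symm s3.symm
    have hn0 : (n : ℝ) ∈ Ici (0 : ℝ) := mem_Ici.2 (Nat.cast_nonneg n)
    refine ⟨(u (-(n : ℝ)), h m), (u' n, θ' n), ⟨hH _, (hh m).1, ?_, ?_⟩,
      ⟨u', θ', b1, ?_, rfl⟩, ⟨?_, ?_⟩, b1.memH _ hn0, ?_⟩
    · show L ^ 2 * ∫ y, h m y ^ 2 ∂mu = r ^ 2
      rw [(hh m).2]
      field_simp
    · show ENNReal.ofReal (L ^ 2) * grad2 L (u (-(n : ℝ))) ≤ _
      have h6 := ((hVel L (u (-(n : ℝ))) hL (hH _)).2.2.2.2.2.1 C hC0).1 (hC _)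
      calc ENNReal.ofReal (L ^ 2) * grad2 L (u (-(n : ℝ)))
          ≤ ENNReal.ofReal (L ^ 2) * ENNReal.ofReal C := by gcongr
        _ = ENNReal.ofReal (L ^ 2 * C) := by rw [ENNReal.ofReal_mul (by positivity)]
        _ ≤ _ := ENNReal.ofReal_le_ofReal hrC
    · rw [b2, b3]
    · intro i
      have hm2 : MemLp (u' n i) 2 mu := ((b1.memH _ hn0).1 i).1
      refine (norm_le_of_LB' hm2 ?_).trans (le_max_left _ _)
      have e3 : fc (u' n i) = uc (kap L) (wc L (u' n)) i :=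
        funext ((hVel L (u' n) hL (b1.memH _ hn0)).2.2.1 i)
      rw [e3, (b4 _ hn0).1]
      exact uc_LB hκ (s1.zW _ hn0) (s4 _ hn0).2 i
    · have hm2 : MemLp (θ' n) 2 mu := (b1.memL _ hn0).1
      refine (norm_le_of_LB' hm2 ?_).trans (le_max_right _ _)
      rw [(b4 _ hn0).2]
      exact (s4 _ hn0).1
    · intro k hk
      have := s5 k hk
      show ‖wc L (u' n) k - _‖ < _ ∧ ‖fc (θ' n) k - _‖ < _
      rw [(b4 _ hn0).1, (b4 _ hn0).2]
      exact this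
  choose p q hp hE hB hqH hq using key
  have hx1 : x.1 ∈ Hs := by rw [← hu0]; exact hH 0
  have hx2 : x.2 ∈ L20 := by rw [← hθ0]; exact hL2 0
  have hten : ∀ (a : ℕ → K2 → ℂ) (b : K2 → ℂ),
      (∀ n, ∀ k ∈ F n, ‖a n k - b k‖ < 1 / ((n : ℝ) + 1)) → ∀ k,
      Tendsto (fun n => a n k) atTop (𝓝 (b k)) := by
    intro a b hab k
    rw [tendsto_iff_norm_sub_tendsto_zero]
    refine squeeze_zero' (Eventually.of_forall fun _ => norm_nonneg _) ?_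
      tendsto_one_div_add_atTop_nhds_zero_nat
    filter_upwards [hF k] with n hn
    exact (hab n k hn).le
  have tW := hten (fun n => wc L (q n).1) (wc L (u 0)) (fun n k hk => (hq n k hk).1)
  have tΘ := hten (fun n => fc (q n).2) (fc (θ 0)) (fun n k hk => (hq n k hk).2)
  refine hOm2 L ν g _ (Bt L ν g r) x (fun n => (n : ℝ)) p q hx1 hx2
    tendsto_natCast_atTop_atTop (fun n => ⟨Nat.cast_nonneg n, hp n, hE n, hB n⟩) ?_ ?_
  · intro i k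
    rw [← hu0]
    have e1 : ∀ n, fc ((q n).1 i) k = uc (kap L) (wc L (q n).1) i k := fun n =>
      (hVel L (q n).1 hL (hqH n)).2.2.1 i k
    have e2 : fc (u 0 i) k = uc (kap L) (wc L (u 0)) i k :=
      (hVel L (u 0) hL (hH 0)).2.2.1 i k
    simp only [e1, e2]
    unfold uc
    exact (tW k).const_mul _
  · intro k
    rw [← hθ0]
    exact tΘ k

end Pool.Agent.R211.PK
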