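import Pool.Agent.R211.PK.Stm

/-! PK-T1. -/

set_option autoImplicit false

namespace Pool.Agent.R211.PK

namespace T1gen

theorem gen {K : Type} [AddCommGroup K] [DecidableEq K] (a b c : K → ℝ) (A B C : ℝ)
    (ha : ∀ k, 0 ≤ a k) (hb : ∀ k, 0 ≤ b k) (hc : ∀ k, 0 ≤ c k)
    (hA : ∀ S : Finset K, ∑ k ∈ S, a k ≤ A) (hB : ∀ S : Finset K, ∑ k ∈ S, b k ^ 2 ≤ B)
    (hC : ∀ S : Finset K, ∑ k ∈ S, c k ^ 2 ≤ C) (P : Finset (K × K)) :
    ∑ p ∈ P, a p.1 * b (p.2 - p.1) * c p.2 ≤ A * Real.sqrt B * Real.sqrt C := by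
  have h1 : ∑ p ∈ P, a p.1 * b (p.2 - p.1) * c p.2 ≤
      ∑ p ∈ (P.image Prod.fst) ×ˢ (P.image Prod.snd), a p.1 * b (p.2 - p.1) * c p.2 := by
    apply Finset.sum_le_sum_of_subset_of_nonneg
    · intro p hp
      rw [Finset.mem_product]
      exact ⟨Finset.mem_image_of_mem _ hp, Finset.mem_image_of_mem _ hp⟩
    · intro p _ _
      exact mul_nonneg (mul_nonneg (ha _) (hb _)) (hc _)
  refine h1.trans ?_
  rw [Finset.sum_product]
  have h2 : ∀ l ∈ P.image Prod.fst, ∑ k ∈ P.image Prod.snd, a l * b (k - l) * c k ≤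
      a l * (Real.sqrt B * Real.sqrt C) := by
    intro l _
    have e : ∑ k ∈ P.image Prod.snd, a l * b (k - l) * c k =
        a l * ∑ k ∈ P.image Prod.snd, b (k - l) * c k := by
      rw [Finset.mul_sum]
      exact Finset.sum_congr rfl fun k _ => by ring
    rw [e]
    refine mul_le_mul_of_nonneg_left ?_ (ha l)
    refine (Real.sum_mul_le_sqrt_mul_sqrt _ _ _).trans ?_
    refine mul_le_mul (Real.sqrt_le_sqrt ?_) (Real.sqrt_le_sqrt (hC _)) (Real.sqrt_nonneg _)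
      (Real.sqrt_nonneg _)
    have e2 : ∑ k ∈ P.image Prod.snd, b (k - l) ^ 2 =
        ∑ k ∈ (P.image Prod.snd).image (fun k => k - l), b k ^ 2 :=
      (Finset.sum_image (f := fun k => b k ^ 2) (fun x _ y _ hxy => sub_left_injective hxy)).symm
    rw [e2]
    exact hB _
  refine (Finset.sum_le_sum h2).trans ?_
  rw [← Finset.sum_mul, mul_assoc]
  exact mul_le_mul_of_nonneg_right (hA _) (by positivity)

end T1gen

theorem t_T1 : StT1 := by
  intro a b c A B C ha hb hc hA hB hC P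
  exact T1gen.gen a b c A B C ha hb hc hA hB hC P

end Pool.Agent.R211.PK
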