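import Pool.Agent.R211.PK.Stm

/-!
Project PK: a trilinear estimate with weights.
-/

set_option autoImplicit false

namespace Pool.Agent.R211.PK

open Finset Pool.Agent.R211.BQ

/-- Trilinear estimate from a bound on the sums of `1 / q²`. -/
theorem t2core {G : Type*} [AddCommGroup G] [DecidableEq G] (q : G → ℝ) (hq : ∀ k, 0 < q k)
    (D : ℝ) (hD : 0 ≤ D) (hS : ∀ S : Finset G, ∑ k ∈ S, (1 / q k) ^ 2 ≤ D ^ 2)
    (a b c : G → ℝ) (A B C : ℝ)
    (hA : ∀ S : Finset G, ∑ k ∈ S, a k ^ 2 ≤ A)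
    (hB : ∀ S : Finset G, ∑ k ∈ S, q k * b k ^ 2 ≤ B)
    (hC : ∀ S : Finset G, ∑ k ∈ S, q k * c k ^ 2 ≤ C) (P : Finset (G × G)) :
    ∑ p ∈ P, a p.1 * b (p.2 - p.1) * c p.2 ≤ D * √A * √B * √C := by
  have hA0 : 0 ≤ A := by simpa using hA ∅
  have hB0 : 0 ≤ B := by simpa using hB ∅
  have hC0 : 0 ≤ C := by simpa using hC ∅
  set s : G → ℝ := fun k => √(q k) with hs
  have hs0 : ∀ k, 0 < s k := fun k => Real.sqrt_pos.2 (hq k)
  have hs2 : ∀ k, s k ^ 2 = q k := fun k => Real.sq_sqrt (hq k).le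
  set f : G × G → ℝ := fun p => a p.1 / (s (p.2 - p.1) * s p.2) with hf
  set g : G × G → ℝ := fun p => (s (p.2 - p.1) * b (p.2 - p.1)) * (s p.2 * c p.2) with hg
  have h1 : ∑ p ∈ P, a p.1 * b (p.2 - p.1) * c p.2 = ∑ p ∈ P, f p * g p := by
    refine Finset.sum_congr rfl fun p _ => ?_
    simp only [hf, hg]
    have := (hs0 (p.2 - p.1)).ne'
    have := (hs0 p.2).ne'
    field_simp
  have h2 : ∑ p ∈ P, f p * g p ≤ √(∑ p ∈ P, f p ^ 2) * √(∑ p ∈ P, g p ^ 2) :=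
    Real.sum_mul_le_sqrt_mul_sqrt _ _ _
  have hP : P ⊆ P.image Prod.fst ×ˢ P.image Prod.snd := by
    intro p hp
    exact Finset.mem_product.2 ⟨Finset.mem_image_of_mem _ hp, Finset.mem_image_of_mem _ hp⟩
  set P1 := P.image Prod.fst
  set P2 := P.image Prod.snd
  have h3 : ∑ p ∈ P, f p ^ 2 ≤ A * D ^ 2 := by
    calc ∑ p ∈ P, f p ^ 2 ≤ ∑ p ∈ P1 ×ˢ P2, f p ^ 2 :=
          Finset.sum_le_sum_of_subset_of_nonneg hP fun _ _ _ => sq_nonneg _
      _ = ∑ l ∈ P1, ∑ k ∈ P2, f (l, k) ^ 2 := Finset.sum_product _ _ _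
      _ ≤ ∑ l ∈ P1, a l ^ 2 * D ^ 2 := by
          refine Finset.sum_le_sum fun l _ => ?_
          have e1 : ∀ k, f (l, k) ^ 2 ≤ a l ^ 2 * (((1 / q (k - l)) ^ 2 + (1 / q k) ^ 2) / 2) := by
            intro k
            have e2 : f (l, k) ^ 2 = a l ^ 2 * ((1 / q (k - l)) * (1 / q k)) := by
              simp only [hf]
              rw [div_pow, mul_pow, hs2, hs2]
              have := (hq (k - l)).ne'
              have := (hq k).ne'
              field_simp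
            rw [e2]
            refine mul_le_mul_of_nonneg_left ?_ (sq_nonneg _)
            nlinarith [sq_nonneg (1 / q (k - l) - 1 / q k)]
          have e3 : ∑ k ∈ P2, (1 / q (k - l)) ^ 2 ≤ D ^ 2 := by
            have e4 : ∑ k ∈ P2, (1 / q (k - l)) ^ 2 =
                ∑ m ∈ P2.image (fun k => k - l), (1 / q m) ^ 2 :=
              (Finset.sum_image (s := P2) (g := fun k => k - l) (f := fun m => (1 / q m) ^ 2)
                (fun x _ y _ h => sub_left_injective h)).symm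
            rw [e4]
            exact hS _
          calc ∑ k ∈ P2, f (l, k) ^ 2 ≤
                ∑ k ∈ P2, a l ^ 2 * (((1 / q (k - l)) ^ 2 + (1 / q k) ^ 2) / 2) :=
                Finset.sum_le_sum fun k _ => e1 k
            _ = a l ^ 2 * ((∑ k ∈ P2, (1 / q (k - l)) ^ 2 + ∑ k ∈ P2, (1 / q k) ^ 2) / 2) := by
                rw [← Finset.mul_sum, ← Finset.sum_div, Finset.sum_add_distrib]
            _ ≤ a l ^ 2 * D ^ 2 := by
                refine mul_le_mul_of_nonneg_left ?_ (sq_nonneg _)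
                have := hS P2
                linarith
      _ = (∑ l ∈ P1, a l ^ 2) * D ^ 2 := by rw [Finset.sum_mul]
      _ ≤ A * D ^ 2 := mul_le_mul_of_nonneg_right (hA P1) (sq_nonneg _)
  have h4 : ∑ p ∈ P, g p ^ 2 ≤ B * C := by
    calc ∑ p ∈ P, g p ^ 2 ≤ ∑ p ∈ P1 ×ˢ P2, g p ^ 2 :=
          Finset.sum_le_sum_of_subset_of_nonneg hP fun _ _ _ => sq_nonneg _
      _ = ∑ k ∈ P2, ∑ l ∈ P1, g (l, k) ^ 2 := by
          rw [Finset.sum_product, Finset.sum_comm]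
      _ ≤ ∑ k ∈ P2, B * (q k * c k ^ 2) := by
          refine Finset.sum_le_sum fun k _ => ?_
          have e1 : ∀ l, g (l, k) ^ 2 = (q (k - l) * b (k - l) ^ 2) * (q k * c k ^ 2) := by
            intro l
            simp only [hg]
            rw [mul_pow, mul_pow, mul_pow, hs2, hs2]
          have e3 : ∑ l ∈ P1, q (k - l) * b (k - l) ^ 2 ≤ B := by
            have e4 : ∑ l ∈ P1, q (k - l) * b (k - l) ^ 2 =
                ∑ m ∈ P1.image (fun l => k - l), q m * b m ^ 2 :=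
              (Finset.sum_image (s := P1) (g := fun l => k - l) (f := fun m => q m * b m ^ 2)
                (fun x _ y _ h => sub_right_injective h)).symm
            rw [e4]
            exact hB _
          rw [Finset.sum_congr rfl fun l _ => e1 l, ← Finset.sum_mul]
          exact mul_le_mul_of_nonneg_right e3 (mul_nonneg (hq k).le (sq_nonneg _))
      _ = B * ∑ k ∈ P2, q k * c k ^ 2 := by rw [Finset.mul_sum]
      _ ≤ B * C := mul_le_mul_of_nonneg_left (hC P2) hB0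
  have h5 : √(∑ p ∈ P, f p ^ 2) ≤ D * √A := by
    refine (Real.sqrt_le_sqrt h3).trans (le_of_eq ?_)
    rw [Real.sqrt_mul hA0, Real.sqrt_sq hD]
    ring
  have h6 : √(∑ p ∈ P, g p ^ 2) ≤ √B * √C := by
    refine (Real.sqrt_le_sqrt h4).trans (le_of_eq ?_)
    rw [Real.sqrt_mul hB0]
  rw [h1]
  calc ∑ p ∈ P, f p * g p ≤ √(∑ p ∈ P, f p ^ 2) * √(∑ p ∈ P, g p ^ 2) := h2
    _ ≤ (D * √A) * (√B * √C) := mul_le_mul h5 h6 (Real.sqrt_nonneg _) (by positivity)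
    _ = D * √A * √B * √C := by ring

/-- One dimensional sums, natural numbers. -/
theorem t2nat {ρ : ℝ} (hρ : 1 ≤ ρ) (U : Finset ℕ) : ∑ i ∈ U, 1 / (ρ ^ 2 + (i : ℝ) ^ 2) ≤ 3 / ρ := by
  have hρ0 : 0 < ρ := by linarith
  have h1 : ∀ N : ℕ, ∑ i ∈ range (N + 1), 1 / (ρ ^ 2 + (i : ℝ) ^ 2) ≤ 3 / ρ - 2 / (ρ + N) := by
    intro N
    induction N with
    | zero =>
      simp only [zero_add, Finset.sum_range_one, Nat.cast_zero, add_zero]
      have e : 3 / ρ - 2 / ρ = 1 / ρ := by ring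
      rw [e]
      refine one_div_le_one_div_of_le hρ0 ?_
      nlinarith
    | succ N ih =>
      rw [Finset.sum_range_succ]
      have hN : (0 : ℝ) ≤ N := Nat.cast_nonneg N
      have h2 : 1 / (ρ ^ 2 + ((N + 1 : ℕ) : ℝ) ^ 2) ≤ 2 / (ρ + N) - 2 / (ρ + (N + 1 : ℕ)) := by
        push_cast
        have e : 2 / (ρ + N) - 2 / (ρ + (N + 1)) = 2 / ((ρ + N) * (ρ + (N + 1))) := by
          have : ρ + N ≠ 0 := by positivity
          have : ρ + (N + 1) ≠ 0 := by positivity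
          field_simp
          ring
        rw [e, div_le_div_iff₀ (by positivity) (by positivity)]
        nlinarith [sq_nonneg (ρ - (N + 1))]
      linarith
  obtain ⟨N, hN⟩ : ∃ N : ℕ, U ⊆ range (N + 1) := by
    refine ⟨U.sup id, fun i hi => ?_⟩
    rw [Finset.mem_range]
    exact Nat.lt_succ_of_le (Finset.le_sup (f := id) hi)
  calc ∑ i ∈ U, 1 / (ρ ^ 2 + (i : ℝ) ^ 2) ≤ ∑ i ∈ range (N + 1), 1 / (ρ ^ 2 + (i : ℝ) ^ 2) :=
        Finset.sum_le_sum_of_subset_of_nonneg hN fun _ _ _ => by positivity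
    _ ≤ 3 / ρ - 2 / (ρ + N) := h1 N
    _ ≤ 3 / ρ := by
        have : 0 ≤ 2 / (ρ + N) := by positivity
        linarith

/-- One dimensional sums, integers. -/
theorem t2int {ρ : ℝ} (hρ : 1 ≤ ρ) (T : Finset ℤ) : ∑ j ∈ T, 1 / (ρ ^ 2 + (j : ℝ) ^ 2) ≤ 6 / ρ := by
  have h1 : ∀ T' : Finset ℤ, Set.InjOn Int.natAbs (T' : Set ℤ) →
      ∑ j ∈ T', 1 / (ρ ^ 2 + (j : ℝ) ^ 2) ≤ 3 / ρ := by
    intro T' hT'
    have e : ∑ j ∈ T', 1 / (ρ ^ 2 + (j : ℝ) ^ 2) =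
        ∑ i ∈ T'.image Int.natAbs, 1 / (ρ ^ 2 + (i : ℝ) ^ 2) := by
      rw [Finset.sum_image hT']
      refine Finset.sum_congr rfl fun j _ => ?_
      have : ((j.natAbs : ℕ) : ℝ) ^ 2 = (j : ℝ) ^ 2 := by
        rw [Nat.cast_natAbs, Int.cast_abs, sq_abs]
      rw [this]
    rw [e]
    exact t2nat hρ _
  have h2 := h1 (T.filter (fun j => 0 ≤ j)) (by
    intro x hx y hy h
    simp only [Finset.coe_filter, Set.mem_ofPred_eq] at hx hy
    have hx2 := hx.2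
    have hy2 := hy.2
    omega)
  have h3 := h1 (T.filter (fun j => ¬ 0 ≤ j)) (by
    intro x hx y hy h
    simp only [Finset.coe_filter, Set.mem_ofPred_eq] at hx hy
    have hx2 := hx.2
    have hy2 := hy.2
    omega)
  rw [← Finset.sum_filter_add_sum_filter_not T (fun j => 0 ≤ j)]
  have : (6 : ℝ) / ρ = 3 / ρ + 3 / ρ := by ring
  linarith

theorem t2sum {ρ : ℝ} (hρ : 1 ≤ ρ) (S : Finset K2) :
    ∑ k ∈ S, (1 / (ρ ^ 2 + (n2 k : ℝ))) ^ 2 ≤ (6 / ρ) ^ 2 := by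
  have hρ0 : 0 < ρ := by linarith
  have hS : S ⊆ S.image Prod.fst ×ˢ S.image Prod.snd := by
    intro p hp
    exact Finset.mem_product.2 ⟨Finset.mem_image_of_mem _ hp, Finset.mem_image_of_mem _ hp⟩
  have h1 : ∀ k : K2, (1 / (ρ ^ 2 + (n2 k : ℝ))) ^ 2 ≤
      (1 / (ρ ^ 2 + (k.1 : ℝ) ^ 2)) * (1 / (ρ ^ 2 + (k.2 : ℝ) ^ 2)) := by
    intro k
    have e : (n2 k : ℝ) = (k.1 : ℝ) ^ 2 + (k.2 : ℝ) ^ 2 := by
      unfold n2
      push_cast
      ring
    rw [e, div_mul_div_comm, div_pow, one_pow, one_mul]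
    refine one_div_le_one_div_of_le (by positivity) ?_
    nlinarith [sq_nonneg (k.1 : ℝ), sq_nonneg (k.2 : ℝ), sq_nonneg ρ,
      mul_nonneg (sq_nonneg ρ) (sq_nonneg (k.1 : ℝ)), mul_nonneg (sq_nonneg ρ) (sq_nonneg (k.2 : ℝ)),
      mul_nonneg (sq_nonneg (k.1 : ℝ)) (sq_nonneg (k.2 : ℝ)), sq_nonneg ((k.1 : ℝ) ^ 2),
      sq_nonneg ((k.2 : ℝ) ^ 2)]
  calc ∑ k ∈ S, (1 / (ρ ^ 2 + (n2 k : ℝ))) ^ 2 ≤
        ∑ k ∈ S, (1 / (ρ ^ 2 + (k.1 : ℝ) ^ 2)) * (1 / (ρ ^ 2 + (k.2 : ℝ) ^ 2)) :=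
        Finset.sum_le_sum fun k _ => h1 k
    _ ≤ ∑ k ∈ S.image Prod.fst ×ˢ S.image Prod.snd,
        (1 / (ρ ^ 2 + (k.1 : ℝ) ^ 2)) * (1 / (ρ ^ 2 + (k.2 : ℝ) ^ 2)) :=
        Finset.sum_le_sum_of_subset_of_nonneg hS fun _ _ _ => by positivity
    _ = (∑ i ∈ S.image Prod.fst, 1 / (ρ ^ 2 + (i : ℝ) ^ 2)) *
        ∑ j ∈ S.image Prod.snd, 1 / (ρ ^ 2 + (j : ℝ) ^ 2) := by
        rw [Finset.sum_product, Finset.sum_mul_sum]
    _ ≤ (6 / ρ) * (6 / ρ) :=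
        mul_le_mul (t2int hρ _) (t2int hρ _) (Finset.sum_nonneg fun _ _ => by positivity)
          (by positivity)
    _ = (6 / ρ) ^ 2 := by ring

theorem t_T2 : StT2 := by
  refine ⟨6, by norm_num, fun ρ hρ a b c A B C _ _ _ hA hB hC P => ?_⟩
  have hρ0 : 0 < ρ := by linarith
  refine t2core (fun k : K2 => ρ ^ 2 + (n2 k : ℝ)) (fun k => ?_) (6 / ρ) (by positivity)
    (t2sum hρ) a b c A B C hA hB hC P
  have : (0 : ℝ) ≤ n2 k := by
    unfold n2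
    positivity
  positivity

end Pool.Agent.R211.PK
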