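import Pool.Agent.R211.PK.Stm

set_option autoImplicit false

open Set Filter Topology MeasureTheory

namespace Pool.Agent.R211.PK

open Pool.Agent.R211.BQ

namespace T3P

/-- the maximum norm -/
def mx (k : K2) : ℕ := max k.1.natAbs k.2.natAbs

lemma mx_sq_le (k : K2) : ((mx k : ℕ) : ℤ)^2 ≤ n2 k := by
  unfold mx n2
  rcases max_choice k.1.natAbs k.2.natAbs with h | h
  · rw [h, Int.natCast_natAbs, sq_abs]
    nlinarith [sq_nonneg k.2]
  · rw [h, Int.natCast_natAbs, sq_abs]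
    nlinarith [sq_nonneg k.1]

lemma mx_pos {k : K2} (hk : k ≠ 0) : 1 ≤ mx k := by
  by_contra h
  apply hk
  unfold mx at h
  have h1 : k.1 = 0 := by omega
  have h2 : k.2 = 0 := by omega
  exact Prod.ext h1 h2

lemma card_fib (S : Finset K2) (m : ℕ) (hm : m ≠ 0) :
    (S.filter (fun k => mx k = m)).card ≤ 8 * m := by
  rw [← Int.card_box hm]
  apply Finset.card_le_card
  intro k hk
  rw [Int.mem_box]
  exact (Finset.mem_filter.mp hk).2

lemma inv_sum (S : Finset K2) (h0 : (0 : K2) ∉ S) (N : ℝ) (hN : 1 ≤ N)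
    (hS : ∀ k ∈ S, (n2 k : ℝ) ≤ N ^ 2) :
    ∑ k ∈ S, 1 / (n2 k : ℝ) ≤ 8 * (1 + Real.log N) := by
  have hM1 : 1 ≤ ⌊N⌋₊ := Nat.le_floor (by exact_mod_cast hN)
  have hMN : ((⌊N⌋₊ : ℕ) : ℝ) ≤ N := Nat.floor_le (by linarith)
  have hsq : ∀ k : K2, ((mx k : ℕ) : ℝ)^2 ≤ (n2 k : ℝ) := fun k => by
    exact_mod_cast mx_sq_le k
  have hmap : ∀ k ∈ S, mx k ∈ Finset.Icc 1 ⌊N⌋₊ := by
    intro k hk
    rw [Finset.mem_Icc]
    refine ⟨mx_pos (fun h => h0 (h ▸ hk)), Nat.le_floor ?_⟩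
    have h1 := (hsq k).trans (hS k hk)
    exact (pow_le_pow_iff_left₀ (by positivity) (by linarith) two_ne_zero).mp h1
  rw [← Finset.sum_fiberwise_of_maps_to hmap]
  calc ∑ m ∈ Finset.Icc 1 ⌊N⌋₊, ∑ k ∈ S with mx k = m, 1 / (n2 k : ℝ)
      ≤ ∑ m ∈ Finset.Icc 1 ⌊N⌋₊, 8 * ((m : ℝ)⁻¹) := by
        apply Finset.sum_le_sum
        intro m hm
        rw [Finset.mem_Icc] at hm
        have hm0 : (0:ℝ) < m := by exact_mod_cast hm.1
        have h1 : ∀ k ∈ S.filter (fun k => mx k = m), 1 / (n2 k : ℝ) ≤ 1 / (m:ℝ)^2 := by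
          intro k hk
          apply one_div_le_one_div_of_le (by positivity)
          have := hsq k
          rwa [(Finset.mem_filter.mp hk).2] at this
        refine (Finset.sum_le_card_nsmul _ _ _ h1).trans ?_
        rw [nsmul_eq_mul]
        have h2 : ((S.filter (fun k => mx k = m)).card : ℝ) ≤ 8 * m := by
          exact_mod_cast card_fib S m (by omega)
        calc ((S.filter (fun k => mx k = m)).card : ℝ) * (1 / (m:ℝ)^2)
            ≤ (8 * m) * (1 / (m:ℝ)^2) := mul_le_mul_of_nonneg_right h2 (by positivity)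
          _ = 8 * ((m : ℝ)⁻¹) := by field_simp
    _ = 8 * (harmonic ⌊N⌋₊ : ℝ) := by
        rw [← Finset.mul_sum, harmonic_eq_sum_Icc]
        push_cast
        rfl
    _ ≤ 8 * (1 + Real.log ⌊N⌋₊) :=
        mul_le_mul_of_nonneg_left (harmonic_le_one_add_log _) (by norm_num)
    _ ≤ 8 * (1 + Real.log N) := by
        have := Real.log_le_log (by exact_mod_cast hM1) hMN
        linarith

end T3P

open T3P

theorem t_T3 : StT3 := by
  refine ⟨3, by norm_num, ?_⟩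
  intro N hN a A ha ha0 hA S hS
  have hA0 : 0 ≤ A := by simpa using hA ∅
  have hlog : 0 ≤ 1 + Real.log N := by
    have := Real.log_nonneg hN
    linarith
  set S' := S.erase (0 : K2) with hS'
  have e1 : ∑ k ∈ S, a k = ∑ k ∈ S', a k := by
    rw [hS', Finset.sum_erase _ ha0]
  have hpos : ∀ k ∈ S', (0:ℝ) < n2 k := by
    intro k hk
    have h1 := mx_pos (Finset.ne_of_mem_erase hk)
    have h2 := mx_sq_le k
    have h3 : (1:ℤ) ≤ ((mx k : ℕ) : ℤ)^2 := by
      have : (1:ℤ) ≤ (mx k : ℕ) := by exact_mod_cast h1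
      nlinarith
    have h4 : (1:ℤ) ≤ n2 k := h3.trans h2
    have : (1:ℝ) ≤ n2 k := by exact_mod_cast h4
    linarith
  have e2 : ∑ k ∈ S', a k = ∑ k ∈ S', (Real.sqrt (n2 k))⁻¹ * (Real.sqrt (n2 k) * a k) := by
    apply Finset.sum_congr rfl
    intro k hk
    have := Real.sqrt_pos.mpr (hpos k hk)
    field_simp
  have e3 : ∑ k ∈ S', ((Real.sqrt (n2 k))⁻¹)^2 = ∑ k ∈ S', 1 / (n2 k : ℝ) := by
    apply Finset.sum_congr rfl
    intro k hk
    rw [inv_pow, Real.sq_sqrt (hpos k hk).le, one_div]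
  have e4 : ∑ k ∈ S', (Real.sqrt (n2 k) * a k)^2 = ∑ k ∈ S', (n2 k : ℝ) * a k ^ 2 := by
    apply Finset.sum_congr rfl
    intro k hk
    rw [mul_pow, Real.sq_sqrt (hpos k hk).le]
  have h1 := Finset.sum_mul_sq_le_sq_mul_sq S' (fun k => (Real.sqrt (n2 k))⁻¹)
    (fun k => Real.sqrt (n2 k) * a k)
  rw [← e2, e3, e4] at h1
  have h2 := inv_sum S' (Finset.notMem_erase _ _) N hN
    (fun k hk => hS k (Finset.mem_of_mem_erase hk))
  have h3 := hA S'
  have h4 : (∑ k ∈ S', a k)^2 ≤ 3^2 * ((1 + Real.log N) * A) := by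
    have h5 : 0 ≤ ∑ k ∈ S', (n2 k : ℝ) * a k ^ 2 :=
      Finset.sum_nonneg (fun k hk => mul_nonneg (hpos k hk).le (sq_nonneg _))
    have h6 := mul_le_mul h2 h3 h5 (by positivity)
    have h7 : 0 ≤ (1 + Real.log N) * A := mul_nonneg hlog hA0
    nlinarith
  rw [e1]
  have h8 := Real.abs_le_sqrt h4
  rw [Real.sqrt_mul (by norm_num), Real.sqrt_sq (by norm_num)] at h8
  exact (le_abs_self _).trans h8

end Pool.Agent.R211.PK
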