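import Pool.Agent.R211.PK.Stm

/-! PK-UNI (helper160): uniqueness, from INST, DER, GR. -/

set_option autoImplicit false

open Set Filter Topology MeasureTheory
open scoped ComplexConjugate ENNReal

namespace Pool.Agent.R211.PK

open Pool.Agent.R211.BQ

namespace Uni

theorem n2_nonneg (k : K2) : (0 : ℝ) ≤ (n2 k : ℝ) := by
  have : 0 ≤ n2 k := by unfold n2; positivity
  exact_mod_cast this

theorem n2_ge_one {k : K2} (hk : k ≠ 0) : (1 : ℝ) ≤ (n2 k : ℝ) := by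
  have : 1 ≤ n2 k := by
    unfold n2
    by_contra hc
    have h1 : 0 ≤ k.1 ^ 2 := sq_nonneg _
    have h2 : 0 ≤ k.2 ^ 2 := sq_nonneg _
    have h3 : k.1 ^ 2 = 0 := by omega
    have h4 : k.2 ^ 2 = 0 := by omega
    apply hk
    ext
    · simpa using h3
    · simpa using h4
  exact_mod_cast this

theorem adm {ν g T : ℝ} {W Θ : ℝ → K2 → ℂ} (h : LSol ν g (Icc 0 T) W Θ) (hT : 0 < T) :
    ∃ M : ℝ, ∀ M' : ℝ, M ≤ M' → ∀ t ∈ Icc 0 T, Adm M' (W t) (Θ t) := by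
  obtain ⟨C, hC⟩ := h.bd 0 ⟨le_rfl, hT.le⟩ T ⟨hT.le, le_rfl⟩
  refine ⟨C, fun M' hM t ht => ⟨h.zW t ht, h.zΘ t ht, h.cjW t ht, h.cjΘ t ht, ?_, ?_⟩⟩
  · exact fun S => ((hC t ht).1 S).trans hM
  · exact fun S => ((hC t ht).2 S).trans hM

theorem term_nonneg (w f w' f' : K2 → ℂ) (k : K2) :
    0 ≤ (‖w k - w' k‖ ^ 2 + ‖f k - f' k‖ ^ 2) / n2 k :=
  div_nonneg (by positivity) (n2_nonneg k)

theorem en2_nonneg (w f w' f' : K2 → ℂ) : 0 ≤ en2 w f w' f' :=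
  tsum_nonneg fun k => term_nonneg w f w' f' k

theorem sq_sub_le (a b : ℂ) : ‖a - b‖ ^ 2 ≤ 2 * ‖a‖ ^ 2 + 2 * ‖b‖ ^ 2 := by
  have h := norm_sub_le a b
  have h0 := norm_nonneg (a - b)
  nlinarith [sq_nonneg (‖a‖ - ‖b‖), norm_nonneg a, norm_nonneg b]

theorem term_le (w f w' f' : K2 → ℂ) (k : K2) :
    (‖w k - w' k‖ ^ 2 + ‖f k - f' k‖ ^ 2) / n2 k ≤
      2 * ‖w k‖ ^ 2 + 2 * ‖w' k‖ ^ 2 + (2 * ‖f k‖ ^ 2 + 2 * ‖f' k‖ ^ 2) := by
  have h1 := sq_sub_le (w k) (w' k)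
  have h2 := sq_sub_le (f k) (f' k)
  have h0 : 0 ≤ ‖w k - w' k‖ ^ 2 + ‖f k - f' k‖ ^ 2 := by positivity
  by_cases hk : k = 0
  · subst hk
    have : ((n2 (0 : K2) : ℤ) : ℝ) = 0 := by simp [n2]
    rw [this, div_zero]
    positivity
  · refine (div_le_self h0 (n2_ge_one hk)).trans (by linarith)

theorem en2_zero {M : ℝ} {w f w' f' : K2 → ℂ} (h : Adm M w f) (h' : Adm M w' f')
    (h0 : en2 w f w' f' = 0) : w = w' ∧ f = f' := by
  have hs : Summable fun k => (‖w k - w' k‖ ^ 2 + ‖f k - f' k‖ ^ 2) / (n2 k : ℝ) := by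
    refine summable_of_sum_le (c := 8 * M) (fun k => term_nonneg w f w' f' k) (fun S => ?_)
    calc ∑ k ∈ S, (‖w k - w' k‖ ^ 2 + ‖f k - f' k‖ ^ 2) / (n2 k : ℝ)
        ≤ ∑ k ∈ S, (2 * ‖w k‖ ^ 2 + 2 * ‖w' k‖ ^ 2 + (2 * ‖f k‖ ^ 2 + 2 * ‖f' k‖ ^ 2)) :=
          Finset.sum_le_sum fun k _ => term_le w f w' f' k
      _ = 2 * (∑ k ∈ S, ‖w k‖ ^ 2) + 2 * (∑ k ∈ S, ‖w' k‖ ^ 2) +
            (2 * (∑ k ∈ S, ‖f k‖ ^ 2) + 2 * (∑ k ∈ S, ‖f' k‖ ^ 2)) := by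
          simp only [Finset.sum_add_distrib, Finset.mul_sum]
      _ ≤ 8 * M := by
          have a1 := h.bw S
          have a2 := h'.bw S
          have a3 := h.bf S
          have a4 := h'.bf S
          linarith
  have hz := (hasSum_zero_iff_of_nonneg (fun k => term_nonneg w f w' f' k)).mp
    (by have := hs.hasSum; unfold en2 at h0; rwa [h0] at this)
  have hk : ∀ k, w k = w' k ∧ f k = f' k := by
    intro k
    by_cases hk0 : k = 0
    · subst hk0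
      exact ⟨by rw [h.zw, h'.zw], by rw [h.zf, h'.zf]⟩
    · have h1 : (‖w k - w' k‖ ^ 2 + ‖f k - f' k‖ ^ 2) / (n2 k : ℝ) = 0 := congrFun hz k
      have h2 : (n2 k : ℝ) ≠ 0 := by linarith [n2_ge_one hk0]
      rw [div_eq_zero_iff, or_iff_left h2] at h1
      have h3 : ‖w k - w' k‖ ^ 2 = 0 := by nlinarith [sq_nonneg ‖w k - w' k‖, sq_nonneg ‖f k - f' k‖]
      have h4 : ‖f k - f' k‖ ^ 2 = 0 := by nlinarith [sq_nonneg ‖w k - w' k‖, sq_nonneg ‖f k - f' k‖]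
      exact ⟨sub_eq_zero.mp (norm_eq_zero.mp (pow_eq_zero_iff (by norm_num) |>.mp h3)),
        sub_eq_zero.mp (norm_eq_zero.mp (pow_eq_zero_iff (by norm_num) |>.mp h4))⟩
  exact ⟨funext fun k => (hk k).1, funext fun k => (hk k).2⟩

end Uni

theorem t_Uni (h1 : StInst) (h2 : StDer) (h3 : StGr) : StUni := by
  intro ν g T W Θ W' Θ' hν hT hW hW' hfin h0 h0'
  obtain ⟨M1, hM1⟩ := Uni.adm hW hT
  obtain ⟨M2, hM2⟩ := Uni.adm hW' hT
  have hA : ∀ t ∈ Icc 0 T, Adm (max M1 M2) (W t) (Θ t) := hM1 _ (le_max_left _ _)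
  have hA' : ∀ t ∈ Icc 0 T, Adm (max M1 M2) (W' t) (Θ' t) := hM2 _ (le_max_right _ _)
  obtain ⟨C, hC, hI⟩ := h1 ν g (max M1 M2) hν
  obtain ⟨hD, hE⟩ := h2 ν g T W Θ W' Θ' hT hW hW' h0 h0'
  -- the dissipation
  let HH : ℝ → ℝ≥0∞ := fun t => ∑' k, ENNReal.ofReal (n2 k * ‖W t k‖ ^ 2)
  have hHm : AEMeasurable HH (volume.restrict (Icc 0 T)) := by
    refine AEMeasurable.ennreal_tsum fun k => ?_
    refine AEMeasurable.ennreal_ofReal ?_
    refine ContinuousOn.aemeasurable ?_ measurableSet_Icc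
    exact continuousOn_const.mul (((hW.coW k).norm).pow 2)
  have hHi : Integrable (fun t => (HH t).toReal) (volume.restrict (Icc 0 T)) :=
    integrable_toReal_of_lintegral_ne_top hHm hfin.ne
  have hHf : ∀ᵐ t ∂(volume.restrict (Icc 0 T)), HH t < ⊤ := ae_lt_top' hHm hfin.ne
  have hsum : ∀ t, HH t < ⊤ → ∀ S : Finset K2, ∑ k ∈ S, n2 k * ‖W t k‖ ^ 2 ≤ (HH t).toReal := by
    intro t ht S
    have ha : ENNReal.ofReal (∑ k ∈ S, n2 k * ‖W t k‖ ^ 2) ≤ HH t := by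
      rw [ENNReal.ofReal_sum_of_nonneg
        (fun k _ => mul_nonneg (Uni.n2_nonneg k) (sq_nonneg _))]
      exact ENNReal.sum_le_tsum S
    exact (ENNReal.ofReal_le_iff_le_toReal ht.ne).mp ha
  let h : ℝ → ℝ := fun t => Real.sqrt ((HH t).toReal)
  have hh0 : ∀ t, 0 ≤ h t := fun t => Real.sqrt_nonneg _
  have hhi : IntervalIntegrable h volume 0 T := by
    rw [intervalIntegrable_iff_integrableOn_Icc_of_le hT.le]
    have hg : Integrable (fun t => 1 + (HH t).toReal) (volume.restrict (Icc 0 T)) :=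
      (integrable_const 1).add hHi
    refine Integrable.mono' hg ?_ (Eventually.of_forall fun t => ?_)
    · exact (Real.continuous_sqrt.measurable.comp_aemeasurable
        hHm.ennreal_toReal).aestronglyMeasurable
    · rw [Real.norm_of_nonneg (hh0 t)]
      have hx : 0 ≤ (HH t).toReal := ENNReal.toReal_nonneg
      have := Real.sq_sqrt hx
      show Real.sqrt ((HH t).toReal) ≤ 1 + (HH t).toReal
      nlinarith [sq_nonneg (Real.sqrt ((HH t).toReal) - 1), Real.sqrt_nonneg ((HH t).toReal)]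
  have hkey := h3 T C (fun t => en2 (W t) (Θ t) (W' t) (Θ' t))
    (fun s => ∑' k, dt ν g (W s) (Θ s) (W' s) (Θ' s) k) h hT hC.le
    (fun t _ => Uni.en2_nonneg _ _ _ _) hD hE hh0 hhi
    (by
      intro N hN
      filter_upwards [hHf, ae_restrict_mem measurableSet_Icc] with t ht htm
      exact hI N hN _ ENNReal.toReal_nonneg _ _ _ _ (hA t htm) (hA' t htm) (hsum t ht))
  intro t ht
  exact Uni.en2_zero (hA t ht) (hA' t ht) (hkey t ht)

end Pool.Agent.R211.PK
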