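import Mathlib
import Pool.Agent.R211.PK.Stm

/-!
Project PK: complete solutions with bounded velocity and temperature have bounded vorticity.
-/

set_option autoImplicit false

open Set Filter Topology MeasureTheory
open scoped ComplexConjugate ENNReal

namespace Pool.Agent.R211.PK

open Pool.Agent.R211.BQ

/-- Comparison of a complete solution with the solution from its value at `r`. -/
lemma vb_key (hU : StUni) (hE : StEx) (hS : StShf) {ν g M : ℝ} {W Θ : ℝ → K2 → ℂ} (hν : 0 < ν)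
    (hL : LSol ν g univ W Θ) (hw : ∀ t, LB M (fun k => W t k / ln k)) (hθ : ∀ t, LB M (Θ t))
    (r C0 : ℝ) (h0 : LB C0 (W r)) :
    (∀ x ∈ Icc (0 : ℝ) 1, LB (Real.exp (-(ν * x)) * C0 + g ^ 2 * M / ν ^ 2) (W (x + r))) ∧
    ∫⁻ x in Icc (0 : ℝ) 1, ∑' k, ENNReal.ofReal (‖W (x + r) k‖ ^ 2)
      ≤ ENNReal.ofReal ((M + g ^ 2 * M / ν) / ν) := by
  obtain ⟨W', Θ', hL', hW0, hΘ0, hb, hi, hf⟩ := hE ν g (W r) (Θ r) C0 M M hν
    (hL.zW r (mem_univ _)) (hL.zΘ r (mem_univ _)) (hL.cjW r (mem_univ _))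
    (hL.cjΘ r (mem_univ _)) h0 (hθ r) (hw r)
  have hA : LSol ν g (Icc 0 1) W' Θ' := by
    have := hS ν g 0 (Ici 0) (Icc 0 1) W' Θ' hL' ordConnected_Icc
      (fun t ht => by simpa using ht.1)
    simpa using this
  have hB : LSol ν g (Icc 0 1) (fun t => W (t + r)) (fun t => Θ (t + r)) :=
    hS ν g r univ (Icc 0 1) W Θ hL ordConnected_Icc (fun t _ => mem_univ _)
  have hUU := hU ν g 1 W' Θ' (fun t => W (t + r)) (fun t => Θ (t + r)) hν one_pos hA hB (hf 1)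
    (by simp [hW0]) (by simp [hΘ0])
  have heq : ∀ x ∈ Icc (0 : ℝ) 1, W' x = W (x + r) := fun x hx => (hUU x hx).1
  refine ⟨fun x hx => ?_, ?_⟩
  · rw [← heq x hx]
    exact (hb x hx.1).2
  · have hc : ∫⁻ x in Icc (0 : ℝ) 1, ∑' k, ENNReal.ofReal (‖W (x + r) k‖ ^ 2) =
        ∫⁻ x in Icc (0 : ℝ) 1, ∑' k, ENNReal.ofReal (‖W' x k‖ ^ 2) :=
      setLIntegral_congr_fun measurableSet_Icc (fun x hx => by simp only [heq x hx])
    rw [hc]
    exact hi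

theorem t_VB : StUni → StEx → StShf → StVB := by
  intro hU hE hS ν g M W Θ hν hL hw hθ
  have hM : 0 ≤ M := (hθ 0).nonneg
  obtain ⟨A, hA⟩ : ∃ A : ℝ, A = (M + g ^ 2 * M / ν) / ν := ⟨_, rfl⟩
  have hA0 : 0 ≤ A := by rw [hA]; positivity
  have hexp : ∀ x : ℝ, 0 ≤ x → ∀ C : ℝ, 0 ≤ C → Real.exp (-(ν * x)) * C ≤ C := by
    intro x hx C hC
    have h1 : Real.exp (-(ν * x)) ≤ 1 := Real.exp_le_one_iff.2 (by nlinarith [mul_nonneg hν.le hx])
    nlinarith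
  refine ⟨(A + 1) + g ^ 2 * M / ν ^ 2, fun t => ?_⟩
  obtain ⟨C0, hC0⟩ := hL.bd (t - 1) (mem_univ _) (t - 1) (mem_univ _)
  have h0 := (hC0 (t - 1) ⟨le_rfl, le_rfl⟩).1
  obtain ⟨-, hi⟩ := vb_key hU hE hS hν hL hw hθ (t - 1) C0 h0
  rw [← hA] at hi
  have hex : ∃ τ ∈ Icc (0 : ℝ) 1, LB (A + 1) (W (τ + (t - 1))) := by
    by_contra hcon
    have h1 : ∀ x ∈ Icc (0 : ℝ) 1,
        ENNReal.ofReal (A + 1) ≤ ∑' k, ENNReal.ofReal (‖W (x + (t - 1)) k‖ ^ 2) := by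
      intro x hx
      have h2 : ¬ LB (A + 1) (W (x + (t - 1))) := fun h => hcon ⟨x, hx, h⟩
      obtain ⟨S, hSS⟩ := not_forall.1 h2
      have h3 : A + 1 ≤ ∑ k ∈ S, ‖W (x + (t - 1)) k‖ ^ 2 := (not_le.1 hSS).le
      calc ENNReal.ofReal (A + 1)
          ≤ ENNReal.ofReal (∑ k ∈ S, ‖W (x + (t - 1)) k‖ ^ 2) := ENNReal.ofReal_le_ofReal h3
        _ = ∑ k ∈ S, ENNReal.ofReal (‖W (x + (t - 1)) k‖ ^ 2) :=
          ENNReal.ofReal_sum_of_nonneg (fun k _ => by positivity)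
        _ ≤ _ := ENNReal.sum_le_tsum S
    have h2 : ENNReal.ofReal (A + 1) ≤
        ∫⁻ x in Icc (0 : ℝ) 1, ∑' k, ENNReal.ofReal (‖W (x + (t - 1)) k‖ ^ 2) := by
      calc ENNReal.ofReal (A + 1) = ∫⁻ x in Icc (0 : ℝ) 1, ENNReal.ofReal (A + 1) := by
            rw [setLIntegral_const]; simp
        _ ≤ _ := setLIntegral_mono' measurableSet_Icc h1
    have h4 := (ENNReal.ofReal_le_ofReal_iff hA0).1 (h2.trans hi)
    linarith
  obtain ⟨τ, hτ, hLB⟩ := hex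
  have h5 := (vb_key hU hE hS hν hL hw hθ (τ + (t - 1)) (A + 1) hLB).1 (1 - τ)
    ⟨by linarith [hτ.2], by linarith [hτ.1]⟩
  have h6 : (1 - τ) + (τ + (t - 1)) = t := by ring
  rw [h6] at h5
  exact fun S => (h5 S).trans
    (by linarith [hexp (1 - τ) (by linarith [hτ.2]) (A + 1) (by linarith)])

end Pool.Agent.R211.PK
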