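import Pool.Agent.R211.PK.Stm

/-!
Project PK, piece Vel: velocity from vorticity.
-/

set_option autoImplicit false

open Set Filter Topology MeasureTheory
open scoped ComplexConjugate ENNReal

namespace Pool.Agent.R211.PK

open Pool.Agent.R211.BQ

namespace VEL

lemma kap_pos {L : ℝ} (hL : 0 < L) : 0 < kap L := by
  unfold kap
  have := Real.pi_pos
  positivity

lemma n2_zero : n2 0 = 0 := by unfold n2; simp

lemma fc_zero' {u : Fin 2 → T2 → ℝ} (hu : u ∈ Hs) (i : Fin 2) : fc (u i) 0 = 0 := by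
  rw [fc_zero, (hu.1 i).2, Complex.ofReal_zero]

lemma wc_zero (L : ℝ) (u : Fin 2 → T2 → ℝ) : wc L u 0 = 0 := by
  unfold wc
  simp

lemma wc_conj (L : ℝ) (u : Fin 2 → T2 → ℝ) (k : K2) : conj (wc L u k) = wc L u (-k) := by
  unfold wc
  rw [fc_neg, fc_neg]
  simp only [map_mul, map_sub, Complex.conj_I, Complex.conj_ofReal, Prod.fst_neg, Prod.snd_neg,
    map_intCast, Int.cast_neg]
  ring

lemma fc_eq_uc {L : ℝ} (hL : 0 < L) {u : Fin 2 → T2 → ℝ} (hu : u ∈ Hs) (i : Fin 2) (k : K2) :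
    fc (u i) k = uc (kap L) (wc L u) i k := by
  by_cases hk : k = 0
  · subst hk
    rw [fc_zero' hu]
    unfold uc
    rw [wc_zero, mul_zero]
  · have hκ : ((kap L : ℝ) : ℂ) ≠ 0 := by exact_mod_cast (kap_pos hL).ne'
    have hn : ((n2 k : ℤ) : ℂ) ≠ 0 := by
      have := one_le_n2 hk
      exact_mod_cast (by omega : n2 k ≠ 0)
    have hn2 : ((n2 k : ℤ) : ℂ) = (k.1 : ℂ) ^ 2 + (k.2 : ℂ) ^ 2 := by
      unfold n2; push_cast; ring
    have hd := hu.2 k
    rw [Fin.sum_univ_two] at hd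
    unfold cm at hd
    simp only [if_true, Fin.one_eq_zero_iff, OfNat.ofNat_ne_one, if_false,
      Complex.ofReal_intCast] at hd
    have hI : Complex.I * Complex.I = -1 := Complex.I_mul_I
    fin_cases i
    · unfold uc wc
      simp only [Fin.zero_eta, if_true]
      push_cast
      rw [eq_comm, mul_assoc, div_mul_eq_mul_div, mul_div_assoc']
      rw [div_eq_iff (mul_ne_zero hκ hn), hn2]
      linear_combination ((kap L : ℂ) * (k.2 : ℂ) * ((k.1 : ℂ) * fc (u 1) k - (k.2 : ℂ) * fc (u 0) k)) * hI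
        - (kap L : ℂ) * (k.1 : ℂ) * hd
    · unfold uc wc
      simp only [Fin.mk_one, Fin.one_eq_zero_iff, OfNat.ofNat_ne_one, if_false]
      push_cast
      rw [eq_comm, mul_assoc, div_mul_eq_mul_div, mul_div_assoc']
      rw [div_eq_iff (mul_ne_zero hκ hn), hn2]
      linear_combination (-(kap L : ℂ) * (k.1 : ℂ) * ((k.1 : ℂ) * fc (u 1) k - (k.2 : ℂ) * fc (u 0) k)) * hI
        - (kap L : ℂ) * (k.2 : ℂ) * hd

lemma sum_sq {L : ℝ} (hL : 0 < L) {u : Fin 2 → T2 → ℝ} (hu : u ∈ Hs) (k : K2) :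
    kap L ^ 2 * n2 k * ∑ i, ‖fc (u i) k‖ ^ 2 = ‖wc L u k‖ ^ 2 := by
  rw [← uc_sq (kap_pos hL) (wc_zero L u) k]
  simp only [fc_eq_uc hL hu]

lemma sum_div {L : ℝ} (hL : 0 < L) {u : Fin 2 → T2 → ℝ} (hu : u ∈ Hs) (k : K2) :
    kap L ^ 2 * ∑ i, ‖fc (u i) k‖ ^ 2 = ‖wc L u k / ln k‖ ^ 2 := by
  by_cases hk : k = 0
  · subst hk
    rw [wc_zero, Fin.sum_univ_two, fc_zero' hu, fc_zero' hu]
    simp
  · have h1 : (0 : ℝ) < n2 k := by
      have := one_le_n2 hk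
      exact_mod_cast (by omega : 0 < n2 k)
    rw [norm_div, div_pow, ← sum_sq hL hu k, Complex.norm_real, Real.norm_eq_abs, sq_abs]
    unfold ln
    rw [Real.sq_sqrt h1.le]
    field_simp

end VEL

open VEL in
theorem t_Vel : StVel := by
  intro L u hL hu
  have hg : grad2 L u = ∑' k, ENNReal.ofReal (‖wc L u k‖ ^ 2) := by
    unfold grad2
    refine tsum_congr fun k => ?_
    rw [sq_eq, sum_sq hL hu k]
  refine ⟨wc_zero L u, wc_conj L u, fc_eq_uc hL hu, sum_div hL hu, hg, ?_, ?_⟩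
  · intro C hC
    rw [hg, ENNReal.tsum_eq_iSup_sum, iSup_le_iff]
    unfold LB
    refine forall_congr' fun S => ?_
    rw [← ENNReal.ofReal_sum_of_nonneg (fun _ _ => sq_nonneg _), ENNReal.ofReal_le_ofReal_iff hC]
  · intro S
    calc ∑ k ∈ S, ‖wc L u k / ln k‖ ^ 2 = ∑ k ∈ S, kap L ^ 2 * ∑ i, ‖fc (u i) k‖ ^ 2 :=
          Finset.sum_congr rfl fun k _ => (sum_div hL hu k).symm
      _ = kap L ^ 2 * ∑ i, ∑ k ∈ S, ‖fc (u i) k‖ ^ 2 := by
          rw [← Finset.mul_sum, Finset.sum_comm]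
      _ ≤ kap L ^ 2 * ∑ i, ∫ y, u i y ^ 2 ∂mu := by
          gcongr with i _
          exact LB_fc' (hu.1 i).1 S

end Pool.Agent.R211.PK
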