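import Pool.Agent.R211.PK.Stm

/-!
Well-posedness, from the pieces of the project.
-/

set_option autoImplicit false

open Set Filter Topology MeasureTheory
open scoped ComplexConjugate ENNReal

namespace Pool.Agent.R211.PK

open Pool.Agent.R211.BQ

lemma kap_pos {L : ℝ} (hL : 0 < L) : 0 < kap L := by
  unfold kap
  positivity

lemma LB.congr_div {C : ℝ} {a b : K2 → ℂ} (h : LB C a) (hb : ∀ k, ‖b k‖ ≤ ‖a k‖) : LB C b :=
  fun S => (Finset.sum_le_sum fun k _ => by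
    have := norm_nonneg (b k)
    have := hb k
    gcongr).trans (h S)

/-- Global solutions with data in `V × L²`. -/
theorem wp_ex (hV : StVel) (hB : StBr2) (hE : StEx) {L ν : ℝ} (g : ℝ) (hL : 0 < L) (hν : 0 < ν)
    {u₀ : Fin 2 → T2 → ℝ} {θ₀ : T2 → ℝ} (hu : u₀ ∈ Hs) (hθ : θ₀ ∈ L20) (hg : grad2 L u₀ < ⊤) :
    ∃ (u : ℝ → Fin 2 → T2 → ℝ) (θ : ℝ → T2 → ℝ), SolV L ν g (Ici 0) u θ ∧ u 0 = u₀ ∧ θ 0 = θ₀ := by
  have hκ := kap_pos hL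
  obtain ⟨h1, h2, h3, h4, h5, h6, h7⟩ := hV L u₀ hL hu
  have hC : LB (grad2 L u₀).toReal (wc L u₀) := by
    rw [h6 _ ENNReal.toReal_nonneg, ENNReal.ofReal_toReal hg.ne]
  have hf0 : fc θ₀ 0 = 0 := by rw [fc_zero, hθ.2, Complex.ofReal_zero]
  obtain ⟨W, Θ, hS, hW, hΘ, -⟩ := hE (ν * kap L ^ 2) (g * kap L) (wc L u₀) (fc θ₀) _ _ _
    (by positivity) h1 hf0 h2 (fun k => (fc_neg θ₀ k).symm) hC (LB_fc' hθ.1) h7
  obtain ⟨u, θ, h, h', h'', -⟩ := hB L ν g (Ici 0) W Θ u₀ θ₀ hL ordConnected_Ici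
    (mem_Ici.2 le_rfl) hS hu hθ hW.symm hΘ.symm
  exact ⟨u, θ, h, h', h''⟩

/-- The lattice solution with given data is unique. -/
theorem lat_un (hE : StEx) (hU : StUni) (hS : StShf) {ν g C D E : ℝ} (hν : 0 < ν)
    {w₀ f₀ : K2 → ℂ} (hC : LB C w₀) (hD : LB D f₀) (hLE : LB E (fun k => w₀ k / ln k))
    {W Θ W' Θ' : ℝ → K2 → ℂ} (h : LSol ν g (Ici 0) W Θ) (h' : LSol ν g (Ici 0) W' Θ')
    (hW : W 0 = w₀) (hΘ : Θ 0 = f₀) (hW' : W' 0 = w₀) (hΘ' : Θ' 0 = f₀) {t : ℝ} (ht : 0 ≤ t) :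
    W t = W' t ∧ Θ t = Θ' t := by
  have h0 : (0 : ℝ) ∈ Ici (0 : ℝ) := mem_Ici.2 le_rfl
  obtain ⟨X, Y, hX, hX0, hY0, -, -, hi⟩ := hE ν g w₀ f₀ C D E hν (by rw [← hW]; exact h.zW 0 h0)
    (by rw [← hΘ]; exact h.zΘ 0 h0) (by rw [← hW]; exact h.cjW 0 h0)
    (by rw [← hΘ]; exact h.cjΘ 0 h0) hC hD hLE
  have hT : (0 : ℝ) < t + 1 := by linarith
  have hr : ∀ {A B : ℝ → K2 → ℂ}, LSol ν g (Ici 0) A B → LSol ν g (Icc 0 (t + 1)) A B := by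
    intro A B hA
    have := hS ν g 0 (Ici 0) (Icc 0 (t + 1)) A B hA ordConnected_Icc
      (fun s hs => by rw [add_zero]; exact hs.1)
    simpa using this
  have e1 := hU ν g (t + 1) X Y W Θ hν hT (hr hX) (hr h) (hi _) (by rw [hX0, hW])
    (by rw [hY0, hΘ]) t ⟨ht, by linarith⟩
  have e2 := hU ν g (t + 1) X Y W' Θ' hν hT (hr hX) (hr h') (hi _) (by rw [hX0, hW'])
    (by rw [hY0, hΘ']) t ⟨ht, by linarith⟩
  exact ⟨e1.1.symm.trans e2.1, e1.2.symm.trans e2.2⟩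

lemma ae_of_fc {f g : T2 → ℝ} (hf : MemLp f 2 mu) (hg : MemLp g 2 mu) (h : ∀ k, fc f k = fc g k) :
    f =ᵐ[mu] g := by
  have h1 : hf.toLp f = hg.toLp g := eq_of_fc fun k => by rw [fc_toLp, fc_toLp, h]
  exact (hf.coeFn_toLp.symm.trans (by rw [h1])).trans hg.coeFn_toLp

/-- Solutions with the same data in `V × L²` are equal. -/
theorem wp_un (hV : StVel) (hB : StBr1) (hE : StEx) (hU : StUni) (hS : StShf) {L ν g : ℝ}
    (hL : 0 < L) (hν : 0 < ν) {u u' : ℝ → Fin 2 → T2 → ℝ} {θ θ' : ℝ → T2 → ℝ}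
    (h : SolV L ν g (Ici 0) u θ) (h' : SolV L ν g (Ici 0) u' θ') (hu : u 0 = u' 0)
    (hθ : θ 0 = θ' 0) {t : ℝ} (ht : 0 ≤ t) :
    (∀ i, u t i =ᵐ[mu] u' t i) ∧ θ t =ᵐ[mu] θ' t := by
  have hκ := kap_pos hL
  have h0 : (0 : ℝ) ∈ Ici (0 : ℝ) := mem_Ici.2 le_rfl
  have htI : t ∈ Ici (0 : ℝ) := ht
  obtain ⟨h1, h2, h3, h4, h5, h6, h7⟩ := hV L (u 0) hL (h.memH 0 h0)
  have hC : ∃ C : ℝ, LB C (wc L (u 0)) := by
    obtain ⟨C, hC⟩ := h.bddV 0 h0 0 h0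
    refine ⟨max C 0, (h6 _ (le_max_right _ _)).2 ((hC 0 ⟨le_rfl, le_rfl⟩).trans ?_)⟩
    exact ENNReal.ofReal_le_ofReal (le_max_left _ _)
  obtain ⟨C, hC⟩ := hC
  have e := lat_un hE hU hS (ν := ν * kap L ^ 2) (g := g * kap L) (by positivity) hC
    (LB_fc' (h.memL 0 h0).1) h7 (hB L ν g _ u θ hL ordConnected_Ici h)
    (hB L ν g _ u' θ' hL ordConnected_Ici h') rfl rfl (by rw [hu]) (by rw [hθ]) ht
  obtain ⟨-, -, a3, -⟩ := hV L (u t) hL (h.memH t htI)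
  obtain ⟨-, -, b3, -⟩ := hV L (u' t) hL (h'.memH t htI)
  refine ⟨fun i => ae_of_fc ((h.memH t htI).1 i).1 ((h'.memH t htI).1 i).1 fun k => ?_,
    ae_of_fc (h.memL t htI).1 (h'.memL t htI).1 fun k => ?_⟩
  · rw [a3, b3]
    have : wc L (u t) = wc L (u' t) := e.1
    rw [this]
  · exact congrFun e.2 k

end Pool.Agent.R211.PK
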